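import Mathlib

/-! # Exponential sums along `b ^ (m + T r)` at fractions with denominator `a ^ n` -/

set_option autoImplicit false

open Finset

namespace Pool.Agent.N440.FO

/-- `e(t) = exp(2 π i t)` -/
noncomputable def e (t : ℝ) : ℂ := Complex.exp (2 * Real.pi * Complex.I * t)

theorem e_add (s t : ℝ) : e (s + t) = e s * e t := by
  unfold e; rw [← Complex.exp_add]; congr 1; push_cast; ring

theorem e_zero : e 0 = 1 := by unfold e; simp

theorem e_int (n : ℤ) : e n = 1 := by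
  unfold e
  rw [Complex.exp_eq_one_iff]
  exact ⟨n, by push_cast; ring⟩

theorem norm_e (t : ℝ) : ‖e t‖ = 1 := by
  rw [e]
  have : (2 * Real.pi * Complex.I * t : ℂ) = ((2 * Real.pi * t : ℝ) : ℂ) * Complex.I := by
    push_cast; ring
  rw [this, Complex.norm_exp_ofReal_mul_I]

theorem e_nsmul (n : ℕ) (t : ℝ) : e (n * t) = e t ^ n := by
  unfold e; rw [← Complex.exp_nat_mul]; congr 1; push_cast; ring

theorem e_neg (t : ℝ) : e (-t) = (starRingEnd ℂ) (e t) := by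
  unfold e
  rw [← Complex.exp_conj]
  congr 1
  simp only [map_mul, Complex.conj_ofReal, Complex.conj_I, Complex.ofReal_neg, map_ofNat]
  ring

theorem e_eq_one_iff (t : ℝ) : e t = 1 ↔ ∃ n : ℤ, t = n := by
  unfold e
  rw [Complex.exp_eq_one_iff]
  have h2 : (2 * Real.pi * Complex.I : ℂ) ≠ 0 := by
    simp [Real.pi_ne_zero]
  constructor
  · rintro ⟨n, hn⟩
    refine ⟨n, ?_⟩
    have h3 : (2 * Real.pi * Complex.I : ℂ) * t = (2 * Real.pi * Complex.I) * n := by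
      rw [hn]; ring
    have := mul_left_cancel₀ h2 h3
    exact_mod_cast this
  · rintro ⟨n, rfl⟩
    exact ⟨n, by push_cast; ring⟩

theorem continuous_e : Continuous e := by
  unfold e; fun_prop

/-- lifting the exponent, in a form common to all primes -/
theorem lte {p : ℕ} (hp : p.Prime) {B : ℕ} (h1 : (p : ℤ) ∣ (B : ℤ) - 1)
    (h2 : p = 2 → (4 : ℤ) ∣ (B : ℤ) - 1) (n : ℕ) :
    emultiplicity (p : ℤ) ((B : ℤ) ^ n - 1) = emultiplicity (p : ℤ) ((B : ℤ) - 1) +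
      emultiplicity (p : ℤ) (n : ℤ) := by
  have hpB : ¬ (p : ℤ) ∣ (B : ℤ) := by
    intro h
    have h3 : (p : ℤ) ∣ 1 := by
      have := dvd_sub h h1
      simpa using this
    have h4 := Int.le_of_dvd one_pos h3
    have := hp.two_le
    omega
  rcases hp.eq_two_or_odd' with rfl | hodd
  · have := Int.two_pow_sub_pow' (x := (B : ℤ)) (y := 1) n (h2 rfl) (by exact_mod_cast hpB)
    simpa using this
  · have := Int.emultiplicity_pow_sub_pow hp hodd (x := (B : ℤ)) (y := 1) h1 hpB n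
    rw [one_pow] at this
    rw [this, Int.natCast_emultiplicity]

/-- the geometric sums `1 + B + … + B ^ (r - 1)` -/
def gs (B r : ℕ) : ℕ := ∑ i ∈ range r, B ^ i

theorem gs_mul (B r : ℕ) : ((gs B r : ℕ) : ℤ) * ((B : ℤ) - 1) = (B : ℤ) ^ r - 1 := by
  unfold gs
  push_cast
  exact geom_sum_mul (B : ℤ) r

theorem emult_gs {p : ℕ} (hp : p.Prime) {B : ℕ} (hB : 2 ≤ B) (h1 : (p : ℤ) ∣ (B : ℤ) - 1)
    (h2 : p = 2 → (4 : ℤ) ∣ (B : ℤ) - 1) (n : ℕ) :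
    emultiplicity (p : ℤ) ((gs B n : ℕ) : ℤ) = emultiplicity (p : ℤ) (n : ℤ) := by
  have hl := lte hp h1 h2 n
  rw [← gs_mul, emultiplicity_mul (Nat.prime_iff_prime_int.1 hp), add_comm] at hl
  have hfin : FiniteMultiplicity (p : ℤ) ((B : ℤ) - 1) := by
    rw [Int.finiteMultiplicity_iff]
    have := hp.two_le
    constructor
    · simp; omega
    · omega
  have hne : emultiplicity (p : ℤ) ((B : ℤ) - 1) ≠ ⊤ := by
    rw [Ne, emultiplicity_eq_top]; simpa using hfin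
  exact ENat.add_right_injective_of_ne_top hne hl

theorem gs_sub (B : ℕ) {r s : ℕ} (h : r ≤ s) :
    ((gs B s : ℕ) : ℤ) - gs B r = (B : ℤ) ^ r * gs B (s - r) := by
  obtain ⟨k, rfl⟩ := Nat.exists_eq_add_of_le h
  rw [Nat.add_sub_cancel_left]
  unfold gs
  rw [Finset.sum_range_add]
  push_cast
  rw [Finset.mul_sum]
  simp only [pow_add]
  ring

theorem gs_inj {p : ℕ} (hp : p.Prime) {B : ℕ} (hB : 2 ≤ B) (h1 : (p : ℤ) ∣ (B : ℤ) - 1)
    (h2 : p = 2 → (4 : ℤ) ∣ (B : ℤ) - 1) {K r s : ℕ} (hrs : r < s) (hs : s < p ^ K) :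
    gs B r % p ^ K ≠ gs B s % p ^ K := by
  intro h
  have h3 : ((p ^ K : ℕ) : ℤ) ∣ ((gs B s : ℕ) : ℤ) - gs B r := by
    exact (Nat.modEq_iff_dvd).1 h
  rw [gs_sub B hrs.le] at h3
  have hcop : IsCoprime ((p ^ K : ℕ) : ℤ) ((B : ℤ) ^ r) := by
    have h4 : IsCoprime (p : ℤ) (B : ℤ) := by
      obtain ⟨c, hc⟩ := h1
      exact ⟨-c, 1, by linarith⟩
    push_cast
    exact h4.pow
  have h5 := hcop.dvd_of_dvd_mul_left h3
  push_cast at h5
  have h6 := (pow_dvd_iff_le_emultiplicity).1 h5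
  rw [emult_gs hp hB h1 h2] at h6
  have h7 := (pow_dvd_iff_le_emultiplicity).2 h6
  have h8 : p ^ K ∣ s - r := by exact_mod_cast h7
  have := Nat.le_of_dvd (by omega) h8
  omega

/-- the sum of a nontrivial character over the geometric sums -/
theorem sum_gs {p : ℕ} (hp : p.Prime) {B : ℕ} (hB : 2 ≤ B) (h1 : (p : ℤ) ∣ (B : ℤ) - 1)
    (h2 : p = 2 → (4 : ℤ) ∣ (B : ℤ) - 1) {K n : ℕ} (hnK : n ≤ K) {κ : ℤ}
    (hκ : ¬ (p : ℤ) ^ n ∣ κ) :
    ∑ r ∈ range (p ^ K), e ((gs B r : ℝ) * (κ / (p : ℝ) ^ n)) = 0 := by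
  have hp0 : (p : ℝ) ≠ 0 := by exact_mod_cast hp.ne_zero
  set ζ : ℂ := e (κ / (p : ℝ) ^ n) with hζ
  have hζK : ζ ^ (p ^ K) = 1 := by
    rw [hζ, ← e_nsmul]
    obtain ⟨j, rfl⟩ := Nat.exists_eq_add_of_le hnK
    have : ((p ^ (n + j) : ℕ) : ℝ) * (κ / (p : ℝ) ^ n) = ((p ^ j * κ : ℤ) : ℝ) := by
      push_cast
      rw [pow_add]
      field_simp
    rw [this, e_int]
  have hζ1 : ζ ≠ 1 := by
    intro h
    rw [hζ, e_eq_one_iff] at h
    obtain ⟨m, hm⟩ := h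
    rw [div_eq_iff (pow_ne_zero _ hp0)] at hm
    apply hκ
    refine ⟨m, ?_⟩
    have : (κ : ℝ) = ((p ^ n * m : ℤ) : ℝ) := by rw [hm]; push_cast; ring
    exact_mod_cast this
  have hmod : ∀ m : ℕ, ζ ^ m = ζ ^ (m % p ^ K) := by
    intro m
    conv_lhs => rw [← Nat.div_add_mod m (p ^ K)]
    rw [pow_add, pow_mul, hζK, one_pow, one_mul]
  have h3 : ∀ r ∈ range (p ^ K), e ((gs B r : ℝ) * (κ / (p : ℝ) ^ n)) =
      ζ ^ (gs B r % p ^ K) := by
    intro r _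
    rw [e_nsmul, ← hmod]
  rw [Finset.sum_congr rfl h3]
  have hinj : Set.InjOn (fun r => gs B r % p ^ K) (range (p ^ K) : Finset ℕ) := by
    intro r hr s hs hrs
    rw [Finset.coe_range, Set.mem_Iio] at hr hs
    rcases lt_trichotomy r s with h | h | h
    · exact absurd hrs (gs_inj hp hB h1 h2 h hs)
    · exact h
    · exact absurd hrs.symm (gs_inj hp hB h1 h2 h hr)
  have himg : (range (p ^ K)).image (fun r => gs B r % p ^ K) = range (p ^ K) := by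
    refine Finset.eq_of_subset_of_card_le ?_ ?_
    · intro x hx
      obtain ⟨r, _, rfl⟩ := Finset.mem_image.1 hx
      rw [Finset.mem_range]
      exact Nat.mod_lt _ (pow_pos hp.pos K)
    · rw [Finset.card_image_of_injOn hinj]
  have h4 : ∑ r ∈ range (p ^ K), ζ ^ (gs B r % p ^ K) = ∑ s ∈ range (p ^ K), ζ ^ s := by
    conv_rhs => rw [← himg]
    rw [Finset.sum_image hinj]
  rw [h4, geom_sum_eq hζ1, hζK, sub_self, zero_div]

/-- a natural number is the product of a divisor of a power of `b` and a number coprime to `b` -/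
theorem decomp (b : ℕ) : ∀ c : ℕ, 0 < c → ∃ g c₀ k : ℕ, c = g * c₀ ∧ Nat.Coprime c₀ b ∧ g ∣ b ^ k := by
  intro c
  induction c using Nat.strong_induction_on with
  | _ c ih =>
    intro hc
    rcases Nat.lt_or_ge 1 (Nat.gcd c b) with h | h
    · obtain ⟨c', hc'⟩ := Nat.gcd_dvd_left c b
      have hc'0 : 0 < c' := by
        rcases Nat.eq_zero_or_pos c' with h0 | h0
        · rw [h0, mul_zero] at hc'; omega
        · exact h0
      have hlt : c' < c := by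
        calc c' = 1 * c' := (one_mul _).symm
          _ < Nat.gcd c b * c' := by exact (Nat.mul_lt_mul_right hc'0).2 h
          _ = c := hc'.symm
      obtain ⟨g, c₀, k, h1, h2, h3⟩ := ih c' hlt hc'0
      refine ⟨Nat.gcd c b * g, c₀, k + 1, ?_, h2, ?_⟩
      · rw [mul_assoc, ← h1]; exact hc'
      · rw [pow_succ, mul_comm]
        exact Nat.mul_dvd_mul h3 (Nat.gcd_dvd_right c b)
    · refine ⟨1, c, 0, by simp, ?_, by simp⟩
      have : 0 < Nat.gcd c b := Nat.gcd_pos_of_pos_left _ hc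
      unfold Nat.Coprime
      omega

theorem not_pow_dvd_mul {p : ℤ} (hp : Prime p) {x y : ℤ} {i j : ℕ} (hx : ¬ p ^ i ∣ x)
    (hy : ¬ p ^ j ∣ y) : ¬ p ^ (i + j) ∣ x * y := by
  rw [pow_dvd_iff_le_emultiplicity, not_le] at *
  rw [emultiplicity_mul hp]
  push_cast
  exact ENat.add_lt_add hx hy

/-- The parameters: `b ^ m (b ^ T - 1)` is divisible by `a' ^ N`, and the exponent of `p` in it is
bounded independently of `N`. -/
theorem params {p : ℕ} (hp : p.Prime) {b a' : ℕ} (hb : 2 ≤ b) (hpb : ¬ p ∣ b) (ha' : 0 < a')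
    (hpa : ¬ p ∣ a') :
    ∃ k₁ : ℕ, ∀ N : ℕ, ∃ m T c : ℕ, (p : ℤ) ∣ ((b ^ T : ℕ) : ℤ) - 1 ∧
      (p = 2 → (4 : ℤ) ∣ ((b ^ T : ℕ) : ℤ) - 1) ∧ 2 ≤ b ^ T ∧
      (b : ℤ) ^ m * (((b ^ T : ℕ) : ℤ) - 1) = (a' : ℤ) ^ N * c ∧ ¬ (p : ℤ) ^ k₁ ∣ (c : ℤ) := by
  obtain ⟨g, a₀, k, hga, hcop, hgk⟩ := decomp b a' ha'
  have ha₀ : 0 < a₀ := by
    rcases Nat.eq_zero_or_pos a₀ with h | h
    · rw [h, mul_zero] at hga; omega
    · exact h
  have hφ : 0 < Nat.totient a₀ := Nat.totient_pos.2 ha₀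
  have hp2 := hp.two_le
  set t : ℕ := 2 * (p - 1) * Nat.totient a₀ with ht
  have ht0 : 2 ≤ t := by
    have : 1 ≤ (p - 1) * Nat.totient a₀ := Nat.mul_pos (by omega) hφ
    rw [ht, mul_assoc]; omega
  set B : ℕ := b ^ t with hB
  have hB2 : 2 ≤ B := by
    calc 2 ≤ b := hb
      _ = b ^ 1 := (pow_one b).symm
      _ ≤ b ^ t := Nat.pow_le_pow_right (by omega) (by omega)
  have hpB : (p : ℤ) ∣ (B : ℤ) - 1 := by
    have h1 : b ^ (p - 1) ≡ 1 [MOD p] := by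
      have := Nat.ModEq.pow_totient (n := p) (x := b)
        ((Nat.coprime_comm.1 ((Nat.Prime.coprime_iff_not_dvd hp).2 hpb)))
      rwa [Nat.totient_prime hp] at this
    have h2 : B ≡ 1 [MOD p] := by
      have h3 := h1.pow (2 * Nat.totient a₀)
      rw [one_pow, ← pow_mul] at h3
      have h4 : (p - 1) * (2 * Nat.totient a₀) = t := by rw [ht]; ring
      rwa [h4] at h3
    have := (Nat.modEq_iff_dvd).1 h2.symm
    exact_mod_cast this
  have h4B : p = 2 → (4 : ℤ) ∣ (B : ℤ) - 1 := by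
    intro h2
    subst h2
    have hodd : b % 2 = 1 := by omega
    have h1 : b ^ 2 ≡ 1 [MOD 4] := by
      have h3 : b % 4 = 1 ∨ b % 4 = 3 := by omega
      unfold Nat.ModEq
      rw [Nat.pow_mod]
      rcases h3 with h | h <;> rw [h]
    have h2 : B ≡ 1 [MOD 4] := by
      have h3 := h1.pow (Nat.totient a₀)
      rw [one_pow, ← pow_mul] at h3
      have h4 : 2 * (Nat.totient a₀) = t := by rw [ht]
      rwa [h4] at h3
    have := (Nat.modEq_iff_dvd).1 h2.symm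
    exact_mod_cast this
  have haB : (a₀ : ℤ) ∣ (B : ℤ) - 1 := by
    have h1 : b ^ (Nat.totient a₀) ≡ 1 [MOD a₀] := Nat.ModEq.pow_totient hcop.symm
    have h2 : B ≡ 1 [MOD a₀] := by
      have h3 := h1.pow (2 * (p - 1))
      rw [one_pow, ← pow_mul] at h3
      have h4 : Nat.totient a₀ * (2 * (p - 1)) = t := by rw [ht]; ring
      rwa [h4] at h3
    have := (Nat.modEq_iff_dvd).1 h2.symm
    exact_mod_cast this
  have hfin : FiniteMultiplicity (p : ℤ) ((B : ℤ) - 1) := by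
    rw [Int.finiteMultiplicity_iff]
    constructor
    · simp; omega
    · omega
  obtain ⟨k₁, hk₁⟩ := hfin
  refine ⟨k₁ + 1, fun N => ?_⟩
  have hpow : b ^ (t * a₀ ^ N) = B ^ (a₀ ^ N) := by rw [hB, pow_mul]
  have hB1 : (1 : ℤ) ≤ (B : ℤ) := by omega
  have hdiv : ∀ d : ℤ, d ∣ (B : ℤ) - 1 → d ∣ ((B ^ (a₀ ^ N) : ℕ) : ℤ) - 1 := by
    intro d hd
    push_cast
    have := sub_dvd_pow_sub_pow (B : ℤ) 1 (a₀ ^ N)
    rw [one_pow] at this
    exact hd.trans this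
  have hlarge : 2 ≤ B ^ (a₀ ^ N) := by
    calc 2 ≤ B := hB2
      _ = B ^ 1 := (pow_one B).symm
      _ ≤ B ^ (a₀ ^ N) := Nat.pow_le_pow_right (by omega) (Nat.pow_pos ha₀)
  have hval : ¬ (p : ℤ) ^ (k₁ + 1) ∣ ((B ^ (a₀ ^ N) : ℕ) : ℤ) - 1 := by
    push_cast
    intro h
    rw [pow_dvd_iff_le_emultiplicity, lte hp hpB h4B] at h
    have h0 : emultiplicity (p : ℤ) (((a₀ ^ N : ℕ) : ℤ)) = 0 := by
      rw [emultiplicity_eq_zero]
      intro h5
      have h6 : p ∣ a₀ ^ N := by exact_mod_cast h5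
      exact hpa (hga ▸ Dvd.dvd.mul_left (hp.dvd_of_dvd_pow h6) g)
    rw [h0, add_zero, ← pow_dvd_iff_le_emultiplicity] at h
    exact hk₁ h
  have hdvd : ((a' : ℤ) ^ N) ∣ (b : ℤ) ^ (k * N) * (((B ^ (a₀ ^ N) : ℕ) : ℤ) - 1) := by
    rw [hga]
    push_cast
    rw [mul_pow]
    refine mul_dvd_mul ?_ ?_
    · rw [pow_mul]
      refine pow_dvd_pow_of_dvd ?_ N
      exact_mod_cast hgk
    · have h1 : ((a₀ : ℤ) ^ (N + 1)) ∣ (B : ℤ) ^ (a₀ ^ N) - 1 ^ (a₀ ^ N) :=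
        dvd_sub_pow_of_dvd_sub (p := a₀) (by simpa using haB) N
      rw [one_pow] at h1
      exact (pow_dvd_pow _ (Nat.le_succ N)).trans h1
  obtain ⟨c, hc⟩ := hdvd
  have hc0 : 0 ≤ c := by
    have h1 : 0 ≤ (b : ℤ) ^ (k * N) * (((B ^ (a₀ ^ N) : ℕ) : ℤ) - 1) := by
      have : (1 : ℤ) ≤ ((B ^ (a₀ ^ N) : ℕ) : ℤ) := by exact_mod_cast (by omega : 1 ≤ B ^ (a₀ ^ N))
      exact mul_nonneg (by positivity) (by linarith)
    rw [hc] at h1
    have h2 : (0 : ℤ) < (a' : ℤ) ^ N := by positivity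
    exact nonneg_of_mul_nonneg_right h1 h2
  obtain ⟨c, rfl⟩ := Int.eq_ofNat_of_zero_le hc0
  refine ⟨k * N, t * a₀ ^ N, c, ?_, ?_, ?_, ?_, ?_⟩
  · rw [hpow]; exact hdiv _ hpB
  · intro h; rw [hpow]; exact hdiv _ (h4B h)
  · rw [hpow]; exact hlarge
  · rw [hpow]; exact hc
  · intro h
    have h1 : (p : ℤ) ^ (k₁ + 1) ∣ (b : ℤ) ^ (k * N) * (((B ^ (a₀ ^ N) : ℕ) : ℤ) - 1) := by
      rw [hc]; exact Dvd.dvd.mul_left h _
    have hcop2 : IsCoprime ((p : ℤ) ^ (k₁ + 1)) ((b : ℤ) ^ (k * N)) := by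
      refine IsCoprime.pow ?_
      rw [Nat.isCoprime_iff_coprime]
      exact (Nat.Prime.coprime_iff_not_dvd hp).2 hpb
    exact hval (hcop2.dvd_of_dvd_mul_left h1)

/-- The basic vanishing sum. -/
theorem vanish {p : ℕ} (hp : p.Prime) {a' b v k₁ N m T c : ℕ} (hpa : ¬ p ∣ a') (hv : 1 ≤ v)
    (ha' : 0 < a')
    (h1 : (p : ℤ) ∣ ((b ^ T : ℕ) : ℤ) - 1) (h2 : p = 2 → (4 : ℤ) ∣ ((b ^ T : ℕ) : ℤ) - 1)
    (h3 : 2 ≤ b ^ T) (h4 : (b : ℤ) ^ m * (((b ^ T : ℕ) : ℤ) - 1) = (a' : ℤ) ^ N * c)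
    (h5 : ¬ (p : ℤ) ^ k₁ ∣ (c : ℤ)) {l n : ℕ} {κ : ℤ} (hκ : ¬ (p : ℤ) ^ l ∣ κ)
    (hn : k₁ + l ≤ n) (hnN : n ≤ N) :
    ∑ r ∈ range (p ^ (v * N)), e ((b : ℝ) ^ (m + T * r) * (κ / ((p ^ v * a' : ℕ) : ℝ) ^ n)) = 0 := by
  have hp0 : (p : ℝ) ≠ 0 := by exact_mod_cast hp.ne_zero
  have ha0 : (a' : ℝ) ≠ 0 := by exact_mod_cast ha'.ne'
  set κ' : ℤ := (a' : ℤ) ^ (N - n) * (c * κ) with hκ'
  have hnot : ¬ (p : ℤ) ^ (v * n) ∣ κ' := by
    intro h
    have hcop : IsCoprime ((p : ℤ) ^ (v * n)) ((a' : ℤ) ^ (N - n)) := by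
      refine IsCoprime.pow ?_
      rw [Nat.isCoprime_iff_coprime]
      exact (Nat.Prime.coprime_iff_not_dvd hp).2 hpa
    have h6 := hcop.dvd_of_dvd_mul_left h
    have h7 : k₁ + l ≤ v * n := by nlinarith
    exact not_pow_dvd_mul (Nat.prime_iff_prime_int.1 hp) h5 hκ ((pow_dvd_pow _ h7).trans h6)
  have key : ∀ r ∈ range (p ^ (v * N)), e ((b : ℝ) ^ (m + T * r) * (κ / ((p ^ v * a' : ℕ) : ℝ) ^ n))
      = e ((b : ℝ) ^ m * (κ / ((p ^ v * a' : ℕ) : ℝ) ^ n)) *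
        e ((gs (b ^ T) r : ℝ) * (κ' / (p : ℝ) ^ (v * n))) := by
    intro r _
    rw [← e_add]
    congr 1
    have h8 : ((gs (b ^ T) r : ℕ) : ℝ) * (((b ^ T : ℕ) : ℝ) - 1) = ((b ^ T : ℕ) : ℝ) ^ r - 1 := by
      have := gs_mul (b ^ T) r
      exact_mod_cast this
    have h9 : (b : ℝ) ^ m * (((b ^ T : ℕ) : ℝ) - 1) = (a' : ℝ) ^ N * c := by exact_mod_cast h4
    have h10 : (b : ℝ) ^ (m + T * r) = (b : ℝ) ^ m + (gs (b ^ T) r : ℝ) * ((a' : ℝ) ^ N * c) := by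
      rw [← h9]
      have : (gs (b ^ T) r : ℝ) * ((b : ℝ) ^ m * (((b ^ T : ℕ) : ℝ) - 1)) =
          (b : ℝ) ^ m * (((b ^ T : ℕ) : ℝ) ^ r - 1) := by rw [← h8]; ring
      rw [this, pow_add, pow_mul]
      push_cast
      ring
    rw [h10, add_mul]
    congr 1
    have h11 : (a' : ℝ) ^ N = (a' : ℝ) ^ (N - n) * (a' : ℝ) ^ n := by
      rw [← pow_add, Nat.sub_add_cancel hnN]
    rw [hκ', h11]
    push_cast
    rw [mul_pow, pow_mul]
    field_simp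
  rw [Finset.sum_congr rfl key, ← Finset.mul_sum,
    sum_gs hp h3 h1 h2 (Nat.mul_le_mul_left v hnN) hnot, mul_zero]

end Pool.Agent.N440.FO
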