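import Pool.Agent.N440.FO.Arith

/-! # More parameters: multiplicatively independent bases -/

set_option autoImplicit false

open Finset

namespace Pool.Agent.N440.FO

/-- The parameters: `b ^ m (b ^ T - 1)` is divisible by `a' ^ N`, and the exponent of `p` in it is
bounded independently of `N`. -/
theorem params2 {p : ℕ} (hp : p.Prime) {b a' : ℕ} (hb : 2 ≤ b) (hpb : ¬ p ∣ b) (ha' : 0 < a')
    (hpa : ¬ p ∣ a') :
    ∃ k₁ C : ℕ, ∀ N : ℕ, ∃ m T c : ℕ, (p : ℤ) ∣ ((b ^ T : ℕ) : ℤ) - 1 ∧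
      (p = 2 → (4 : ℤ) ∣ ((b ^ T : ℕ) : ℤ) - 1) ∧ 2 ≤ b ^ T ∧
      (b : ℤ) ^ m * (((b ^ T : ℕ) : ℤ) - 1) = (a' : ℤ) ^ N * c ∧ ¬ (p : ℤ) ^ k₁ ∣ (c : ℤ) ∧
      m ≤ C * N ∧ T ≤ C * a' ^ N ∧ 0 < T := by
  obtain ⟨g, a₀, k, hga, hcop, hgk⟩ := decomp b a' ha'
  have ha₀ : 0 < a₀ := by
    rcases Nat.eq_zero_or_pos a₀ with h | h
    · rw [h, mul_zero] at hga; omega
    · exact h
  have hφ : 0 < Nat.totient a₀ := Nat.totient_pos.2 ha₀
  have hp2 := hp.two_le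
  set t : ℕ := 2 * (p - 1) * Nat.totient a₀ with ht
  have ht0 : 2 ≤ t := by
    have : 1 ≤ (p - 1) * Nat.totient a₀ := Nat.mul_pos (by omega) hφ
    rw [ht, mul_assoc]; omega
  set B : ℕ := b ^ t with hB
  have hB2 : 2 ≤ B := by
    calc 2 ≤ b := hb
      _ = b ^ 1 := (pow_one b).symm
      _ ≤ b ^ t := Nat.pow_le_pow_right (by omega) (by omega)
  have hpB : (p : ℤ) ∣ (B : ℤ) - 1 := by
    have h1 : b ^ (p - 1) ≡ 1 [MOD p] := by
      have := Nat.ModEq.pow_totient (n := p) (x := b)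
        ((Nat.coprime_comm.1 ((Nat.Prime.coprime_iff_not_dvd hp).2 hpb)))
      rwa [Nat.totient_prime hp] at this
    have h2 : B ≡ 1 [MOD p] := by
      have h3 := h1.pow (2 * Nat.totient a₀)
      rw [one_pow, ← pow_mul] at h3
      have h4 : (p - 1) * (2 * Nat.totient a₀) = t := by rw [ht]; ring
      rwa [h4] at h3
    have := (Nat.modEq_iff_dvd).1 h2.symm
    exact_mod_cast this
  have h4B : p = 2 → (4 : ℤ) ∣ (B : ℤ) - 1 := by
    intro h2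
    subst h2
    have hodd : b % 2 = 1 := by omega
    have h1 : b ^ 2 ≡ 1 [MOD 4] := by
      have h3 : b % 4 = 1 ∨ b % 4 = 3 := by omega
      unfold Nat.ModEq
      rw [Nat.pow_mod]
      rcases h3 with h | h <;> rw [h]
    have h2 : B ≡ 1 [MOD 4] := by
      have h3 := h1.pow (Nat.totient a₀)
      rw [one_pow, ← pow_mul] at h3
      have h4 : 2 * (Nat.totient a₀) = t := by rw [ht]
      rwa [h4] at h3
    have := (Nat.modEq_iff_dvd).1 h2.symm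
    exact_mod_cast this
  have haB : (a₀ : ℤ) ∣ (B : ℤ) - 1 := by
    have h1 : b ^ (Nat.totient a₀) ≡ 1 [MOD a₀] := Nat.ModEq.pow_totient hcop.symm
    have h2 : B ≡ 1 [MOD a₀] := by
      have h3 := h1.pow (2 * (p - 1))
      rw [one_pow, ← pow_mul] at h3
      have h4 : Nat.totient a₀ * (2 * (p - 1)) = t := by rw [ht]; ring
      rwa [h4] at h3
    have := (Nat.modEq_iff_dvd).1 h2.symm
    exact_mod_cast this
  have hfin : FiniteMultiplicity (p : ℤ) ((B : ℤ) - 1) := by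
    rw [Int.finiteMultiplicity_iff]
    constructor
    · simp; omega
    · omega
  obtain ⟨k₁, hk₁⟩ := hfin
  refine ⟨k₁ + 1, k + t, fun N => ?_⟩
  have hpow : b ^ (t * a₀ ^ N) = B ^ (a₀ ^ N) := by rw [hB, pow_mul]
  have hB1 : (1 : ℤ) ≤ (B : ℤ) := by omega
  have hdiv : ∀ d : ℤ, d ∣ (B : ℤ) - 1 → d ∣ ((B ^ (a₀ ^ N) : ℕ) : ℤ) - 1 := by
    intro d hd
    push_cast
    have := sub_dvd_pow_sub_pow (B : ℤ) 1 (a₀ ^ N)
    rw [one_pow] at this
    exact hd.trans this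
  have hlarge : 2 ≤ B ^ (a₀ ^ N) := by
    calc 2 ≤ B := hB2
      _ = B ^ 1 := (pow_one B).symm
      _ ≤ B ^ (a₀ ^ N) := Nat.pow_le_pow_right (by omega) (Nat.pow_pos ha₀)
  have hval : ¬ (p : ℤ) ^ (k₁ + 1) ∣ ((B ^ (a₀ ^ N) : ℕ) : ℤ) - 1 := by
    push_cast
    intro h
    rw [pow_dvd_iff_le_emultiplicity, lte hp hpB h4B] at h
    have h0 : emultiplicity (p : ℤ) (((a₀ ^ N : ℕ) : ℤ)) = 0 := by
      rw [emultiplicity_eq_zero]
      intro h5
      have h6 : p ∣ a₀ ^ N := by exact_mod_cast h5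
      exact hpa (hga ▸ Dvd.dvd.mul_left (hp.dvd_of_dvd_pow h6) g)
    rw [h0, add_zero, ← pow_dvd_iff_le_emultiplicity] at h
    exact hk₁ h
  have hdvd : ((a' : ℤ) ^ N) ∣ (b : ℤ) ^ (k * N) * (((B ^ (a₀ ^ N) : ℕ) : ℤ) - 1) := by
    rw [hga]
    push_cast
    rw [mul_pow]
    refine mul_dvd_mul ?_ ?_
    · rw [pow_mul]
      refine pow_dvd_pow_of_dvd ?_ N
      exact_mod_cast hgk
    · have h1 : ((a₀ : ℤ) ^ (N + 1)) ∣ (B : ℤ) ^ (a₀ ^ N) - 1 ^ (a₀ ^ N) :=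
        dvd_sub_pow_of_dvd_sub (p := a₀) (by simpa using haB) N
      rw [one_pow] at h1
      exact (pow_dvd_pow _ (Nat.le_succ N)).trans h1
  obtain ⟨c, hc⟩ := hdvd
  have hc0 : 0 ≤ c := by
    have h1 : 0 ≤ (b : ℤ) ^ (k * N) * (((B ^ (a₀ ^ N) : ℕ) : ℤ) - 1) := by
      have : (1 : ℤ) ≤ ((B ^ (a₀ ^ N) : ℕ) : ℤ) := by exact_mod_cast (by omega : 1 ≤ B ^ (a₀ ^ N))
      exact mul_nonneg (by positivity) (by linarith)
    rw [hc] at h1
    have h2 : (0 : ℤ) < (a' : ℤ) ^ N := by positivity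
    exact nonneg_of_mul_nonneg_right h1 h2
  obtain ⟨c, rfl⟩ := Int.eq_ofNat_of_zero_le hc0
  refine ⟨k * N, t * a₀ ^ N, c, ?_, ?_, ?_, ?_, ?_, ?_, ?_, ?_⟩
  · rw [hpow]; exact hdiv _ hpB
  · intro h; rw [hpow]; exact hdiv _ (h4B h)
  · rw [hpow]; exact hlarge
  · rw [hpow]; exact hc
  · intro h
    have h1 : (p : ℤ) ^ (k₁ + 1) ∣ (b : ℤ) ^ (k * N) * (((B ^ (a₀ ^ N) : ℕ) : ℤ) - 1) := by
      rw [hc]; exact Dvd.dvd.mul_left h _
    have hcop2 : IsCoprime ((p : ℤ) ^ (k₁ + 1)) ((b : ℤ) ^ (k * N)) := by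
      refine IsCoprime.pow ?_
      rw [Nat.isCoprime_iff_coprime]
      exact (Nat.Prime.coprime_iff_not_dvd hp).2 hpb
    exact hval (hcop2.dvd_of_dvd_mul_left h1)
  · exact Nat.mul_le_mul_right N (Nat.le_add_right k t)
  · have h1 : a₀ ≤ a' := by
      rw [hga]
      refine Nat.le_mul_of_pos_left a₀ ?_
      rcases Nat.eq_zero_or_pos g with h | h
      · rw [h, zero_mul] at hga; omega
      · exact h
    exact Nat.mul_le_mul (Nat.le_add_left t k) (Nat.pow_le_pow_left h1 N)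
  · exact Nat.mul_pos (by omega) (Nat.pow_pos ha₀)


/-- multiplying `T` by `Q` and enlarging `m` -/
theorem stretch {p : ℕ} (hp : p.Prime) {g a' : ℕ} (hg : 2 ≤ g) (hpg : ¬ p ∣ g) {k₁ N m T c : ℕ}
    (h1 : (p : ℤ) ∣ ((g ^ T : ℕ) : ℤ) - 1) (h2 : p = 2 → (4 : ℤ) ∣ ((g ^ T : ℕ) : ℤ) - 1)
    (h3 : 2 ≤ g ^ T) (h4 : (g : ℤ) ^ m * (((g ^ T : ℕ) : ℤ) - 1) = (a' : ℤ) ^ N * c)
    (h5 : ¬ (p : ℤ) ^ k₁ ∣ (c : ℤ)) {Q m' : ℕ} (hQ : 0 < Q) (hm' : m ≤ m') :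
    ∃ c' : ℕ, (p : ℤ) ∣ ((g ^ (T * Q) : ℕ) : ℤ) - 1 ∧
      (p = 2 → (4 : ℤ) ∣ ((g ^ (T * Q) : ℕ) : ℤ) - 1) ∧ 2 ≤ g ^ (T * Q) ∧
      (g : ℤ) ^ m' * (((g ^ (T * Q) : ℕ) : ℤ) - 1) = (a' : ℤ) ^ N * c' ∧
      ¬ (p : ℤ) ^ (k₁ + Q) ∣ (c' : ℤ) := by
  have hd : ((g ^ (T * Q) : ℕ) : ℤ) - 1 = (gs (g ^ T) Q : ℕ) * (((g ^ T : ℕ) : ℤ) - 1) := by
    rw [gs_mul]
    push_cast
    rw [pow_mul]
  refine ⟨c * gs (g ^ T) Q * g ^ (m' - m), ?_, ?_, ?_, ?_, ?_⟩
  · rw [hd]; exact Dvd.dvd.mul_left h1 _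
  · intro h; rw [hd]; exact Dvd.dvd.mul_left (h2 h) _
  · calc 2 ≤ g ^ T := h3
      _ ≤ g ^ (T * Q) := Nat.pow_le_pow_right (by omega) (Nat.le_mul_of_pos_right T hQ)
  · rw [hd]
    have h6 : (g : ℤ) ^ m' = (g : ℤ) ^ (m' - m) * (g : ℤ) ^ m := by
      rw [← pow_add]; congr 1; omega
    rw [h6]
    push_cast
    calc (g : ℤ) ^ (m' - m) * (g : ℤ) ^ m * ((gs (g ^ T) Q : ℤ) * ((g : ℤ) ^ T - 1))
        = (g : ℤ) ^ (m' - m) * (gs (g ^ T) Q : ℤ) *
          ((g : ℤ) ^ m * (((g ^ T : ℕ) : ℤ) - 1)) := by push_cast; ring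
      _ = _ := by rw [h4]; ring
  · intro h
    push_cast at h
    have hcop : IsCoprime ((p : ℤ) ^ (k₁ + Q)) ((g : ℤ) ^ (m' - m)) := by
      refine IsCoprime.pow ?_
      rw [Nat.isCoprime_iff_coprime]
      exact (Nat.Prime.coprime_iff_not_dvd hp).2 hpg
    have h6 := hcop.dvd_of_dvd_mul_right h
    refine not_pow_dvd_mul (Nat.prime_iff_prime_int.1 hp) h5 ?_ h6
    intro h7
    rw [pow_dvd_iff_le_emultiplicity, emult_gs hp h3 h1 h2, ← pow_dvd_iff_le_emultiplicity] at h7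
    have h8 : p ^ Q ∣ Q := by exact_mod_cast h7
    have h9 := Nat.le_of_dvd hQ h8
    have h10 : Q < p ^ Q := Nat.lt_pow_self hp.one_lt
    omega

/-- Multiplicatively independent bases, all prime factors of `a` dividing `b`. -/
theorem exists_g {a b : ℕ} (ha : 2 ≤ a) (hb : 2 ≤ b)
    (hab : ∀ k l : ℕ, 0 < k → 0 < l → a ^ k ≠ b ^ l) (hdiv : ∀ p : ℕ, p.Prime → p ∣ a → p ∣ b) :
    ∃ p α β g : ℕ, p.Prime ∧ p ∣ a ∧ 0 < α ∧ 0 < β ∧ 2 ≤ g ∧ ¬ p ∣ g ∧ b ^ α = a ^ β * g := by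
  have hne : a.primeFactors.Nonempty := by
    rw [Nat.nonempty_primeFactors]; omega
  obtain ⟨p, hpm, hmax⟩ := Finset.exists_max_image a.primeFactors
    (fun p => (a.factorization p : ℚ) / b.factorization p) hne
  have hp : p.Prime := Nat.prime_of_mem_primeFactors hpm
  have hpa : p ∣ a := Nat.dvd_of_mem_primeFactors hpm
  have hbpos : ∀ q ∈ a.primeFactors, 0 < b.factorization q := by
    intro q hq
    have hq1 := Nat.prime_of_mem_primeFactors hq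
    exact hq1.factorization_pos_of_dvd (by omega) (hdiv q hq1 (Nat.dvd_of_mem_primeFactors hq))
  set α := a.factorization p with hα
  set β := b.factorization p with hβ
  have hα0 : 0 < α := hp.factorization_pos_of_dvd (by omega) hpa
  have hβ0 : 0 < β := hbpos p hpm
  have hdvd : a ^ β ∣ b ^ α := by
    rw [← Nat.factorization_le_iff_dvd (pow_ne_zero _ (by omega)) (pow_ne_zero _ (by omega))]
    intro q
    simp only [Nat.factorization_pow, Finsupp.smul_apply, smul_eq_mul]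
    by_cases hq : q ∈ a.primeFactors
    · have h1 := hmax q hq
      have h2 : (0 : ℚ) < b.factorization q := by exact_mod_cast hbpos q hq
      have h3 : (0 : ℚ) < β := by exact_mod_cast hβ0
      rw [div_le_div_iff₀ h2 h3] at h1
      have h4 : a.factorization q * β ≤ α * b.factorization q := by exact_mod_cast h1
      calc β * a.factorization q = a.factorization q * β := mul_comm _ _
        _ ≤ _ := h4
    · have : a.factorization q = 0 := by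
        rw [← Finsupp.notMem_support_iff, Nat.support_factorization]; exact hq
      rw [this, mul_zero]
      exact Nat.zero_le _
  obtain ⟨g, hg⟩ := hdvd
  have hg0 : g ≠ 0 := by
    rintro rfl
    rw [mul_zero] at hg
    have : 0 < b ^ α := Nat.pow_pos (by omega)
    omega
  have hg1 : g ≠ 1 := by
    rintro rfl
    rw [mul_one] at hg
    exact hab β α hβ0 hα0 hg.symm
  refine ⟨p, α, β, g, hp, hpa, hα0, hβ0, by omega, ?_, hg⟩
  intro hpg
  have h1 : (b ^ α).factorization p = (a ^ β * g).factorization p := by rw [hg]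
  rw [Nat.factorization_mul (pow_ne_zero _ (by omega)) hg0] at h1
  simp only [Nat.factorization_pow, Finsupp.smul_apply, smul_eq_mul, Finsupp.add_apply] at h1
  have h2 : 0 < g.factorization p := hp.factorization_pos_of_dvd hg0 hpg
  rw [← hα, ← hβ, mul_comm] at h1
  omega

end Pool.Agent.N440.FO
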