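import Pool.Agent.N440.FO.Arith

/-! # The collision estimate -/

set_option autoImplicit false

open Finset

namespace Pool.Agent.N440.FO

/-- a combination of well separated powers of `1 / a` with small coefficients is a fraction whose
numerator is not divisible by a fixed power of `p` -/
theorem comb {p a l : ℕ} (hpa : p ∣ a) (ha : 0 < a) {A : Finset ℕ}
    (hA : ∀ i ∈ A, ∀ j ∈ A, i < j → i + l ≤ j) {δ : ℕ → ℤ} {D h : ℤ}
    (hD : ∀ i ∈ A, |δ i| ≤ D) (hδ : ∃ i ∈ A, δ i ≠ 0) (hh : h ≠ 0) (hl : |h| * D < (p : ℤ) ^ l) :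
    ∃ n ∈ A, ∃ κ : ℤ, ¬ (p : ℤ) ^ l ∣ κ ∧
      (h : ℝ) * ∑ i ∈ A, (δ i : ℝ) / (a : ℝ) ^ (i + 1) = κ / (a : ℝ) ^ (n + 1) := by
  classical
  have ha0 : (a : ℝ) ≠ 0 := by exact_mod_cast ha.ne'
  set F := A.filter (fun i => δ i ≠ 0) with hF
  have hFne : F.Nonempty := by
    obtain ⟨i, hi, hi'⟩ := hδ
    exact ⟨i, Finset.mem_filter.2 ⟨hi, hi'⟩⟩
  set n := F.max' hFne with hn
  have hnF : n ∈ F := F.max'_mem hFne
  have hnA : n ∈ A := (Finset.mem_filter.1 hnF).1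
  have hn0 : δ n ≠ 0 := (Finset.mem_filter.1 hnF).2
  have hmax : ∀ i ∈ F, i ≤ n := fun i hi => F.le_max' i hi
  refine ⟨n, hnA, h * ∑ i ∈ F, δ i * (a : ℤ) ^ (n - i), ?_, ?_⟩
  · intro hdvd
    rw [← Finset.add_sum_erase F _ hnF, Nat.sub_self, pow_zero, mul_one, mul_add] at hdvd
    have h1 : (p : ℤ) ^ l ∣ h * ∑ i ∈ F.erase n, δ i * (a : ℤ) ^ (n - i) := by
      refine Dvd.dvd.mul_left ?_ h
      refine Finset.dvd_sum fun i hi => ?_
      have hi1 := (Finset.mem_erase.1 hi)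
      have hi2 : i < n := lt_of_le_of_ne (hmax i hi1.2) hi1.1
      have h3 := hA i (Finset.mem_filter.1 hi1.2).1 n hnA hi2
      refine Dvd.dvd.mul_left ?_ _
      calc (p : ℤ) ^ l ∣ (a : ℤ) ^ l := pow_dvd_pow_of_dvd (by exact_mod_cast hpa) l
        _ ∣ (a : ℤ) ^ (n - i) := pow_dvd_pow _ (by omega)
    have h2 : (p : ℤ) ^ l ∣ h * δ n := (dvd_add_left h1).1 hdvd
    have h3 : |h * δ n| < (p : ℤ) ^ l := by
      rw [abs_mul]
      exact lt_of_le_of_lt (mul_le_mul_of_nonneg_left (hD n hnA) (abs_nonneg h)) hl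
    have h4 := Int.eq_zero_of_abs_lt_dvd h2 h3
    rcases mul_eq_zero.1 h4 with h5 | h5
    · exact hh h5
    · exact hn0 h5
  · have h1 : ∑ i ∈ A, (δ i : ℝ) / (a : ℝ) ^ (i + 1) = ∑ i ∈ F, (δ i : ℝ) / (a : ℝ) ^ (i + 1) := by
      rw [hF]
      refine (Finset.sum_filter_of_ne ?_).symm
      intro i _ hi h0
      apply hi
      rw [h0]; simp
    rw [h1]
    push_cast
    rw [mul_div_assoc, Finset.sum_div]
    congr 1
    refine Finset.sum_congr rfl fun i hi => ?_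
    have h2 : i ≤ n := hmax i hi
    have h3 : (a : ℝ) ^ (n + 1) = (a : ℝ) ^ (n - i) * (a : ℝ) ^ (i + 1) := by
      rw [← pow_add]; congr 1; omega
    rw [h3]
    field_simp

theorem e_sub_mul (s t y : ℝ) : e ((s - t) * y) = e (s * y) * (starRingEnd ℂ) (e (t * y)) := by
  rw [← e_neg, ← e_add]; congr 1; ring

theorem e_mul_sub (θ x y : ℝ) : e (θ * (x - y)) = e (θ * x) * (starRingEnd ℂ) (e (θ * y)) := by
  rw [← e_neg, ← e_add]; congr 1; ring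

theorem second_moment {ι : Type*} (s : Finset ι) (w : ι → ℝ) (X : ι → ℝ) (R : ℕ)
    (t : ℕ → ℝ) (h : ∀ d ∈ s, ∀ d' ∈ s, d ≠ d' →
      ∑ r ∈ range R, e (t r * (X d - X d')) = 0) :
    ∑ r ∈ range R, ∑ r' ∈ range R, ‖∑ d ∈ s, (w d : ℂ) * e ((t r - t r') * X d)‖ ^ 2 =
      (R : ℝ) ^ 2 * ∑ d ∈ s, w d ^ 2 := by
  classical
  have key : ∀ θ : ℝ, ((‖∑ d ∈ s, (w d : ℂ) * e (θ * X d)‖ ^ 2 : ℝ) : ℂ) =
      ∑ d ∈ s, ∑ d' ∈ s, (w d * w d' : ℂ) * e (θ * (X d - X d')) := by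
    intro θ
    rw [Complex.ofReal_pow, ← Complex.mul_conj', map_sum, Finset.sum_mul_sum]
    refine Finset.sum_congr rfl fun d _ => Finset.sum_congr rfl fun d' _ => ?_
    rw [e_mul_sub, map_mul, Complex.conj_ofReal]
    ring
  have h1 : ((∑ r ∈ range R, ∑ r' ∈ range R, ‖∑ d ∈ s, (w d : ℂ) * e ((t r - t r') * X d)‖ ^ 2 : ℝ)
      : ℂ) = (((R : ℝ) ^ 2 * ∑ d ∈ s, w d ^ 2 : ℝ) : ℂ) := by
    rw [Complex.ofReal_sum]
    have h2 : ∀ r ∈ range R, ((∑ r' ∈ range R, ‖∑ d ∈ s, (w d : ℂ) * e ((t r - t r') * X d)‖ ^ 2 : ℝ)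
        : ℂ) = ∑ d ∈ s, ∑ d' ∈ s, ∑ r' ∈ range R, (w d * w d' : ℂ) *
          (e (t r * (X d - X d')) * (starRingEnd ℂ) (e (t r' * (X d - X d')))) := by
      intro r _
      rw [Complex.ofReal_sum]
      simp_rw [key]
      rw [Finset.sum_comm]
      refine Finset.sum_congr rfl fun d _ => ?_
      rw [Finset.sum_comm]
      refine Finset.sum_congr rfl fun d' _ => Finset.sum_congr rfl fun r' _ => ?_
      rw [e_sub_mul]
    rw [Finset.sum_congr rfl h2, Finset.sum_comm]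
    have h3 : ∀ d ∈ s, ∑ r ∈ range R, ∑ d' ∈ s, ∑ r' ∈ range R, (w d * w d' : ℂ) *
          (e (t r * (X d - X d')) * (starRingEnd ℂ) (e (t r' * (X d - X d')))) =
          (R : ℂ) ^ 2 * (w d : ℂ) ^ 2 := by
      intro d hd
      rw [Finset.sum_comm]
      rw [Finset.sum_eq_single d]
      · simp only [sub_self, mul_zero, e_zero, map_one, mul_one, Finset.sum_const, card_range,
          nsmul_eq_mul]
        ring
      · intro d' hd' hne
        simp_rw [← Finset.mul_sum]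
        rw [← Finset.sum_mul, h d hd d' hd' hne.symm]
        ring
      · intro h; exact absurd hd h
    rw [Finset.sum_congr rfl h3, ← Finset.mul_sum]
    push_cast
    ring
  exact_mod_cast h1

theorem first_moment {ι : Type*} (s : Finset ι) (w : ι → ℝ) (X : ι → ℝ) (R : ℕ)
    (t : ℕ → ℝ) (h : ∀ d ∈ s, ∀ d' ∈ s, d ≠ d' →
      ∑ r ∈ range R, e (t r * (X d - X d')) = 0) {η : ℝ} (hη0 : 0 ≤ η)
    (hη : ∑ d ∈ s, w d ^ 2 ≤ η ^ 2) :
    ∑ r ∈ range R, ∑ r' ∈ range R, ‖∑ d ∈ s, (w d : ℂ) * e ((t r - t r') * X d)‖ ≤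
      (R : ℝ) ^ 2 * η := by
  have h1 := second_moment s w X R t h
  rw [← Finset.sum_product'] at h1 ⊢
  have h2 := sq_sum_le_card_mul_sum_sq (s := range R ×ˢ range R)
    (f := fun x : ℕ × ℕ => ‖∑ d ∈ s, (w d : ℂ) * e ((t x.1 - t x.2) * X d)‖)
  rw [h1] at h2
  have h3 : ((range R ×ˢ range R).card : ℝ) = (R : ℝ) ^ 2 := by
    rw [Finset.card_product, card_range]; push_cast; ring
  rw [h3] at h2
  refine abs_le_of_sq_le_sq' ?_ (by positivity) |>.2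
  calc _ ≤ _ := h2
    _ ≤ (R : ℝ) ^ 2 * ((R : ℝ) ^ 2 * η ^ 2) := by gcongr
    _ = ((R : ℝ) ^ 2 * η) ^ 2 := by ring

end Pool.Agent.N440.FO
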