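import Pool.Agent.N440.FO.Visit2

/-! # Sparse digits: countable orbit closures -/

set_option autoImplicit false

open Finset MeasureTheory ProbabilityTheory Filter Topology
open Pool.Agent.H1R3.Det (Circ)

namespace Pool.Agent.N440.FO

theorem coe_int_zero (n : ℤ) : (((n : ℤ) : ℝ) : Circ) = 0 := by
  rw [AddCircle.coe_eq_zero_iff]
  exact ⟨n, by simp⟩

/-- the limit points of an orbit with sparse digits -/
theorem countable_closed (a : ℕ) (ha : 2 ≤ a) (M : ℤ) :
    ∃ C : Set ℝ, IsCompact C ∧ C.Countable ∧ (0 : ℝ) ∈ C ∧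
      ∀ (u : ℤ) (j : ℕ), |u| ≤ M → (u : ℝ) / (a : ℝ) ^ (j + 1) ∈ C := by
  have ha1 : (1 : ℝ) < a := by exact_mod_cast (by omega : 1 < a)
  set K₁ : Set ℝ := (fun u : ℤ => (u : ℝ)) '' (Set.Icc (-M) M) with hK₁
  set K₂ : Set ℝ := insert 0 (Set.range fun j : ℕ => (1 / (a : ℝ)) ^ (j + 1)) with hK₂
  have h1 : IsCompact K₁ := ((Set.finite_Icc (-M) M).image _).isCompact
  have h2 : IsCompact K₂ := by
    refine Filter.Tendsto.isCompact_insert_range ?_
    refine (tendsto_pow_atTop_nhds_zero_of_lt_one (by positivity) ?_).comp (tendsto_add_atTop_nat 1)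
    rw [div_lt_one (by linarith)]; exact ha1
  refine ⟨insert 0 ((fun z : ℝ × ℝ => z.1 * z.2) '' (K₁ ×ˢ K₂)), ?_, ?_, Set.mem_insert _ _, ?_⟩
  · exact ((h1.prod h2).image (by fun_prop)).insert 0
  · refine Set.Countable.insert _ (Set.Countable.image (Set.Countable.prod ?_ ?_) _)
    · exact ((Set.finite_Icc (-M) M).image _).countable
    · exact (Set.countable_range _).insert _
  · intro u j hu
    refine Set.mem_insert_of_mem _ ⟨((u : ℝ), (1 / (a : ℝ)) ^ (j + 1)), ⟨⟨u, ?_, rfl⟩, ?_⟩, ?_⟩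
    · exact abs_le.1 hu
    · exact Set.mem_insert_of_mem _ ⟨j, rfl⟩
    · simp only
      rw [one_div, inv_pow, div_eq_mul_inv]

/-- The closure of the orbit of a number with sparse digits is countable. -/
theorem countable_orbit {a : ℕ} (ha : 2 ≤ a) {ε : ℕ → ℤ} {M : ℤ} (hM : ∀ n, |ε n| ≤ M)
    (hsp : ∀ L : ℕ, ∃ N : ℕ, ∀ m n : ℕ, N ≤ m → m < n → ε m ≠ 0 → ε n ≠ 0 → m + L ≤ n) :
    (closure (Set.range fun k : ℕ => a ^ k • ((∑' n, (ε n : ℝ) / (a : ℝ) ^ (n + 1) : ℝ) : Circ))).Countable := by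
  classical
  have ha1 : (1 : ℝ) < a := by exact_mod_cast (by omega : 1 < a)
  have ha0 : (0 : ℝ) < a := by linarith
  obtain ⟨C', hC'c, hC'count, h0, hu⟩ := countable_closed a ha M
  set x : ℝ := ∑' n, (ε n : ℝ) / (a : ℝ) ^ (n + 1) with hx
  set z : ℕ → Circ := fun k => a ^ k • (x : Circ) with hz
  set C : Set Circ := (fun t : ℝ => (t : Circ)) '' C' with hC
  have hCcl : IsClosed C := (hC'c.image (AddCircle.continuous_mk' 1)).isClosed
  have hCcount : C.Countable := hC'count.image _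
  -- the distance to the countable set
  have hdist : ∀ L : ℕ, ∃ N : ℕ, ∀ k, N ≤ k → ∃ t ∈ C, dist (z k) t ≤ M / (a : ℝ) ^ L := by
    intro L
    obtain ⟨N, hN⟩ := hsp L
    refine ⟨N, fun k hk => ?_⟩
    set η : ℕ → ℤ := fun i => ε (i + k) with hη
    have hηM : ∀ i, |η i| ≤ M := fun i => hM _
    -- the tail
    have hsum := summable_digits ha hM
    have hsumη := summable_digits ha hηM
    have hzk : z k = ((∑' i, (η i : ℝ) / (a : ℝ) ^ (i + 1) : ℝ) : Circ) := by
      have h1 : (a : ℝ) ^ k * x = ((∑ i ∈ range k, ε i * (a : ℤ) ^ (k - 1 - i) : ℤ) : ℝ) +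
          ∑' i, (η i : ℝ) / (a : ℝ) ^ (i + 1) := by
        rw [hx, ← hsum.sum_add_tsum_nat_add k, mul_add]
        congr 1
        · push_cast
          rw [Finset.mul_sum]
          refine Finset.sum_congr rfl fun i hi => ?_
          rw [Finset.mem_range] at hi
          have e1 : (a : ℝ) ^ k = (a : ℝ) ^ (k - 1 - i) * (a : ℝ) ^ (i + 1) := by
            rw [← pow_add]; congr 1; omega
          rw [e1]
          field_simp
        · rw [← tsum_mul_left]
          refine tsum_congr fun i => ?_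
          have e1 : (a : ℝ) ^ (i + k + 1) = (a : ℝ) ^ k * (a : ℝ) ^ (i + 1) := by
            rw [← pow_add]; congr 1; ring
          rw [e1]
          field_simp
          rfl
      have h2 : z k = (((a : ℝ) ^ k * x : ℝ) : Circ) := by
        show a ^ k • (x : Circ) = _
        rw [← AddCircle.coe_nsmul, nsmul_eq_mul]
        push_cast
        rfl
      rw [h2, h1]
      have h3 : (((∑ i ∈ range k, ε i * (a : ℤ) ^ (k - 1 - i) : ℤ) : ℝ) : Circ) = 0 :=
        coe_int_zero _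
      rw [AddCircle.coe_add, h3, zero_add]
    -- the first digits
    have hfirst : ∑ i ∈ range L, (η i : ℝ) / (a : ℝ) ^ (i + 1) ∈ C' := by
      by_cases hex : ∃ i ∈ range L, η i ≠ 0
      · obtain ⟨i, hi, hi0⟩ := hex
        have : ∑ i ∈ range L, (η i : ℝ) / (a : ℝ) ^ (i + 1) = (η i : ℝ) / (a : ℝ) ^ (i + 1) := by
          refine Finset.sum_eq_single i ?_ (fun h => absurd hi h)
          intro j hj hji
          have : η j = 0 := by
            by_contra hj0
            rw [Finset.mem_range] at hi hj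
            rcases lt_or_gt_of_ne hji with h | h
            · have := hN (j + k) (i + k) (by omega) (by omega) hj0 hi0
              omega
            · have := hN (i + k) (j + k) (by omega) (by omega) hi0 hj0
              omega
          rw [this]; simp
        rw [this]
        exact hu _ _ (hηM i)
      · push Not at hex
        have : ∑ i ∈ range L, (η i : ℝ) / (a : ℝ) ^ (i + 1) = 0 :=
          Finset.sum_eq_zero fun i hi => by rw [hex i hi]; simp
        rw [this]; exact h0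
    refine ⟨_, ⟨_, hfirst, rfl⟩, ?_⟩
    rw [hzk, ← hsumη.sum_add_tsum_nat_add L, dist_eq_norm]
    have h4 : (((∑ i ∈ range L, (η i : ℝ) / (a : ℝ) ^ (i + 1) +
        ∑' i, (η (i + L) : ℝ) / (a : ℝ) ^ (i + L + 1) : ℝ)) : Circ) -
        ((∑ i ∈ range L, (η i : ℝ) / (a : ℝ) ^ (i + 1) : ℝ) : Circ) =
        ((∑' i, (η (i + L) : ℝ) / (a : ℝ) ^ (i + L + 1) : ℝ) : Circ) := by
      rw [AddCircle.coe_add]; abel
    rw [h4]
    have h5 : ‖((∑' i, (η (i + L) : ℝ) / (a : ℝ) ^ (i + L + 1) : ℝ) : Circ)‖ ≤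
        ‖(∑' i, (η (i + L) : ℝ) / (a : ℝ) ^ (i + L + 1) : ℝ)‖ := QuotientAddGroup.norm_mk_le_norm
    refine h5.trans ?_
    have hgs : HasSum (fun i : ℕ => (M : ℝ) / (a : ℝ) ^ (L + 1) * (1 / (a : ℝ)) ^ i)
        ((M : ℝ) / (a : ℝ) ^ (L + 1) * (1 - 1 / (a : ℝ))⁻¹) :=
      (hasSum_geometric_of_lt_one (by positivity) ((div_lt_one ha0).2 ha1)).mul_left _
    have h6 : ‖(∑' i, (η (i + L) : ℝ) / (a : ℝ) ^ (i + L + 1) : ℝ)‖ ≤
        (M : ℝ) / (a : ℝ) ^ (L + 1) * (1 - 1 / (a : ℝ))⁻¹ := by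
      refine tsum_of_norm_bounded hgs fun i => ?_
      rw [norm_div, norm_pow, Real.norm_of_nonneg ha0.le, Real.norm_eq_abs]
      have e1 : (a : ℝ) ^ (i + L + 1) = (a : ℝ) ^ (L + 1) * (a : ℝ) ^ i := by
        rw [← pow_add]; congr 1; ring
      rw [e1, one_div, inv_pow, ← div_eq_mul_inv, div_div]
      gcongr
      exact_mod_cast hηM (i + L)
    refine h6.trans ?_
    have hM0 : (0 : ℝ) ≤ M := by
      have := (abs_nonneg _).trans (hM 0)
      exact_mod_cast this
    have h7 : (1 - 1 / (a : ℝ))⁻¹ ≤ a := by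
      have h8 : (1 - 1 / (a : ℝ)) = (a - 1) / a := by field_simp
      rw [h8, inv_div, div_le_iff₀ (by linarith)]
      have h9 : (2 : ℝ) ≤ a := by exact_mod_cast ha
      nlinarith
    calc (M : ℝ) / (a : ℝ) ^ (L + 1) * (1 - 1 / (a : ℝ))⁻¹
        ≤ (M : ℝ) / (a : ℝ) ^ (L + 1) * a := by gcongr
      _ = (M : ℝ) / (a : ℝ) ^ L := by rw [pow_succ]; field_simp
  -- the closure
  have hsub : closure (Set.range z) ⊆ Set.range z ∪ C := by
    intro c hc
    by_contra hcon
    rw [Set.mem_union, not_or] at hcon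
    obtain ⟨hc1, hc2⟩ := hcon
    obtain ⟨ρ, hρ, hball⟩ := Metric.isOpen_iff.1 hCcl.isOpen_compl c hc2
    obtain ⟨L, hL⟩ : ∃ L : ℕ, (M : ℝ) / (a : ℝ) ^ L < ρ / 2 := by
      have h1 : Tendsto (fun L : ℕ => (M : ℝ) / (a : ℝ) ^ L) atTop (𝓝 0) :=
        tendsto_const_nhds.div_atTop (tendsto_pow_atTop_atTop_of_one_lt ha1)
      exact (h1.eventually_lt_const (by positivity : (0 : ℝ) < ρ / 2)).exists
    obtain ⟨N, hN⟩ := hdist L
    have hfar : ∀ k, N ≤ k → ρ / 2 ≤ dist (z k) c := by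
      intro k hk
      obtain ⟨t, ht, hd⟩ := hN k hk
      by_contra hlt
      rw [not_le] at hlt
      have h1 : t ∈ Metric.ball c ρ := by
        rw [Metric.mem_ball]
        calc dist t c ≤ dist t (z k) + dist (z k) c := dist_triangle _ _ _
          _ < ρ / 2 + ρ / 2 := by
              rw [dist_comm t]
              exact add_lt_add (lt_of_le_of_lt hd hL) hlt
          _ = ρ := by ring
      exact hball h1 ht
    have hfin : (z '' (Set.Iio N)).Finite := (Set.finite_Iio N).image z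
    have hc3 : c ∉ z '' (Set.Iio N) := fun ⟨k, _, hk⟩ => hc1 ⟨k, hk⟩
    have hop : IsOpen ((z '' (Set.Iio N))ᶜ ∩ Metric.ball c (ρ / 2)) :=
      hfin.isClosed.isOpen_compl.inter Metric.isOpen_ball
    rw [mem_closure_iff] at hc
    obtain ⟨_, ⟨h1, h2⟩, k, rfl⟩ := hc _ hop ⟨hc3, Metric.mem_ball_self (by positivity)⟩
    rw [Metric.mem_ball] at h2
    rcases lt_or_ge k N with h | h
    · exact h1 ⟨k, h, rfl⟩
    · exact absurd h2 (not_lt.2 (hfar k h))
  exact ((Set.countable_range z).union hCcount).mono hsub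

/-- the same for fractional parts -/
theorem countable_fract {a : ℕ} {x : ℝ}
    (h : (closure (Set.range fun k : ℕ => a ^ k • ((x : ℝ) : Circ))).Countable) :
    (closure (Set.range fun n : ℕ => Int.fract ((a : ℝ) ^ n * x))).Countable := by
  have h1 : closure (Set.range fun n : ℕ => Int.fract ((a : ℝ) ^ n * x)) ⊆
      ({1} : Set ℝ) ∪ (Set.Ico 0 1 ∩ (fun t : ℝ => (t : Circ)) ⁻¹'
        (closure (Set.range fun k : ℕ => a ^ k • ((x : ℝ) : Circ)))) := by
    intro c hc
    have h2 : c ∈ Set.Icc (0 : ℝ) 1 := by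
      refine (isClosed_Icc.closure_subset_iff.2 ?_) hc
      rintro _ ⟨n, rfl⟩
      exact ⟨Int.fract_nonneg _, (Int.fract_lt_one _).le⟩
    rcases eq_or_lt_of_le h2.2 with h3 | h3
    · left; exact h3
    · right
      refine ⟨⟨h2.1, h3⟩, ?_⟩
      have h4 : Continuous (fun t : ℝ => (t : Circ)) := AddCircle.continuous_mk' 1
      have h5 := image_closure_subset_closure_image h4 (Set.mem_image_of_mem _ hc)
      refine closure_mono ?_ h5
      rintro _ ⟨_, ⟨n, rfl⟩, rfl⟩
      refine ⟨n, ?_⟩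
      show a ^ n • ((x : ℝ) : Circ) = ((Int.fract ((a : ℝ) ^ n * x) : ℝ) : Circ)
      rw [← AddCircle.coe_nsmul, nsmul_eq_mul, Int.fract, AddCircle.coe_sub]
      have h6 : (((⌊(a : ℝ) ^ n * x⌋ : ℤ) : ℝ) : Circ) = 0 := coe_int_zero _
      rw [h6, sub_zero]
      push_cast
      rfl
  refine Set.Countable.mono h1 ((Set.countable_singleton _).union ?_)
  refine Set.MapsTo.countable_of_injOn (f := fun t : ℝ => (t : Circ))
    (t := closure (Set.range fun k : ℕ => a ^ k • ((x : ℝ) : Circ))) (fun t ht => ht.2) ?_ h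
  intro s hs t ht hst
  have h7 : ((s : ℝ) : Circ) = ((t : ℝ) : Circ) := hst
  rw [AddCircle.coe_eq_coe_iff_of_mem_Ico (a := 0)] at h7
  · exact h7
  · simpa using hs.1
  · simpa using ht.1

end Pool.Agent.N440.FO
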