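import Pool.Agent.N440.FO.Arith
import Pool.Agent.H1R3.Det.Weyl

/-! # A quantitative form of the criterion of Weyl -/

set_option autoImplicit false

open Finset MeasureTheory Filter Topology
open Pool.Agent.H1R3.Det (Circ integral_fourier_eq_zero)

namespace Pool.Agent.N440.FO

/-- small exponential sums -/
def Small (H : ℕ) (ρ : ℝ) (R : ℕ) (x : ℕ → ℝ) : Prop :=
  ∀ h : ℤ, h ≠ 0 → |h| ≤ H → ‖∑ r ∈ range R, e (h * x r)‖ ≤ R * ρ

theorem Small.mono {H H' : ℕ} {ρ ρ' : ℝ} {R : ℕ} {x : ℕ → ℝ} (h : Small H ρ R x) (hH : H' ≤ H)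
    (hρ : ρ ≤ ρ') : Small H' ρ' R x := by
  intro k hk hk'
  refine (h k hk (hk'.trans (by exact_mod_cast hH))).trans ?_
  exact mul_le_mul_of_nonneg_left hρ (Nat.cast_nonneg R)

/-- the averages over finite sequences with small exponential sums are near the integral -/
def WProp (F : C(Circ, ℂ)) : Prop :=
  ∀ ε : ℝ, 0 < ε → ∃ H : ℕ, ∃ ρ : ℝ, 0 < ρ ∧ ∀ (R : ℕ) (x : ℕ → ℝ), Small H ρ R x →
    ‖∑ r ∈ range R, F (x r : Circ) - R * ∫ z : Circ, F z‖ ≤ R * ε

theorem e_fourier (n : ℤ) (t : ℝ) : (fourier n (t : Circ) : ℂ) = e (n * t) := by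
  rw [fourier_coe_apply]
  unfold e
  congr 1
  push_cast
  ring

theorem wprop_fourier (n : ℤ) : WProp (fourier n) := by
  intro ε hε
  by_cases hn : n = 0
  · subst hn
    refine ⟨0, 1, one_pos, fun R x _ => ?_⟩
    have hint : ∫ z : Circ, (fourier 0 z : ℂ) = 1 := by
      simp [fourier_zero, Measure.real]
    have h0 : ∑ r ∈ range R, (fourier 0 (x r : Circ) : ℂ) = R := by simp
    rw [hint, h0, mul_one, sub_self, norm_zero]
    positivity
  · refine ⟨n.natAbs, ε, hε, fun R x hx => ?_⟩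
    rw [integral_fourier_eq_zero hn, mul_zero, sub_zero]
    have := hx n hn (by simp)
    simp_rw [e_fourier]
    exact this

theorem wprop_span {F : C(Circ, ℂ)} (hF : F ∈ Submodule.span ℂ (Set.range <| @fourier 1)) :
    WProp F := by
  induction hF using Submodule.span_induction with
  | mem f hf => obtain ⟨n, rfl⟩ := hf; exact wprop_fourier n
  | zero =>
    intro ε hε
    refine ⟨0, 1, one_pos, fun R x _ => ?_⟩
    simp only [ContinuousMap.zero_apply, Finset.sum_const_zero, integral_zero, mul_zero, sub_self,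
      norm_zero]
    positivity
  | add f g _ _ ihf ihg =>
    intro ε hε
    obtain ⟨H₁, ρ₁, hρ₁, h₁⟩ := ihf (ε / 2) (by positivity)
    obtain ⟨H₂, ρ₂, hρ₂, h₂⟩ := ihg (ε / 2) (by positivity)
    refine ⟨max H₁ H₂, min ρ₁ ρ₂, lt_min hρ₁ hρ₂, fun R x hx => ?_⟩
    have h3 := h₁ R x (hx.mono (le_max_left _ _) (min_le_left _ _))
    have h4 := h₂ R x (hx.mono (le_max_right _ _) (min_le_right _ _))
    have hi : ∫ z : Circ, (f + g) z = (∫ z : Circ, f z) + ∫ z : Circ, g z := by
      have := integral_add (μ := (volume : Measure Circ)) (f := f) (g := g)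
        (f.continuous.integrable_of_hasCompactSupport (HasCompactSupport.of_compactSpace _))
        (g.continuous.integrable_of_hasCompactSupport (HasCompactSupport.of_compactSpace _))
      simpa using this
    rw [hi]
    have h5 : ∑ r ∈ range R, (f + g) (x r : Circ) - R * ((∫ z : Circ, f z) + ∫ z : Circ, g z) =
        (∑ r ∈ range R, f (x r : Circ) - R * ∫ z : Circ, f z) +
        (∑ r ∈ range R, g (x r : Circ) - R * ∫ z : Circ, g z) := by
      simp only [ContinuousMap.add_apply, Finset.sum_add_distrib]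
      ring
    rw [h5]
    calc _ ≤ _ := norm_add_le _ _
      _ ≤ R * (ε / 2) + R * (ε / 2) := add_le_add h3 h4
      _ = R * ε := by ring
  | smul c f _ ihf =>
    intro ε hε
    obtain ⟨H, ρ, hρ, h⟩ := ihf (ε / (‖c‖ + 1)) (by positivity)
    refine ⟨H, ρ, hρ, fun R x hx => ?_⟩
    have h1 := h R x hx
    have hi : ∫ z : Circ, (c • f) z = c * (∫ z : Circ, f z) := by
      simp [integral_const_mul]
    have h5 : ∑ r ∈ range R, (c • f) (x r : Circ) - R * (∫ z : Circ, (c • f) z) =
        c * (∑ r ∈ range R, f (x r : Circ) - R * ∫ z : Circ, f z) := by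
      rw [hi]
      simp only [ContinuousMap.coe_smul, Pi.smul_apply, smul_eq_mul]
      rw [← Finset.mul_sum]
      ring
    rw [h5, norm_mul]
    calc ‖c‖ * _ ≤ ‖c‖ * (R * (ε / (‖c‖ + 1))) := by gcongr
      _ = R * (ε * (‖c‖ / (‖c‖ + 1))) := by ring
      _ ≤ R * (ε * 1) := by
          gcongr
          rw [div_le_one (by positivity)]
          linarith
      _ = R * ε := by ring

theorem wprop (F : C(Circ, ℂ)) : WProp F := by
  intro ε hε
  have hcl : F ∈ (Submodule.span ℂ (Set.range <| @fourier 1)).topologicalClosure := by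
    rw [span_fourier_closure_eq_top]; trivial
  rw [← SetLike.mem_coe, Submodule.topologicalClosure_coe, Metric.mem_closure_iff] at hcl
  obtain ⟨f, hf, hfd⟩ := hcl (ε / 3) (by positivity)
  obtain ⟨H, ρ, hρ, h⟩ := wprop_span hf (ε / 3) (by positivity)
  refine ⟨H, ρ, hρ, fun R x hx => ?_⟩
  have h1 := h R x hx
  have h4 : ‖F - f‖ < ε / 3 := by rw [← dist_eq_norm]; exact hfd
  have h2 : ‖∑ r ∈ range R, (F (x r : Circ) - f (x r : Circ))‖ ≤ R * (ε / 3) := by
    calc _ ≤ ∑ r ∈ range R, ‖F (x r : Circ) - f (x r : Circ)‖ := norm_sum_le _ _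
      _ ≤ ∑ _r ∈ range R, ε / 3 := by
          refine Finset.sum_le_sum fun r _ => ?_
          exact ((F - f).norm_coe_le_norm _).trans h4.le
      _ = R * (ε / 3) := by simp
  have h3 : ‖(∫ z : Circ, f z) - ∫ z : Circ, F z‖ ≤ ε / 3 := by
    rw [← integral_sub (f.continuous.integrable_of_hasCompactSupport
      (HasCompactSupport.of_compactSpace _))
      (F.continuous.integrable_of_hasCompactSupport (HasCompactSupport.of_compactSpace _))]
    calc ‖∫ z : Circ, (f z - F z)‖ ≤ ε / 3 * (volume : Measure Circ).real Set.univ := by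
          apply norm_integral_le_of_norm_le_const
          filter_upwards with z
          rw [norm_sub_rev]
          exact ((F - f).norm_coe_le_norm z).trans h4.le
      _ = ε / 3 := by simp [Measure.real]
  have h5 : ∑ r ∈ range R, F (x r : Circ) - R * ∫ z : Circ, F z =
      ∑ r ∈ range R, (F (x r : Circ) - f (x r : Circ)) +
      (∑ r ∈ range R, f (x r : Circ) - R * ∫ z : Circ, f z) +
      R * ((∫ z : Circ, f z) - ∫ z : Circ, F z) := by
    rw [Finset.sum_sub_distrib]; ring
  rw [h5]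
  calc _ ≤ ‖∑ r ∈ range R, (F (x r : Circ) - f (x r : Circ)) +
          (∑ r ∈ range R, f (x r : Circ) - R * ∫ z : Circ, f z)‖ +
          ‖(R : ℂ) * ((∫ z : Circ, f z) - ∫ z : Circ, F z)‖ := norm_add_le _ _
    _ ≤ (R * (ε / 3) + R * (ε / 3)) + R * (ε / 3) := by
        refine add_le_add ((norm_add_le _ _).trans (add_le_add h2 h1)) ?_
        rw [norm_mul, Complex.norm_natCast]
        gcongr
    _ = R * ε := by ring

/-- Finite sequences with small exponential sums meet a given open set. -/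
theorem dens {U : Set Circ} (hU : IsOpen U) (hne : U.Nonempty) :
    ∃ H : ℕ, ∃ ρ : ℝ, 0 < ρ ∧ ∀ (R : ℕ) (x : ℕ → ℝ), 0 < R → Small H ρ R x →
      ∃ r < R, (x r : Circ) ∈ U := by
  obtain ⟨z₀, hz₀⟩ := hne
  obtain ⟨f, hf0, hf1, hf⟩ := exists_continuous_zero_one_of_isClosed (s := Uᶜ) (t := {z₀})
    hU.isClosed_compl isClosed_singleton (by
      rw [Set.disjoint_singleton_right]; exact fun h => h hz₀)
  have hpos : 0 < ∫ z : Circ, f z := by
    refine f.continuous.integral_pos_of_hasCompactSupport_nonneg_nonzero (x := z₀)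
      (HasCompactSupport.of_compactSpace _) (fun z => (hf z).1) ?_
    rw [hf1 rfl]; exact one_ne_zero
  set F : C(Circ, ℂ) := ⟨fun z => (f z : ℂ), Complex.continuous_ofReal.comp f.continuous⟩ with hF
  have hint : ∫ z : Circ, F z = ((∫ z : Circ, f z : ℝ) : ℂ) := by
    rw [← integral_complex_ofReal]; rfl
  obtain ⟨H, ρ, hρ, h⟩ := wprop F ((∫ z : Circ, f z) / 2) (by positivity)
  refine ⟨H, ρ, hρ, fun R x hR hx => ?_⟩
  by_contra hcon
  push Not at hcon
  have h1 := h R x hx
  have h2 : ∑ r ∈ range R, F (x r : Circ) = 0 := by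
    refine Finset.sum_eq_zero fun r hr => ?_
    have : f (x r : Circ) = 0 := hf0 (hcon r (Finset.mem_range.1 hr))
    show ((f (x r : Circ) : ℝ) : ℂ) = 0
    rw [this]; simp
  rw [h2, zero_sub, norm_neg, norm_mul, Complex.norm_natCast, hint, Complex.norm_real,
    Real.norm_of_nonneg hpos.le] at h1
  have hR' : (0 : ℝ) < R := by exact_mod_cast hR
  have h3 := le_of_mul_le_mul_left h1 hR'
  linarith

end Pool.Agent.N440.FO
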