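import Pool.Agent.N440.FO.Count

/-! # An example: random digits at the places of a sparse set of long progressions -/

set_option autoImplicit false

open Finset MeasureTheory ProbabilityTheory Filter Topology
open Pool.Agent.H1R3.Det (Circ)

namespace Pool.Agent.N440.FO

/-- the beginnings of the blocks -/
def B : ℕ → ℕ
  | 0 => 0
  | k + 1 => B k + (k * k ^ k + k + 1)

theorem B_succ (k : ℕ) : B (k + 1) = B k + (k * k ^ k + k + 1) := rfl

theorem B_mono : Monotone B := monotone_nat_of_le_succ fun k => by rw [B_succ]; omega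

/-- the places of the random digits -/
def SS' : Set ℕ := {n | ∃ k i : ℕ, i ≤ k ^ k ∧ n = B k + k * i}

theorem block {k i : ℕ} (hi : i ≤ k ^ k) : B k ≤ B k + k * i ∧ B k + k * i + k + 1 ≤ B (k + 1) := by
  rw [B_succ]
  have := Nat.mul_le_mul_left k hi
  omega

theorem sparse (L : ℕ) : ∃ N : ℕ, ∀ m n : ℕ, N ≤ m → m < n → m ∈ SS' → n ∈ SS' → m + L ≤ n := by
  refine ⟨B L, ?_⟩
  rintro _ _ hN hmn ⟨k, i, hi, rfl⟩ ⟨k', i', hi', rfl⟩
  have h1 := block hi
  have h2 := block hi'
  have hkL : L ≤ k := by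
    by_contra hcon
    have := B_mono (show k + 1 ≤ L by omega)
    omega
  rcases lt_trichotomy k k' with h | h | h
  · have := B_mono (show k + 1 ≤ k' by omega)
    omega
  · subst h
    have h3 : k * i < k * i' := by omega
    have h4 : i + 1 ≤ i' := by
      by_contra hcon
      have := Nat.mul_le_mul_left k (show i' ≤ i by omega)
      omega
    have h5 := Nat.mul_le_mul_left k h4
    rw [mul_add, mul_one] at h5
    omega
  · have := B_mono (show k' + 1 ≤ k by omega)
    omega

/-- a number with a countable orbit closure in base `a` and dense orbits in all multiplicatively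
independent bases -/
theorem exists_num {a : ℕ} (ha : 2 ≤ a) :
    ∃ x : ℝ, (closure (Set.range fun k : ℕ => a ^ k • ((x : ℝ) : Circ))).Countable ∧
      ∀ b : ℕ, 2 ≤ b → (∀ k l : ℕ, 0 < k → 0 < l → a ^ k ≠ b ^ l) →
        Dense (Set.range fun n : ℕ => b ^ n • ((x : ℝ) : Circ)) := by
  classical
  obtain ⟨Ω, _, P, Y, hY, hlaw, hind, hP⟩ := exists_iid ℕ (PMF.uniformOfFintype Bool).toMeasure
  set f : ℕ → Bool → ℤ := fun n c => if n ∈ SS' ∧ c = true then 1 else 0 with hf
  set ε : ℕ → Ω → ℤ := fun n ω => f n (Y n ω) with hε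
  have hεm : ∀ n, Measurable (ε n) := fun n => (measurable_from_top (f := f n)).comp (hY n)
  have hεi : iIndepFun ε P := hind.comp f fun n => measurable_from_top
  have hM : ∀ n ω, |ε n ω| ≤ 1 := by
    intro n ω
    simp only [hε, hf]
    split_ifs <;> simp
  have hcoin : ∀ n (c : Bool), P.real {ω | Y n ω = c} = 1 / 2 := by
    intro n c
    have h1 : P {ω | Y n ω = c} = (PMF.uniformOfFintype Bool).toMeasure {c} := by
      rw [← (hlaw n).map_eq, Measure.map_apply (hY n) (measurableSet_singleton c)]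
      rfl
    rw [Measure.real, h1, PMF.toMeasure_apply_singleton _ _ (measurableSet_singleton c),
      PMF.uniformOfFintype_apply]
    simp
  have hprog : ∀ K : ℕ, ∃ q M₀ : ℕ, 0 < q ∧ ∀ i ≤ K ^ q, ∀ u : ℤ,
      P.real {ω | ε (M₀ + q * i) ω = u} ≤ 1 - 1 / 2 := by
    intro K
    refine ⟨K + 1, B (K + 1), Nat.succ_pos K, fun i hi u => ?_⟩
    have hmem : B (K + 1) + (K + 1) * i ∈ SS' :=
      ⟨K + 1, i, hi.trans (Nat.pow_le_pow_left (Nat.le_succ K) _), rfl⟩
    by_cases hu : u = 1
    · have hsub : {ω | ε (B (K + 1) + (K + 1) * i) ω = u} ⊆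
          {ω | Y (B (K + 1) + (K + 1) * i) ω = true} := by
        intro ω hω
        rw [Set.mem_ofPred_eq] at hω ⊢
        by_contra hcon
        rw [hu] at hω
        simp only [hε, hf] at hω
        rw [if_neg (fun h => hcon h.2)] at hω
        exact absurd hω (by norm_num)
      refine (measureReal_mono hsub (measure_ne_top _ _)).trans ?_
      rw [hcoin]; norm_num
    · have hsub : {ω | ε (B (K + 1) + (K + 1) * i) ω = u} ⊆
          {ω | Y (B (K + 1) + (K + 1) * i) ω = false} := by
        intro ω hω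
        rw [Set.mem_ofPred_eq] at hω ⊢
        by_contra hcon
        rw [Bool.not_eq_false] at hcon
        simp only [hε, hf] at hω
        rw [if_pos ⟨hmem, hcon⟩] at hω
        exact hu hω.symm
      refine (measureReal_mono hsub (measure_ne_top _ _)).trans ?_
      rw [hcoin]; norm_num
  obtain ⟨ω, hω⟩ := (dense_all (μ := P) ha hεm hεi hM 0 (δ := 1 / 2) (by norm_num) hprog).exists
  refine ⟨X a ε 0 ω, ?_, hω⟩
  unfold X
  rw [zero_add]
  refine countable_orbit ha (fun n => hM n ω) fun L => ?_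
  obtain ⟨N, hN⟩ := sparse L
  refine ⟨N, fun m n hm hmn h1 h2 => hN m n hm hmn ?_ ?_⟩
  · by_contra hcon
    exact h1 (by simp only [hε, hf]; rw [if_neg (fun h => hcon h.1)])
  · by_contra hcon
    exact h2 (by simp only [hε, hf]; rw [if_neg (fun h => hcon h.1)])

/-- rational numbers have finite orbits -/
theorem irrational_of_orbit {b : ℕ} {x : ℝ}
    (h : closure (Set.range fun n : ℕ => Int.fract ((b : ℝ) ^ n * x)) = Set.Icc 0 1) :
    Irrational x := by
  rintro ⟨r, rfl⟩
  have hfin : (Set.range fun n : ℕ => Int.fract ((b : ℝ) ^ n * ((r : ℚ) : ℝ))).Finite := by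
    refine Set.Finite.subset ((Set.finite_Ico (0 : ℤ) (r.den : ℤ)).image
      (fun i : ℤ => (i : ℝ) / r.den)) ?_
    rintro _ ⟨n, rfl⟩
    have hd : (0 : ℤ) < r.den := by exact_mod_cast r.den_pos
    refine ⟨((b : ℤ) ^ n * r.num) % r.den, ⟨Int.emod_nonneg _ hd.ne', Int.emod_lt_of_pos _ hd⟩, ?_⟩
    simp only
    rw [← Int.fract_div_intCast_eq_div_intCast_mod]
    congr 1
    push_cast
    rw [mul_div_assoc]
    congr 1
    exact_mod_cast (Rat.num_div_den r)
  have hinf : (Set.Icc (0 : ℝ) 1).Infinite := Set.Icc_infinite (by norm_num)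
  rw [hfin.isClosed.closure_eq] at h
  exact hinf (h ▸ hfin)

end Pool.Agent.N440.FO
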