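import Pool.Agent.N440.FO.Main

/-! # Dependent digits with conditional nondegeneracy -/

set_option autoImplicit false

open Finset MeasureTheory ProbabilityTheory Filter Topology
open Pool.Agent.H1R3.Det (Circ)

namespace Pool.Agent.N440.FO

variable {Ω : Type*} [MeasurableSpace Ω] {μ : Measure Ω}

/-- the event that the digits at the places of `F` are those of `u` -/
def cyl (ε : ℕ → Ω → ℤ) (F : Finset ℕ) (u : ℕ → ℤ) : Set Ω := {ω | ∀ m ∈ F, ε m ω = u m}

/-- the conditional probability of any value of the digit `n`, given any values of finitely many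
other digits, is at most `1 - δ n` -/
def Cond (μ : Measure Ω) (ε : ℕ → Ω → ℤ) (δ : ℕ → ℝ) : Prop :=
  ∀ (n : ℕ) (F : Finset ℕ) (u : ℕ → ℤ), n ∉ F →
    μ.real (cyl ε (insert n F) u) ≤ (1 - δ n) * μ.real (cyl ε F u)

theorem measurable_cyl {ε : ℕ → Ω → ℤ} (hε : ∀ n, Measurable (ε n)) (F : Finset ℕ) (u : ℕ → ℤ) :
    MeasurableSet (cyl ε F u) := by
  have : cyl ε F u = ⋂ m ∈ F, {ω | ε m ω = u m} := by
    ext ω; simp [cyl]
  rw [this]
  exact Finset.measurableSet_biInter F fun m _ => hε m (measurableSet_singleton _)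

theorem cond_nonneg [IsProbabilityMeasure μ] {ε : ℕ → Ω → ℤ} {δ : ℕ → ℝ} (h : Cond μ ε δ) (n : ℕ) :
    0 ≤ 1 - δ n := by
  have h1 := h n ∅ (fun _ => 0) (Finset.notMem_empty n)
  have h2 : cyl ε ∅ (fun _ => 0) = (Set.univ : Set Ω) := by ext; simp [cyl]
  rw [h2, probReal_univ, mul_one] at h1
  exact le_trans measureReal_nonneg h1

theorem chain [IsProbabilityMeasure μ] {ε : ℕ → Ω → ℤ} {δ : ℕ → ℝ} (h : Cond μ ε δ)
    (O : Finset ℕ) (u : ℕ → ℤ) : ∀ A : Finset ℕ, Disjoint A O →
    μ.real (cyl ε (A ∪ O) u) ≤ (∏ i ∈ A, (1 - δ i)) * μ.real (cyl ε O u) := by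
  intro A
  induction A using Finset.induction_on with
  | empty => intro _; simp
  | insert i A hi ih =>
    intro hdis
    rw [Finset.disjoint_insert_left] at hdis
    rw [Finset.insert_union, Finset.prod_insert hi]
    have h1 := h i (A ∪ O) u (by
      rw [Finset.mem_union]; rintro (h | h)
      · exact hi h
      · exact hdis.1 h)
    calc _ ≤ _ := h1
      _ ≤ (1 - δ i) * ((∏ i ∈ A, (1 - δ i)) * μ.real (cyl ε O u)) :=
          mul_le_mul_of_nonneg_left (ih hdis.2) (cond_nonneg h i)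
      _ = _ := by ring

/-- the event that the digits at the places of `A` are those of the vector `d` -/
def vset (ε : ℕ → Ω → ℤ) (A : Finset ℕ) (d : A → ℤ) : Set Ω := {ω | ∀ i : A, ε i ω = d i}

theorem measurable_vset {ε : ℕ → Ω → ℤ} (hε : ∀ n, Measurable (ε n)) (A : Finset ℕ) (d : A → ℤ) :
    MeasurableSet (vset ε A d) := by
  have : vset ε A d = ⋂ i : A, {ω | ε i ω = d i} := by
    ext ω; simp [vset]
  rw [this]
  exact MeasurableSet.iInter fun i => hε i (measurableSet_singleton _)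

theorem mem_vecs {ε : ℕ → Ω → ℤ} {M : ℤ} (hM : ∀ n ω, |ε n ω| ≤ M) (A : Finset ℕ) (ω : Ω) :
    (fun i : A => ε i ω) ∈ vecs M A := by
  unfold vecs
  rw [Fintype.mem_piFinset]
  exact fun i => Finset.mem_Icc.2 (abs_le.1 (hM _ _))

/-- splitting an integral according to the digits at the places of `A` -/
theorem integral_split [IsProbabilityMeasure μ] {ε : ℕ → Ω → ℤ} (hε : ∀ n, Measurable (ε n))
    {M : ℤ} (hM : ∀ n ω, |ε n ω| ≤ M) (S : Set Ω) (A : Finset ℕ) {g : Ω → ℂ}
    (hg : Integrable g μ) :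
    ∫ ω in S, g ω ∂μ = ∑ d ∈ vecs M A, ∫ ω in S ∩ vset ε A d, g ω ∂μ := by
  classical
  have h1 : ∀ ω, g ω = ∑ d ∈ vecs M A, (vset ε A d).indicator g ω := by
    intro ω
    rw [Finset.sum_eq_single (fun i : A => ε i ω)]
    · rw [Set.indicator_of_mem]
      exact fun i => rfl
    · intro d _ hd
      rw [Set.indicator_of_notMem]
      intro h
      exact hd (funext fun i => (h i).symm)
    · intro h
      exact absurd (mem_vecs hM A ω) h
  calc ∫ ω in S, g ω ∂μ = ∫ ω in S, ∑ d ∈ vecs M A, (vset ε A d).indicator g ω ∂μ := by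
        simp_rw [← h1]
    _ = ∑ d ∈ vecs M A, ∫ ω in S, (vset ε A d).indicator g ω ∂μ := by
        rw [integral_finsetSum]
        intro d _
        exact (hg.indicator (measurable_vset hε A d)).integrableOn
    _ = _ := by
        refine Finset.sum_congr rfl fun d _ => ?_
        rw [setIntegral_indicator (measurable_vset hε A d)]

theorem real_split [IsProbabilityMeasure μ] {ε : ℕ → Ω → ℤ} (hε : ∀ n, Measurable (ε n))
    {M : ℤ} (hM : ∀ n ω, |ε n ω| ≤ M) (S : Set Ω) (A : Finset ℕ) :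
    μ.real S = ∑ d ∈ vecs M A, μ.real (S ∩ vset ε A d) := by
  have h := integral_split (μ := μ) hε hM S A (g := fun _ => (1 : ℂ)) (integrable_const _)
  simp only [integral_const, measureReal_restrict_apply_univ] at h
  simp only [Complex.real_smul, mul_one] at h
  exact_mod_cast h

/-- The vectors of all the digits split in two parts. -/
theorem norm_integral_XL_le [IsProbabilityMeasure μ] {a : ℕ} {ε : ℕ → Ω → ℤ}
    (hε : ∀ n, Measurable (ε n)) {M : ℤ} (hM : ∀ n ω, |ε n ω| ≤ M) (y θ : ℝ) (A : Finset ℕ) {L : ℕ}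
    (hL : A ⊆ range L) :
    ‖∫ ω, e (θ * XL a ε y L ω) ∂μ‖ ≤ ∑ u ∈ vecs M (range L \ A),
      ‖∑ d ∈ vecs M A, (μ.real (vset ε (range L \ A) u ∩ vset ε A d) : ℂ) *
        e (θ * val a A d)‖ := by
  have hint : Integrable (fun ω => e (θ * XL a ε y L ω)) μ := by
    refine Integrable.of_bound (C := 1)
      (measurable_e.comp ((measurable_XL hε y L).const_mul θ)).aestronglyMeasurable ?_
    exact Filter.Eventually.of_forall fun ω => (norm_e _).le
  have h0 := integral_split hε hM Set.univ (range L \ A) hint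
  rw [setIntegral_univ] at h0
  rw [h0]
  refine (norm_sum_le _ _).trans (Finset.sum_le_sum fun u _ => ?_)
  rw [Set.univ_inter, integral_split hε hM _ A hint]
  have h1 : ∀ d ∈ vecs M A, ∫ ω in vset ε (range L \ A) u ∩ vset ε A d, e (θ * XL a ε y L ω) ∂μ =
      e (θ * (y + val a (range L \ A) u)) *
        ((μ.real (vset ε (range L \ A) u ∩ vset ε A d) : ℂ) * e (θ * val a A d)) := by
    intro d _
    have h2 : ∫ ω in vset ε (range L \ A) u ∩ vset ε A d, e (θ * XL a ε y L ω) ∂μ =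
        ∫ _ω in vset ε (range L \ A) u ∩ vset ε A d,
          (e (θ * (y + val a (range L \ A) u)) * e (θ * val a A d)) ∂μ := by
      refine setIntegral_congr_fun
        ((measurable_vset hε _ u).inter (measurable_vset hε A d)) fun ω hω => ?_
      rw [← e_add]
      congr 1
      unfold XL val
      rw [← Finset.sum_sdiff hL, ← Finset.sum_coe_sort (range L \ A), ← Finset.sum_coe_sort A]
      have h3 : ∑ i : ↥(range L \ A), (ε i ω : ℝ) / (a : ℝ) ^ ((i : ℕ) + 1) =
          ∑ i : ↥(range L \ A), (u i : ℝ) / (a : ℝ) ^ ((i : ℕ) + 1) :=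
        Finset.sum_congr rfl fun i _ => by rw [hω.1 i]
      have h4 : ∑ i : A, (ε i ω : ℝ) / (a : ℝ) ^ ((i : ℕ) + 1) =
          ∑ i : A, (d i : ℝ) / (a : ℝ) ^ ((i : ℕ) + 1) :=
        Finset.sum_congr rfl fun i _ => by rw [hω.2 i]
      rw [h3, h4]
      ring
    rw [h2, setIntegral_const, Complex.real_smul]
    ring
  rw [Finset.sum_congr rfl h1, ← Finset.mul_sum, norm_mul, norm_e, one_mul]

theorem vset_real_le [IsProbabilityMeasure μ] {ε : ℕ → Ω → ℤ} {δ : ℕ → ℝ} (h : Cond μ ε δ)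
    {O A : Finset ℕ} (hOA : Disjoint A O) (u : O → ℤ) (d : A → ℤ) :
    μ.real (vset ε O u ∩ vset ε A d) ≤ (∏ i ∈ A, (1 - δ i)) * μ.real (vset ε O u) := by
  classical
  set w : ℕ → ℤ := fun m => if hm : m ∈ A then d ⟨m, hm⟩ else
    if hm : m ∈ O then u ⟨m, hm⟩ else 0 with hw
  have hwA : ∀ i : A, w i = d i := by
    intro i; rw [hw]; simp only; rw [dif_pos i.2]
  have hwO : ∀ i : O, w i = u i := by
    intro i
    have : (i : ℕ) ∉ A := fun hi => (Finset.disjoint_left.1 hOA hi i.2)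
    rw [hw]; simp only; rw [dif_neg this, dif_pos i.2]
  have h1 : vset ε O u = cyl ε O w := by
    ext ω
    constructor
    · intro hω m hm
      have := hω ⟨m, hm⟩
      rw [← hwO] at this
      exact this
    · intro hω i
      rw [← hwO]; exact hω i i.2
  have h2 : vset ε O u ∩ vset ε A d = cyl ε (A ∪ O) w := by
    ext ω
    constructor
    · rintro ⟨h3, h4⟩ m hm
      rcases Finset.mem_union.1 hm with hm | hm
      · have := h4 ⟨m, hm⟩
        rw [← hwA] at this
        exact this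
      · have := h3 ⟨m, hm⟩
        rw [← hwO] at this
        exact this
    · intro hω
      refine ⟨fun i => ?_, fun i => ?_⟩
      · rw [← hwO]; exact hω i (Finset.mem_union_right _ i.2)
      · rw [← hwA]; exact hω i (Finset.mem_union_left _ i.2)
  rw [h2, h1]
  exact chain h O w A hOA

/-- The sum over the pairs of times. -/
theorem sum_norm_le [IsProbabilityMeasure μ] {a : ℕ} (ha : 2 ≤ a) {ε : ℕ → Ω → ℤ}
    (hε : ∀ n, Measurable (ε n)) {M : ℤ} (hM : ∀ n ω, |ε n ω| ≤ M) {δ : ℕ → ℝ} (h : Cond μ ε δ)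
    (y : ℝ) (A : Finset ℕ) {η : ℝ} (hη : 0 ≤ η) (hA : ∏ i ∈ A, (1 - δ i) ≤ η ^ 2) (R : ℕ)
    (t : ℕ → ℝ) (hvan : ∀ d ∈ vecs M A, ∀ d' ∈ vecs M A, d ≠ d' →
      ∑ r ∈ range R, e (t r * (val a A d - val a A d')) = 0) :
    ∑ r ∈ range R, ∑ r' ∈ range R, ‖∫ ω, e ((t r - t r') * X a ε y ω) ∂μ‖ ≤ (R : ℝ) ^ 2 * η := by
  have hlim : Tendsto (fun L => ∑ r ∈ range R, ∑ r' ∈ range R,
      ‖∫ ω, e ((t r - t r') * XL a ε y L ω) ∂μ‖) atTop
      (𝓝 (∑ r ∈ range R, ∑ r' ∈ range R, ‖∫ ω, e ((t r - t r') * X a ε y ω) ∂μ‖)) := by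
    refine tendsto_finsetSum _ fun r _ => tendsto_finsetSum _ fun r' _ => Tendsto.norm ?_
    refine tendsto_integral_of_dominated_convergence (fun _ => (1 : ℝ)) ?_ (integrable_const _) ?_ ?_
    · intro L
      exact (measurable_e.comp ((measurable_XL hε y L).const_mul _)).aestronglyMeasurable
    · intro L
      exact Filter.Eventually.of_forall fun ω => (norm_e _).le
    · refine Filter.Eventually.of_forall fun ω => ?_
      exact (continuous_e.tendsto _).comp ((tendsto_XL ha hM y ω).const_mul _)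
  refine le_of_tendsto hlim ?_
  obtain ⟨L₀, hL₀⟩ : ∃ L₀, A ⊆ range L₀ := by
    refine ⟨A.sup id + 1, fun i hi => ?_⟩
    rw [Finset.mem_range]
    have := Finset.le_sup (f := id) hi
    simp only [id] at this
    omega
  filter_upwards [eventually_ge_atTop L₀] with L hL
  have hsub : A ⊆ range L := hL₀.trans (Finset.range_subset_range.2 hL)
  set O : Finset ℕ := range L \ A with hO
  have hOA : Disjoint A O := Finset.disjoint_sdiff
  calc ∑ r ∈ range R, ∑ r' ∈ range R, ‖∫ ω, e ((t r - t r') * XL a ε y L ω) ∂μ‖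
      ≤ ∑ r ∈ range R, ∑ r' ∈ range R, ∑ u ∈ vecs M O,
        ‖∑ d ∈ vecs M A, (μ.real (vset ε O u ∩ vset ε A d) : ℂ) *
          e ((t r - t r') * val a A d)‖ :=
        Finset.sum_le_sum fun r _ => Finset.sum_le_sum fun r' _ =>
          norm_integral_XL_le hε hM y _ A hsub
    _ = ∑ u ∈ vecs M O, ∑ r ∈ range R, ∑ r' ∈ range R,
        ‖∑ d ∈ vecs M A, (μ.real (vset ε O u ∩ vset ε A d) : ℂ) *
          e ((t r - t r') * val a A d)‖ := by
        rw [Finset.sum_comm (s := vecs M O)]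
        refine Finset.sum_congr rfl fun r _ => ?_
        rw [Finset.sum_comm]
    _ ≤ ∑ u ∈ vecs M O, (R : ℝ) ^ 2 * (η * μ.real (vset ε O u)) := by
        refine Finset.sum_le_sum fun u _ => ?_
        refine first_moment (vecs M A) (fun d => μ.real (vset ε O u ∩ vset ε A d)) (val a A) R t
          hvan (by positivity) ?_
        calc ∑ d ∈ vecs M A, μ.real (vset ε O u ∩ vset ε A d) ^ 2
            ≤ ∑ d ∈ vecs M A, ((∏ i ∈ A, (1 - δ i)) * μ.real (vset ε O u)) *
              μ.real (vset ε O u ∩ vset ε A d) := by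
              refine Finset.sum_le_sum fun d _ => ?_
              rw [pow_two]
              exact mul_le_mul_of_nonneg_right (vset_real_le h hOA u d) measureReal_nonneg
          _ = (∏ i ∈ A, (1 - δ i)) * μ.real (vset ε O u) ^ 2 := by
              rw [← Finset.mul_sum, ← real_split hε hM]; ring
          _ ≤ η ^ 2 * μ.real (vset ε O u) ^ 2 := by gcongr
          _ = (η * μ.real (vset ε O u)) ^ 2 := by ring
    _ = (R : ℝ) ^ 2 * η * ∑ u ∈ vecs M O, μ.real (Set.univ ∩ vset ε O u) := by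
        rw [Finset.mul_sum]
        refine Finset.sum_congr rfl fun u _ => ?_
        rw [Set.univ_inter]; ring
    _ = (R : ℝ) ^ 2 * η := by rw [← real_split hε hM, probReal_univ, mul_one]

/-- The selection of the positions. -/
theorem exists_positions' {δ : ℕ → ℝ} (hδ0 : ∀ n, 0 ≤ δ n) (hδ1 : ∀ n, 0 ≤ 1 - δ n)
    (hns : ¬ Summable δ) {l : ℕ} (hl : 0 < l) (n₀ : ℕ) {η : ℝ} (hη : 0 < η) :
    ∃ A : Finset ℕ, (∀ i ∈ A, ∀ j ∈ A, i < j → i + l ≤ j) ∧ (∀ i ∈ A, n₀ ≤ i) ∧
      ∏ n ∈ A, (1 - δ n) ≤ η := by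
  classical
  obtain ⟨i, hi, hns⟩ := exists_residue hδ0 hns hl
  have hns2 : ¬ Summable (fun n => δ ((n + n₀) * l + i)) := by
    intro h
    exact hns ((summable_nat_add_iff (f := fun n => δ (n * l + i)) n₀).1 h)
  rw [not_summable_iff_tendsto_nat_atTop_of_nonneg (fun n => hδ0 _)] at hns2
  obtain ⟨L, hL⟩ := (hns2.eventually (eventually_ge_atTop (-Real.log η))).exists
  have hinj : Function.Injective fun n : ℕ => (n + n₀) * l + i := by
    intro m n h
    simp only [Nat.add_right_cancel_iff] at h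
    have := Nat.eq_of_mul_eq_mul_right hl h
    omega
  refine ⟨(range L).image fun n => (n + n₀) * l + i, ?_, ?_, ?_⟩
  · intro i₁ h1 j₁ h2 hlt
    obtain ⟨m, _, rfl⟩ := Finset.mem_image.1 h1
    obtain ⟨n, _, rfl⟩ := Finset.mem_image.1 h2
    have h3 : m < n := by
      by_contra h4
      push Not at h4
      have : (n + n₀) * l ≤ (m + n₀) * l := Nat.mul_le_mul_right l (by omega)
      omega
    have h4 : (m + 1 + n₀) * l ≤ (n + n₀) * l := Nat.mul_le_mul_right l (by omega)
    have h5 : (m + 1 + n₀) * l = (m + n₀) * l + l := by ring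
    omega
  · intro i₁ h1
    obtain ⟨m, _, rfl⟩ := Finset.mem_image.1 h1
    have : (m + n₀) * 1 ≤ (m + n₀) * l := Nat.mul_le_mul_left _ hl
    show n₀ ≤ (m + n₀) * l + i
    omega
  · rw [Finset.prod_image (fun m _ n _ h => hinj h)]
    calc ∏ n ∈ range L, (1 - δ ((n + n₀) * l + i))
        ≤ ∏ n ∈ range L, Real.exp (-δ ((n + n₀) * l + i)) := by
          refine Finset.prod_le_prod (fun n _ => hδ1 _) ?_
          intro n _
          have := Real.add_one_le_exp (-δ ((n + n₀) * l + i))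
          linarith
      _ = Real.exp (-∑ n ∈ range L, δ ((n + n₀) * l + i)) := by
          rw [← Real.exp_sum, Finset.sum_neg_distrib]
      _ ≤ Real.exp (Real.log η) := by
          apply Real.exp_le_exp.2
          linarith
      _ = η := Real.exp_log hη

end Pool.Agent.N440.FO
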