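import Pool.Agent.N440.FO.Sel
import Pool.Agent.N440.FO.Dens
import Pool.Agent.W765.Det3

/-! # Independent digits without atoms: dense orbits -/

set_option autoImplicit false

open Finset MeasureTheory ProbabilityTheory Filter Topology
open Pool.Agent.H1R3.Det (Circ)

namespace Pool.Agent.N440.FO

variable {Ω : Type*} [MeasurableSpace Ω] {μ : Measure Ω} [IsProbabilityMeasure μ]

/-- The second moments along suitable times of the orbit are small. -/
theorem moment {a : ℕ} (ha : 2 ≤ a) {ε : ℕ → Ω → ℤ} (hε : ∀ n, Measurable (ε n))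
    (hind : iIndepFun ε μ) {M : ℤ} (hM0 : 0 ≤ M) (hM : ∀ n ω, |ε n ω| ≤ M) {y : ℝ}
    (hat : ∀ t : ℝ, μ {ω | X a ε y ω = t} = 0) {b : ℕ} (hb : 2 ≤ b) {p : ℕ} (hp : p.Prime)
    (hpa : p ∣ a) (hpb : ¬ p ∣ b) (H : ℕ) {η : ℝ} (hη : 0 < η) :
    ∃ R : ℕ, 0 < R ∧ ∃ s : ℕ → ℕ, ∀ h : ℤ, h ≠ 0 → |h| ≤ H →
      ∫ ω, ‖∑ r ∈ range R, e ((h * (b : ℝ) ^ (s r)) * X a ε y ω)‖ ^ 2 ∂μ ≤ (R : ℝ) ^ 2 * η := by
  classical
  obtain ⟨v, a', hpa', hav⟩ := Nat.exists_eq_pow_mul_and_not_dvd (n := a) (by omega) p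
    hp.ne_one
  have ha'0 : 0 < a' := by
    rcases Nat.eq_zero_or_pos a' with h | h
    · rw [h, mul_zero] at hav; omega
    · exact h
  have hv : 1 ≤ v := by
    rcases Nat.eq_zero_or_pos v with h | h
    · rw [h, pow_zero, one_mul] at hav
      exact absurd (hav ▸ hpa) hpa'
    · exact h
  obtain ⟨k₁, hk₁⟩ := params hp hb hpb ha'0 hpa'
  set l : ℕ := H * (2 * M).toNat + 1 with hl
  have hlp : (H : ℤ) * (2 * M) < (p : ℤ) ^ l := by
    have h1 : l < p ^ l := Nat.lt_pow_self hp.one_lt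
    have h2 : ((2 * M).toNat : ℤ) = 2 * M := Int.toNat_of_nonneg (by linarith)
    have h3 : (l : ℤ) = H * (2 * M) + 1 := by rw [hl]; push_cast [h2]; ring
    have h4 : (l : ℤ) < (p : ℤ) ^ l := by exact_mod_cast h1
    linarith
  obtain ⟨A, hgap, hmin, hprod⟩ := exists_positions ha hε hM0 hM hat (l := l) (by omega)
    (k₁ + l) (η := η ^ 2) (by positivity)
  set N : ℕ := A.sup id + 1 with hN
  have hNA : ∀ n ∈ A, n + 1 ≤ N := by
    intro n hn
    have := Finset.le_sup (f := id) hn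
    simp only [id] at this
    omega
  obtain ⟨m, T, c, h1, h2, h3, h4, h5⟩ := hk₁ N
  refine ⟨p ^ (v * N), pow_pos hp.pos _, fun r => m + T * r, fun h hh hhH => ?_⟩
  have hl2 : |h| * (2 * M) < (p : ℤ) ^ l :=
    lt_of_le_of_lt (mul_le_mul_of_nonneg_right hhH (by linarith)) hlp
  refine (integral_sq_le (measurable_X ha hε hM y) (p ^ (v * N))
    (fun r => h * (b : ℝ) ^ (m + T * r))).trans ?_
  -- the vanishing sums
  have hvan : ∀ d ∈ vecs M A, ∀ d' ∈ vecs M A, d ≠ d' →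
      ∑ r ∈ range (p ^ (v * N)), e ((h * (b : ℝ) ^ (m + T * r)) * (val a A d - val a A d')) = 0 := by
    intro d hd d' hd' hne
    set δ : ℕ → ℤ := fun i => if hi : i ∈ A then d ⟨i, hi⟩ - d' ⟨i, hi⟩ else 0 with hδ
    have hδA : ∀ i : A, δ i = d i - d' i := by
      intro i
      rw [hδ]
      simp only
      rw [dif_pos i.2]
    have hval : val a A d - val a A d' = ∑ i ∈ A, (δ i : ℝ) / (a : ℝ) ^ (i + 1) := by
      unfold val
      rw [← Finset.sum_sub_distrib, ← Finset.sum_coe_sort A]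
      refine Finset.sum_congr rfl fun i _ => ?_
      rw [hδA i]
      push_cast
      ring
    have hbd : ∀ i ∈ A, |δ i| ≤ 2 * M := by
      intro i hi
      have e1 := hδA ⟨i, hi⟩
      simp only at e1
      rw [e1]
      have h6 := Finset.mem_Icc.1 (Fintype.mem_piFinset.1 hd ⟨i, hi⟩)
      have h7 := Finset.mem_Icc.1 (Fintype.mem_piFinset.1 hd' ⟨i, hi⟩)
      rw [abs_le]
      constructor <;> linarith [h6.1, h6.2, h7.1, h7.2]
    have hex : ∃ i ∈ A, δ i ≠ 0 := by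
      by_contra hcon
      push Not at hcon
      apply hne
      funext i
      have e1 := hδA i
      rw [hcon i i.2] at e1
      linarith
    obtain ⟨n, hn, κ, hκ, hκe⟩ := comb hpa (by omega) hgap hbd hex hh hl2
    have hva := vanish hp (b := b) hpa' hv ha'0 h1 h2 h3 h4 h5 hκ (n := n + 1)
      ((hmin n hn).trans (Nat.le_succ n)) (hNA n hn)
    rw [← hav] at hva
    rw [← hva]
    refine Finset.sum_congr rfl fun r _ => ?_
    congr 1
    rw [hval, ← hκe]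
    ring
  have hfm := first_moment (vecs M A) (wt μ ε A) (val a A) (p ^ (v * N))
    (fun r => h * (b : ℝ) ^ (m + T * r)) hvan hη.le (by rw [sum_wt_sq]; exact hprod)
  refine le_trans ?_ hfm
  refine Finset.sum_le_sum fun r _ => Finset.sum_le_sum fun r' _ => ?_
  rw [← prod_D hε hM]
  exact norm_integral_X_le ha hε hind hM y _ A

/-- An open set is visited almost surely. -/
theorem visit {a : ℕ} (ha : 2 ≤ a) {ε : ℕ → Ω → ℤ} (hε : ∀ n, Measurable (ε n))
    (hind : iIndepFun ε μ) {M : ℤ} (hM : ∀ n ω, |ε n ω| ≤ M) {y : ℝ}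
    (hat : ∀ t : ℝ, μ {ω | X a ε y ω = t} = 0) {b : ℕ} (hb : 2 ≤ b) {p : ℕ} (hp : p.Prime)
    (hpa : p ∣ a) (hpb : ¬ p ∣ b) {U : Set Circ} (hU : IsOpen U) (hne : U.Nonempty) :
    ∀ᵐ ω ∂μ, ∃ n : ℕ, ((((b : ℝ) ^ n * X a ε y ω : ℝ)) : Circ) ∈ U := by
  classical
  have hM0 : 0 ≤ M := by
    haveI : Nonempty Ω := (IsProbabilityMeasure.ne_zero μ |> fun h => by
      by_contra hcon
      rw [not_nonempty_iff] at hcon
      exact h (Measure.eq_zero_of_isEmpty μ))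
    exact (abs_nonneg _).trans (hM 0 (Classical.arbitrary Ω))
  obtain ⟨H, ρ, hρ, hd⟩ := dens hU hne
  rw [ae_iff]
  set Bad : Set Ω := {ω | ¬ ∃ n : ℕ, ((((b : ℝ) ^ n * X a ε y ω : ℝ)) : Circ) ∈ U} with hBad
  have key : ∀ η : ℝ, 0 < η → μ.real Bad ≤ (2 * H + 1) * (η / ρ ^ 2) := by
    intro η hη
    obtain ⟨R, hR, s, hs⟩ := moment ha hε hind hM0 hM hat hb hp hpa hpb H hη
    have hR' : (0 : ℝ) < R := by exact_mod_cast hR
    set W : ℤ → Ω → ℝ := fun h ω =>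
      ‖∑ r ∈ range R, e ((h * (b : ℝ) ^ (s r)) * X a ε y ω)‖ ^ 2 with hW
    set F : Finset ℤ := (Finset.Icc (-(H : ℤ)) H).filter (fun h => h ≠ 0) with hF
    have hsub : Bad ⊆ ⋃ h ∈ F, {ω | (R * ρ) ^ 2 ≤ W h ω} := by
      intro ω hω
      by_contra hcon
      apply hω
      have hsmall : Small H ρ R (fun r => (b : ℝ) ^ (s r) * X a ε y ω) := by
        intro h hh hhH
        by_contra hlt
        rw [not_le] at hlt
        apply hcon
        rw [Set.mem_iUnion₂]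
        refine ⟨h, ?_, ?_⟩
        · rw [hF, Finset.mem_filter, Finset.mem_Icc]
          exact ⟨abs_le.1 hhH, hh⟩
        · show (R * ρ) ^ 2 ≤ ‖∑ r ∈ range R, e ((h * (b : ℝ) ^ (s r)) * X a ε y ω)‖ ^ 2
          have e1 : ∑ r ∈ range R, e ((h * (b : ℝ) ^ (s r)) * X a ε y ω) =
              ∑ r ∈ range R, e (h * ((b : ℝ) ^ (s r) * X a ε y ω)) := by
            simp_rw [mul_assoc]
          rw [e1]
          gcongr
      obtain ⟨r, _, hr⟩ := hd R _ hR hsmall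
      exact ⟨s r, hr⟩
    have hWint : ∀ h, Integrable (W h) μ := by
      intro h
      refine Integrable.of_bound (C := (R : ℝ) ^ 2) ?_ ?_
      · refine Measurable.aestronglyMeasurable ?_
        refine Measurable.pow_const ?_ 2
        refine Measurable.norm ?_
        refine Finset.measurable_sum _ fun r _ => ?_
        exact measurable_e.comp ((measurable_X ha hε hM y).const_mul _)
      · refine Filter.Eventually.of_forall fun ω => ?_
        rw [Real.norm_of_nonneg (by positivity)]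
        show ‖∑ r ∈ range R, e ((h * (b : ℝ) ^ (s r)) * X a ε y ω)‖ ^ 2 ≤ _
        gcongr
        calc _ ≤ ∑ r ∈ range R, ‖e ((h * (b : ℝ) ^ (s r)) * X a ε y ω)‖ := norm_sum_le _ _
          _ = R := by simp [norm_e]
    have hmk : ∀ h ∈ F, μ.real {ω | (R * ρ) ^ 2 ≤ W h ω} ≤ η / ρ ^ 2 := by
      intro h hh
      rw [hF, Finset.mem_filter, Finset.mem_Icc] at hh
      have h1 := mul_meas_ge_le_integral_of_nonneg (μ := μ) (f := W h)
        (Filter.Eventually.of_forall fun ω => by positivity) (hWint h) ((R * ρ) ^ 2)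
      have h2 := hs h hh.2 (abs_le.2 hh.1)
      have h3 : (R * ρ) ^ 2 * μ.real {ω | (R * ρ) ^ 2 ≤ W h ω} ≤ (R : ℝ) ^ 2 * η := h1.trans h2
      rw [le_div_iff₀ (by positivity)]
      have h4 : (R : ℝ) ^ 2 * (μ.real {ω | (R * ρ) ^ 2 ≤ W h ω} * ρ ^ 2) ≤ (R : ℝ) ^ 2 * η := by
        calc _ = (R * ρ) ^ 2 * μ.real {ω | (R * ρ) ^ 2 ≤ W h ω} := by ring
          _ ≤ _ := h3
      exact le_of_mul_le_mul_left h4 (by positivity)
    calc μ.real Bad ≤ μ.real (⋃ h ∈ F, {ω | (R * ρ) ^ 2 ≤ W h ω}) := measureReal_mono hsub (measure_ne_top _ _)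
      _ ≤ ∑ h ∈ F, μ.real {ω | (R * ρ) ^ 2 ≤ W h ω} := measureReal_biUnion_finset_le _ _
      _ ≤ ∑ _h ∈ F, η / ρ ^ 2 := Finset.sum_le_sum hmk
      _ = F.card * (η / ρ ^ 2) := by simp
      _ ≤ (2 * H + 1) * (η / ρ ^ 2) := by
          gcongr
          have h1 : F.card ≤ (Finset.Icc (-(H : ℤ)) H).card := Finset.card_filter_le _ _
          have h2 : (Finset.Icc (-(H : ℤ)) H).card = 2 * H + 1 := by
            rw [Int.card_Icc]; omega
          rw [h2] at h1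
          exact_mod_cast h1
  have hz : μ.real Bad ≤ 0 := by
    refine le_of_forall_pos_le_add fun τ hτ => ?_
    rw [zero_add]
    have h1 := key (τ * ρ ^ 2 / (2 * H + 1)) (by positivity)
    refine h1.trans (le_of_eq ?_)
    have : (2 * (H : ℝ) + 1) ≠ 0 := by positivity
    field_simp
  have hz' : μ.real Bad = 0 := le_antisymm hz measureReal_nonneg
  rwa [measureReal_eq_zero_iff] at hz'

/-- Almost surely the orbit is dense for all `b` not divisible by some prime factor of `a`. -/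
theorem dense_ae {a : ℕ} (ha : 2 ≤ a) {ε : ℕ → Ω → ℤ} (hε : ∀ n, Measurable (ε n))
    (hind : iIndepFun ε μ) {M : ℤ} (hM : ∀ n ω, |ε n ω| ≤ M) {y : ℝ}
    (hat : ∀ t : ℝ, μ {ω | X a ε y ω = t} = 0) :
    ∀ᵐ ω ∂μ, ∀ b : ℕ, 2 ≤ b → (∃ p : ℕ, p.Prime ∧ p ∣ a ∧ ¬ p ∣ b) →
      Dense (Set.range fun n : ℕ => b ^ n • ((X a ε y ω : ℝ) : Circ)) := by
  rw [ae_all_iff]
  intro b
  by_cases hb : 2 ≤ b
  swap
  · exact Filter.Eventually.of_forall fun ω h => absurd h hb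
  by_cases hp : ∃ p : ℕ, p.Prime ∧ p ∣ a ∧ ¬ p ∣ b
  swap
  · exact Filter.Eventually.of_forall fun ω _ h => absurd h hp
  obtain ⟨p, hpp, hpa, hpb⟩ := hp
  obtain ⟨B, hBc, hBe, hB⟩ := TopologicalSpace.exists_countable_basis Circ
  have h1 : ∀ᵐ ω ∂μ, ∀ U ∈ B, ∃ n : ℕ, ((((b : ℝ) ^ n * X a ε y ω : ℝ)) : Circ) ∈ U := by
    rw [ae_ball_iff hBc]
    intro U hU
    exact visit ha hε hind hM hat hb hpp hpa hpb (hB.isOpen hU)
      (Set.nonempty_iff_ne_empty.2 fun h0 => hBe (h0 ▸ hU))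
  filter_upwards [h1] with ω hω _ _
  rw [hB.dense_iff]
  intro U hU _
  obtain ⟨n, hn⟩ := hω U hU
  refine ⟨_, hn, n, ?_⟩
  show b ^ n • ((X a ε y ω : ℝ) : Circ) = _
  rw [← AddCircle.coe_nsmul, nsmul_eq_mul]
  push_cast
  rfl

end Pool.Agent.N440.FO
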