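import Pool.Agent.N440.FO.Pair

/-! # Second moments, bases with common prime factors -/

set_option autoImplicit false

open Finset MeasureTheory ProbabilityTheory Filter Topology

namespace Pool.Agent.N440.FO

variable {Ω : Type*} [MeasurableSpace Ω] {μ : Measure Ω} [IsProbabilityMeasure μ]

theorem card_near (N R r : ℕ) :
    ∑ r' ∈ range R, (if r < r' + N ∧ r' < r + N then (1 : ℝ) else 0) ≤ 2 * N := by
  classical
  rw [← Finset.sum_filter]
  simp only [Finset.sum_const, nsmul_eq_mul, mul_one]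
  have hsub : (range R).filter (fun r' => r < r' + N ∧ r' < r + N) ⊆ Finset.Ico (r + 1 - N) (r + N) := by
    intro x hx
    rw [Finset.mem_filter] at hx
    rw [Finset.mem_Ico]
    omega
  have h1 := Finset.card_le_card hsub
  rw [Nat.card_Ico] at h1
  have h2 : ((range R).filter (fun r' => r < r' + N ∧ r' < r + N)).card ≤ 2 * N := by omega
  exact_mod_cast h2

theorem exists_J {c₀ : ℝ} (h0 : 0 ≤ c₀) (h1 : c₀ < 1) {η : ℝ} (hη : 0 < η) :
    ∃ J : ℕ, c₀ ^ J ≤ (η / 4) ^ 2 ∧ ∀ N : ℕ, J ≤ N → 4 * (N : ℝ) ≤ η * 2 ^ N := by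
  have e1 : ∀ᶠ J : ℕ in atTop, c₀ ^ J ≤ (η / 4) ^ 2 :=
    (tendsto_pow_atTop_nhds_zero_of_lt_one h0 h1).eventually_le_const (by positivity)
  have e2 : ∀ᶠ N : ℕ in atTop, 4 * (N : ℝ) ≤ η * 2 ^ N := by
    have := (tendsto_pow_const_div_const_pow_of_one_lt 1 (r := (2 : ℝ)) (by norm_num)).eventually_le_const
      (u := η / 4) (by positivity)
    filter_upwards [this] with N hN
    rw [pow_one, div_le_iff₀ (by positivity)] at hN
    linarith
  rw [eventually_atTop] at e2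
  obtain ⟨J₁, hJ₁⟩ := e2
  obtain ⟨J, hJ, hJ'⟩ := (e1.and (eventually_ge_atTop J₁)).exists
  exact ⟨J, hJ, fun N hN => hJ₁ N (hJ'.trans hN)⟩

/-- The second moments along suitable times are small. -/
theorem moment2 {a : ℕ} (ha : 2 ≤ a) {ε : ℕ → Ω → ℤ} (hε : ∀ n, Measurable (ε n))
    (hind : iIndepFun ε μ) {M : ℤ} (hM0 : 0 ≤ M) (hM : ∀ n ω, |ε n ω| ≤ M) (y : ℝ)
    {δ : ℝ} (hδ : 0 < δ)
    (hprog : ∀ K : ℕ, ∃ q M₀ : ℕ, 0 < q ∧ ∀ i ≤ K ^ q, ∀ u : ℤ,
      μ.real {ω | ε (M₀ + q * i) ω = u} ≤ 1 - δ)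
    {b p α β g : ℕ} (hp : p.Prime) (hpa : p ∣ a) (hβ : 0 < β)
    (hg : 2 ≤ g) (hpg : ¬ p ∣ g) (hbg : b ^ α = a ^ β * g) (H : ℕ) {η : ℝ} (hη : 0 < η) :
    ∃ R : ℕ, 0 < R ∧ ∃ s : ℕ → ℕ, ∀ h : ℤ, h ≠ 0 → |h| ≤ H →
      ∫ ω, ‖∑ r ∈ range R, e ((h * (b : ℝ) ^ (s r)) * X a ε y ω)‖ ^ 2 ∂μ ≤ (R : ℝ) ^ 2 * η := by
  classical
  obtain ⟨v, a', hpa', hav⟩ := Nat.exists_eq_pow_mul_and_not_dvd (n := a) (by omega) p
    hp.ne_one
  have ha'0 : 0 < a' := by
    rcases Nat.eq_zero_or_pos a' with h | h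
    · rw [h, mul_zero] at hav; omega
    · exact h
  have hv : 1 ≤ v := by
    rcases Nat.eq_zero_or_pos v with h | h
    · rw [h, pow_zero, one_mul] at hav
      exact absurd (hav ▸ hpa) hpa'
    · exact h
  obtain ⟨k₁, C, hk₁⟩ := params2 hp hg hpg ha'0 hpa'
  set L : ℕ := (2 * M).toNat with hL
  have hLM : 2 * M ≤ L := by rw [hL]; exact Int.self_le_toNat _
  have hSS := one_le_SS L
  set c : ℝ := min (δ / (2 * 4 ^ L)) (1 / (2 * SS L)) with hc
  have hc0 : 0 < c := lt_min (by positivity) (by positivity)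
  have hcδ : c ≤ δ / (2 * 4 ^ L) := min_le_left _ _
  have hcS : c * SS L ≤ 1 / 2 := by
    calc c * SS L ≤ 1 / (2 * SS L) * SS L :=
          mul_le_mul_of_nonneg_right (min_le_right _ _) (by linarith)
      _ = 1 / 2 := by field_simp
  have hcS0 : 0 < c * SS L := by positivity
  set U := (pol L).natDegree with hU
  set l : ℕ := H * U + 1 with hl
  have hlp : (H : ℤ) * (U : ℤ) < (p : ℤ) ^ l := by
    have h1 : l < p ^ l := Nat.lt_pow_self hp.one_lt
    have h4 : (l : ℤ) < (p : ℤ) ^ l := by exact_mod_cast h1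
    have h3 : (l : ℤ) = H * U + 1 := by rw [hl]; push_cast; ring
    linarith
  obtain ⟨J, hJ1, hJ2⟩ := exists_J (c₀ := 1 - c * SS L) (by linarith) (by linarith) hη
  set c₁ : ℕ := k₁ + l + l + β + l * J with hc₁
  set c₂ : ℕ := β * C + 1 + β * l * C + 1 with hc₂
  obtain ⟨q, M₀, hq, hlaw⟩ := hprog (c₂ * a ^ c₁)
  set Q : ℕ := q * l with hQ
  have hQ0 : 0 < Q := Nat.mul_pos hq (by omega)
  have hlQ : l ≤ Q := Nat.le_mul_of_pos_left l hq
  set N : ℕ := k₁ + Q + l + β + Q * J with hN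
  have hJN : J ≤ N := by
    have : J ≤ Q * J := Nat.le_mul_of_pos_left J hQ0
    omega
  obtain ⟨m, T, c', g1, g2, g3, g4, g5, g6, g7, g8⟩ := hk₁ N
  set i₀ : ℕ := β * m + (k₁ + Q) + l with hi₀
  set n₀ : ℕ := M₀ + q * i₀ with hn₀
  have hqi : i₀ ≤ q * i₀ := Nat.le_mul_of_pos_left i₀ hq
  set w : ℕ := n₀ + 1 - (k₁ + Q) - l with hw
  have hw1 : n₀ + 1 = w + (k₁ + Q) + l := by omega
  have hw2 : β * m ≤ w := by omega
  set m' : ℕ := w / β with hm'
  have hmm' : m ≤ m' := by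
    rw [hm', Nat.le_div_iff_mul_le hβ, mul_comm]; exact hw2
  set j₀ : ℕ := w % β + (k₁ + Q) + l with hj₀
  have hwm : w = β * m' + w % β := (Nat.div_add_mod w β).symm
  have hj₀n : n₀ + 1 = β * m' + j₀ := by omega
  have hmod : w % β < β := Nat.mod_lt _ hβ
  obtain ⟨c'', k1, k2, k3, k4, k5⟩ := stretch hp hg hpg g1 g2 g3 g4 g5 hQ0 hmm'
  set A : Finset ℕ := (range J).image (fun i => j₀ - 1 + Q * i) with hA
  have hAcard : A.card = J := by
    rw [hA, Finset.card_image_of_injective, card_range]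
    intro x y hxy
    have h1 : Q * x = Q * y := by simpa using hxy
    exact Nat.eq_of_mul_eq_mul_left hQ0 h1
  have hgap : ∀ i ∈ A, ∀ j ∈ A, i < j → i + l ≤ j := by
    intro i hi j hj hij
    rw [hA, Finset.mem_image] at hi hj
    obtain ⟨x, _, rfl⟩ := hi
    obtain ⟨z, _, rfl⟩ := hj
    have h1 : Q * x < Q * z := by omega
    have h2 : x + 1 ≤ z := (Nat.mul_lt_mul_left hQ0).1 h1
    have h3 : Q * (x + 1) ≤ Q * z := Nat.mul_le_mul_left Q h2
    rw [mul_add, mul_one] at h3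
    omega
  have hmin : ∀ n ∈ A, (k₁ + Q) + l ≤ n + 1 := by
    intro n hn
    rw [hA, Finset.mem_image] at hn
    obtain ⟨x, _, rfl⟩ := hn
    omega
  have hmax : ∀ n ∈ A, n + 1 ≤ N := by
    intro n hn
    rw [hA, Finset.mem_image] at hn
    obtain ⟨x, hx, rfl⟩ := hn
    have h1 : Q * x ≤ Q * J := Nat.mul_le_mul_left Q (Finset.mem_range.1 hx).le
    omega
  set R : ℕ := p ^ (v * N) with hR
  have hR0 : 0 < R := pow_pos hp.pos _
  -- the majorant
  set Φ : ℤ → ℕ → ℝ := fun h r => ∏ n ∈ A,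
      (1 - c * W L ((h * (g : ℝ) ^ (m' + T * Q * r)) / (a : ℝ) ^ (n + 1))) with hΦ
  have hδ1 : δ ≤ 1 := by
    obtain ⟨q', M', hq', hl'⟩ := hprog 1
    have h2 : (0 : ℝ) ≤ 1 - δ := measureReal_nonneg.trans (hl' 0 (Nat.zero_le _) 0)
    linarith
  have hδW : ∀ x : ℝ, 0 ≤ 1 - δ / (2 * 4 ^ L) * W L x := by
    intro x
    have h3 := W_le_pow L x
    have h4 : δ / (2 * 4 ^ L) * W L x ≤ 1 / (2 * 4 ^ L) * 4 ^ L :=
      mul_le_mul (div_le_div_of_nonneg_right hδ1 (by positivity)) h3 (W_nonneg L x) (by positivity)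
    have h5 : (1 : ℝ) / (2 * 4 ^ L) * 4 ^ L = 1 / 2 := by field_simp
    linarith
  have hcW : ∀ x : ℝ, 0 ≤ 1 - c * W L x := by
    intro x
    have := mul_le_mul_of_nonneg_right hcδ (W_nonneg L x)
    have := hδW x
    linarith
  have hΦ0 : ∀ h r, 0 ≤ Φ h r := fun h r => Finset.prod_nonneg fun n _ => hcW _
  have hsumΦ : ∀ h : ℤ, h ≠ 0 → |h| ≤ H → ∑ r ∈ range R, Φ h r = R * (1 - c * SS L) ^ J := by
    intro h hh hhH
    have := sum_Phi hp (by omega) hpa hav hpa' hv ha'0 k1 k2 k3 k4 k5 (L := L) hlp hgap hmin hmax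
      hh hhH c
    rw [hAcard] at this
    exact this
  have hsqrt : ∀ h : ℤ, h ≠ 0 → |h| ≤ H → ∑ r ∈ range R, Real.sqrt (Φ h r) ≤ R * (η / 4) := by
    intro h hh hhH
    have h1 := sq_sum_le_card_mul_sum_sq (s := range R) (f := fun r => Real.sqrt (Φ h r))
    simp only [card_range] at h1
    have h2 : ∑ r ∈ range R, Real.sqrt (Φ h r) ^ 2 = R * (1 - c * SS L) ^ J := by
      rw [← hsumΦ h hh hhH]
      exact Finset.sum_congr rfl fun r _ => Real.sq_sqrt (hΦ0 h r)
    rw [h2] at h1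
    refine abs_le_of_sq_le_sq' ?_ (by positivity) |>.2
    calc _ ≤ _ := h1
      _ ≤ (R : ℝ) * (R * (η / 4) ^ 2) := by gcongr
      _ = (R * (η / 4)) ^ 2 := by ring
  -- a pair of distant times
  have hpair : ∀ (h : ℤ) (r r' : ℕ), r' < R → r + N ≤ r' →
      ‖∫ ω, e ((h * (b : ℝ) ^ (α * (m' + T * Q * r')) - h * (b : ℝ) ^ (α * (m' + T * Q * r))) *
        X a ε y ω) ∂μ‖ ≤ Real.sqrt (Φ h r) := by
    intro h r r' hr' hrr'
    obtain ⟨z, rfl⟩ := Nat.exists_eq_add_of_le hrr'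
    refine Real.le_sqrt_of_sq_le ?_
    have e0 : m' + T * Q * (r + N + z) = (m' + T * Q * r) + T * Q * (N + z) := by ring
    have hTQ : 1 ≤ T * Q := Nat.mul_pos g8 hQ0
    have hNz : N ≤ T * Q * (N + z) := by
      calc N ≤ N + z := Nat.le_add_right _ _
        _ = 1 * (N + z) := (one_mul _).symm
        _ ≤ T * Q * (N + z) := Nat.mul_le_mul_right _ hTQ
    rw [e0]
    refine (pair_le ha hε hind hM y hbg hLM (δ := δ) (A := A) ?_ ?_ h).trans ?_
    · intro n hn u
      rw [hA, Finset.mem_image] at hn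
      obtain ⟨i, hi, rfl⟩ := hn
      rw [Finset.mem_range] at hi
      have e1 : β * (m' + T * Q * r) + (j₀ - 1 + Q * i) =
          M₀ + q * (i₀ + β * (T * l * r) + l * i) := by
        have e2 : β * m' + (j₀ - 1) = M₀ + q * i₀ := by omega
        calc β * (m' + T * Q * r) + (j₀ - 1 + Q * i)
            = (β * m' + (j₀ - 1)) + (β * (T * Q * r) + Q * i) := by ring
          _ = (M₀ + q * i₀) + (β * (T * Q * r) + Q * i) := by rw [e2]
          _ = _ := by rw [hQ]; ring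
      rw [e1]
      refine hlaw _ ?_ u
      -- the size
      have haN : a ^ N = p ^ (v * N) * a' ^ N := by rw [hav, mul_pow, ← pow_mul]
      have hNa : N ≤ a ^ N := (Nat.lt_pow_self (by omega : 1 < a)).le
      have b1 : β * m ≤ β * C * a ^ N := by
        rw [mul_assoc]
        exact Nat.mul_le_mul_left β (g6.trans (Nat.mul_le_mul_left C hNa))
      have b2 : β * (T * l * r) ≤ β * l * C * a ^ N := by
        have hr : r ≤ R := by omega
        calc β * (T * l * r) ≤ β * (C * a' ^ N * l * R) := by gcongr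
          _ = β * l * C * (p ^ (v * N) * a' ^ N) := by rw [hR]; ring
          _ = _ := by rw [haN]
      have b3 : l * i ≤ Q * J := Nat.mul_le_mul hlQ hi.le
      have b4 : i₀ + β * (T * l * r) + l * i ≤ c₂ * a ^ N := by
        calc i₀ + β * (T * l * r) + l * i
            ≤ β * C * a ^ N + N + β * l * C * a ^ N + N := by omega
          _ ≤ β * C * a ^ N + a ^ N + β * l * C * a ^ N + a ^ N := by omega
          _ = c₂ * a ^ N := by rw [hc₂]; ring
      have b5 : N ≤ q * c₁ := by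
        have f1 : k₁ ≤ q * k₁ := Nat.le_mul_of_pos_left _ hq
        have f2 : l ≤ q * l := Nat.le_mul_of_pos_left _ hq
        have f3 : β ≤ q * β := Nat.le_mul_of_pos_left _ hq
        calc N = k₁ + q * l + l + β + q * (l * J) := by rw [hN, hQ]; ring
          _ ≤ q * k₁ + q * l + q * l + q * β + q * (l * J) := by omega
          _ = q * c₁ := by rw [hc₁]; ring
      calc i₀ + β * (T * l * r) + l * i ≤ c₂ * a ^ N := b4
        _ ≤ c₂ ^ q * a ^ (q * c₁) := by
            refine Nat.mul_le_mul ?_ (Nat.pow_le_pow_right (by omega) b5)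
            calc c₂ = c₂ ^ 1 := (pow_one _).symm
              _ ≤ c₂ ^ q := Nat.pow_le_pow_right (by omega) hq
        _ = (c₂ * a ^ c₁) ^ q := by rw [mul_pow, ← pow_mul, mul_comm c₁ q]
    · intro n hn
      calc n + 1 ≤ N := hmax n hn
        _ ≤ T * Q * (N + z) := hNz
        _ ≤ β * (T * Q * (N + z)) := Nat.le_mul_of_pos_left _ hβ
    · rw [hΦ]
      refine Finset.prod_le_prod (fun n _ => ?_) fun n _ => ?_
      · exact hδW _
      · have := mul_le_mul_of_nonneg_right hcδ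
          (W_nonneg L ((h * (g : ℝ) ^ (m' + T * Q * r)) / (a : ℝ) ^ (n + 1)))
        linarith
  refine ⟨R, hR0, fun r => α * (m' + T * Q * r), fun h hh hhH => ?_⟩
  refine (integral_sq_le (measurable_X ha hε hM y) R
    (fun r => h * (b : ℝ) ^ (α * (m' + T * Q * r)))).trans ?_
  have hterm : ∀ r ∈ range R, ∀ r' ∈ range R,
      ‖∫ ω, e ((h * (b : ℝ) ^ (α * (m' + T * Q * r)) - h * (b : ℝ) ^ (α * (m' + T * Q * r'))) *
        X a ε y ω) ∂μ‖ ≤ Real.sqrt (Φ (-h) r) + Real.sqrt (Φ h r') +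
        (if r < r' + N ∧ r' < r + N then (1 : ℝ) else 0) := by
    intro r hr r' hr'
    rw [Finset.mem_range] at hr hr'
    have hs1 := Real.sqrt_nonneg (Φ (-h) r)
    have hs2 := Real.sqrt_nonneg (Φ h r')
    by_cases hnear : r < r' + N ∧ r' < r + N
    · rw [if_pos hnear]
      have h1 : ‖∫ ω, e ((h * (b : ℝ) ^ (α * (m' + T * Q * r)) -
          h * (b : ℝ) ^ (α * (m' + T * Q * r'))) * X a ε y ω) ∂μ‖ ≤ 1 := by
        have := norm_integral_le_of_norm_le_const (μ := μ)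
          (f := fun ω => e ((h * (b : ℝ) ^ (α * (m' + T * Q * r)) -
            h * (b : ℝ) ^ (α * (m' + T * Q * r'))) * X a ε y ω)) (C := 1)
          (Filter.Eventually.of_forall fun ω => (norm_e _).le)
        simpa using this
      linarith
    · rw [if_neg hnear]
      rcases lt_or_ge r (r' + N) with h1 | h1
      · have h2 : r + N ≤ r' := by
          by_contra hcon
          exact hnear ⟨h1, by omega⟩
        have h3 := hpair (-h) r r' hr' h2
        have h4 : (((-h : ℤ) : ℝ) * (b : ℝ) ^ (α * (m' + T * Q * r')) -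
            ((-h : ℤ) : ℝ) * (b : ℝ) ^ (α * (m' + T * Q * r))) =
            h * (b : ℝ) ^ (α * (m' + T * Q * r)) - h * (b : ℝ) ^ (α * (m' + T * Q * r')) := by
          push_cast; ring
        rw [h4] at h3
        linarith
      · have h3 := hpair h r' r hr h1
        linarith
  have hRN : 4 * (N : ℝ) ≤ η * R := by
    refine (hJ2 N hJN).trans ?_
    refine mul_le_mul_of_nonneg_left ?_ hη.le
    have h1 : 2 ^ N ≤ R := by
      calc 2 ^ N ≤ p ^ N := Nat.pow_le_pow_left hp.two_le N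
        _ ≤ p ^ (v * N) := Nat.pow_le_pow_right hp.pos (Nat.le_mul_of_pos_left N hv)
    exact_mod_cast h1
  calc _ ≤ ∑ r ∈ range R, ∑ r' ∈ range R, (Real.sqrt (Φ (-h) r) + Real.sqrt (Φ h r') +
        (if r < r' + N ∧ r' < r + N then (1 : ℝ) else 0)) :=
        Finset.sum_le_sum fun r hr => Finset.sum_le_sum fun r' hr' => hterm r hr r' hr'
    _ ≤ ∑ r ∈ range R, (R * Real.sqrt (Φ (-h) r) + R * (η / 4) + 2 * N) := by
        refine Finset.sum_le_sum fun r _ => ?_
        rw [Finset.sum_add_distrib, Finset.sum_add_distrib]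
        refine add_le_add (add_le_add ?_ (hsqrt h hh hhH)) (card_near N R r)
        simp
    _ = R * ∑ r ∈ range R, Real.sqrt (Φ (-h) r) + R * (R * (η / 4)) + R * (2 * N) := by
        rw [Finset.sum_add_distrib, Finset.sum_add_distrib, ← Finset.mul_sum]
        simp
    _ ≤ R * (R * (η / 4)) + R * (R * (η / 4)) + R * (2 * N) := by
        have := hsqrt (-h) (neg_ne_zero.2 hh) (by rwa [abs_neg])
        gcongr
    _ ≤ (R : ℝ) ^ 2 * η := by
        have h1 : (R : ℝ) * (4 * N) ≤ R * (η * R) := by gcongr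
        nlinarith [h1]

end Pool.Agent.N440.FO
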