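import Pool.Agent.N440.FO.Psi
import Pool.Agent.N440.FO.Arith2

/-! # Bounds for pairs of times, bases with common prime factors -/

set_option autoImplicit false

open Finset MeasureTheory ProbabilityTheory Filter Topology

namespace Pool.Agent.N440.FO

variable {Ω : Type*} [MeasurableSpace Ω] {μ : Measure Ω} [IsProbabilityMeasure μ]

theorem sum_law_one {ξ : Ω → ℤ} (hξ : Measurable ξ) {M : ℤ} (hM : ∀ ω, |ξ ω| ≤ M) :
    ∑ d ∈ Finset.Icc (-M) M, μ.real {ω | ξ ω = d} = 1 := by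
  have h := integral_digit (μ := μ) hξ hM (fun _ => 1)
  simp only [integral_const, probReal_univ, mul_one, smul_eq_mul, one_smul] at h
  exact_mod_cast h.symm

/-- one factor -/
theorem D_sq_le {a : ℕ} {ε : ℕ → Ω → ℤ} (hε : ∀ n, Measurable (ε n)) {M : ℤ}
    (hM : ∀ n ω, |ε n ω| ≤ M) {L : ℕ} (hL : 2 * M ≤ L) {δ : ℝ} {n : ℕ}
    (hlaw : ∀ u : ℤ, μ.real {ω | ε n ω = u} ≤ 1 - δ) {θ x : ℝ} {k : ℤ}
    (hθ : θ / (a : ℝ) ^ (n + 1) = k - x) :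
    ‖D μ a ε θ n‖ ^ 2 ≤ 1 - δ / (2 * 4 ^ L) * W L x := by
  have h1 : D μ a ε θ n = (starRingEnd ℂ)
      (∑ u ∈ Finset.Icc (-M) M, (μ.real {ω | ε n ω = u} : ℂ) * e (u * x)) := by
    unfold D
    rw [integral_digit (hε n) (hM n) (fun z => e (θ * ((z : ℝ) / (a : ℝ) ^ (n + 1)))), map_sum]
    refine Finset.sum_congr rfl fun u _ => ?_
    rw [map_mul, Complex.conj_ofReal, ← e_neg]
    congr 1
    have h2 : θ * ((u : ℝ) / (a : ℝ) ^ (n + 1)) = ((u * k : ℤ) : ℝ) + -(u * x) := by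
      rw [mul_div_assoc', mul_comm, mul_div_assoc, hθ]
      push_cast
      ring
    rw [h2, e_add, e_int, one_mul]
  rw [h1, Complex.norm_conj]
  exact law_le hL (fun _ => measureReal_nonneg) (sum_law_one (hε n) (hM n)) hlaw x

/-- a pair of times -/
theorem pair_le {a : ℕ} (ha : 2 ≤ a) {ε : ℕ → Ω → ℤ} (hε : ∀ n, Measurable (ε n))
    (hind : iIndepFun ε μ) {M : ℤ} (hM : ∀ n ω, |ε n ω| ≤ M) (y : ℝ) {b α β g : ℕ}
    (hbg : b ^ α = a ^ β * g) {L : ℕ} (hL : 2 * M ≤ L) {δ : ℝ} {A : Finset ℕ} {τ D' : ℕ}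
    (hlaw : ∀ n ∈ A, ∀ u : ℤ, μ.real {ω | ε (β * τ + n) ω = u} ≤ 1 - δ)
    (hD : ∀ n ∈ A, n + 1 ≤ β * D') (h : ℤ) :
    ‖∫ ω, e ((h * (b : ℝ) ^ (α * (τ + D')) - h * (b : ℝ) ^ (α * τ)) * X a ε y ω) ∂μ‖ ^ 2 ≤
      ∏ n ∈ A, (1 - δ / (2 * 4 ^ L) * W L ((h * (g : ℝ) ^ τ) / (a : ℝ) ^ (n + 1))) := by
  classical
  have ha0 : (a : ℝ) ≠ 0 := by exact_mod_cast (by omega : a ≠ 0)
  have hbgR : (b : ℝ) ^ α = (a : ℝ) ^ β * g := by exact_mod_cast hbg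
  have hb1 : ∀ t : ℕ, (b : ℝ) ^ (α * t) = (a : ℝ) ^ (β * t) * (g : ℝ) ^ t := by
    intro t
    rw [pow_mul, hbgR, mul_pow, ← pow_mul]
  set θ : ℝ := h * (b : ℝ) ^ (α * (τ + D')) - h * (b : ℝ) ^ (α * τ) with hθ
  have h1 := norm_integral_X_le ha hε hind hM y θ (A.image (fun n => β * τ + n))
  have h2 : ‖∏ n ∈ A.image (fun n => β * τ + n), D μ a ε θ n‖ ^ 2 =
      ∏ n ∈ A, ‖D μ a ε θ (β * τ + n)‖ ^ 2 := by
    rw [Finset.prod_image (fun x _ y _ hxy => by simpa using hxy), norm_prod, Finset.prod_pow]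
  calc _ ≤ ‖∏ n ∈ A.image (fun n => β * τ + n), D μ a ε θ n‖ ^ 2 := by gcongr
    _ = ∏ n ∈ A, ‖D μ a ε θ (β * τ + n)‖ ^ 2 := h2
    _ ≤ _ := by
        refine Finset.prod_le_prod (fun n _ => by positivity) fun n hn => ?_
        obtain ⟨w, hw⟩ := Nat.exists_eq_add_of_le (hD n hn)
        refine D_sq_le hε hM hL (hlaw n hn) (k := h * (a : ℤ) ^ w * (g : ℤ) ^ (τ + D')) ?_
        rw [hθ, hb1, hb1, mul_add β τ D', hw]
        push_cast
        have e1 : (a : ℝ) ^ (β * τ + (n + 1 + w)) =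
            (a : ℝ) ^ (β * τ + n + 1) * (a : ℝ) ^ w := by
          rw [← pow_add]; congr 1; ring
        have e2 : (a : ℝ) ^ (β * τ + n + 1) = (a : ℝ) ^ (β * τ) * (a : ℝ) ^ (n + 1) := by
          rw [← pow_add]; congr 1
        rw [e1, sub_div]
        congr 1
        · have : (a : ℝ) ^ (β * τ + n + 1) ≠ 0 := pow_ne_zero _ ha0
          field_simp
        · rw [e2]
          have : (a : ℝ) ^ (β * τ) ≠ 0 := pow_ne_zero _ ha0
          field_simp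

/-- the sum of the majorants -/
theorem sum_Phi {p a a' v g k₁ N m T c' : ℕ} (hp : p.Prime) (ha : 0 < a) (hpa : p ∣ a)
    (hav : a = p ^ v * a') (hpa' : ¬ p ∣ a') (hv : 1 ≤ v) (ha'0 : 0 < a')
    (h1 : (p : ℤ) ∣ ((g ^ T : ℕ) : ℤ) - 1) (h2 : p = 2 → (4 : ℤ) ∣ ((g ^ T : ℕ) : ℤ) - 1)
    (h3 : 2 ≤ g ^ T) (h4 : (g : ℤ) ^ m * (((g ^ T : ℕ) : ℤ) - 1) = (a' : ℤ) ^ N * c')
    (h5 : ¬ (p : ℤ) ^ k₁ ∣ (c' : ℤ)) {L l H : ℕ}
    (hl : (H : ℤ) * ((pol L).natDegree : ℤ) < (p : ℤ) ^ l) {A : Finset ℕ}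
    (hgap : ∀ i ∈ A, ∀ j ∈ A, i < j → i + l ≤ j) (hmin : ∀ n ∈ A, k₁ + l ≤ n + 1)
    (hmax : ∀ n ∈ A, n + 1 ≤ N) {h : ℤ} (hh : h ≠ 0) (hhH : |h| ≤ H) (c : ℝ) :
    ∑ r ∈ range (p ^ (v * N)), ∏ n ∈ A,
      (1 - c * W L ((h * (g : ℝ) ^ (m + T * r)) / (a : ℝ) ^ (n + 1))) =
      ((p ^ (v * N) : ℕ) : ℝ) * (1 - c * SS L) ^ A.card := by
  classical
  set U := (pol L).natDegree with hU
  set I := range (U + 1) ×ˢ range (U + 1) with hI
  set C : ℕ × ℕ → ℂ := fun j => (if j = (0, 0) then 1 else 0) - (c : ℂ) * ((pol L).coeff j.1 *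
        (starRingEnd ℂ) ((pol L).coeff j.2)) with hC
  set s : ℕ × ℕ → ℤ := fun j => (j.1 : ℤ) - (j.2 : ℤ) with hs
  have hsU : ∀ j ∈ I, |s j| ≤ U := by
    intro j hj
    rw [hI, Finset.mem_product, Finset.mem_range, Finset.mem_range] at hj
    rw [hs, abs_le]
    constructor <;> simp only <;> omega
  have key := sum_prod a A I C s (p ^ (v * N)) (fun r => h * (g : ℝ) ^ (m + T * r)) ?_
  · have hd : ∑ j ∈ I.filter (fun j => s j = 0), C j = ((1 - c * SS L : ℝ) : ℂ) := diag L c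
    rw [hd] at key
    have he : ∀ r, ∏ n ∈ A, ∑ j ∈ I, C j * e ((s j : ℝ) *
        ((h * (g : ℝ) ^ (m + T * r)) / (a : ℝ) ^ (n + 1))) =
        ((∏ n ∈ A, (1 - c * W L ((h * (g : ℝ) ^ (m + T * r)) / (a : ℝ) ^ (n + 1))) : ℝ) : ℂ) := by
      intro r
      rw [Complex.ofReal_prod]
      refine Finset.prod_congr rfl fun n _ => ?_
      exact (psi_expand L c _).symm
    simp_rw [he] at key
    rw [← Complex.ofReal_sum] at key
    exact_mod_cast key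
  · intro d hd hne
    set δ : ℕ → ℤ := fun i => if hi : i ∈ A then s (d ⟨i, hi⟩) else 0 with hδ
    have hδA : ∀ i : A, δ i = s (d i) := by
      intro i
      rw [hδ]
      simp only
      rw [dif_pos i.2]
    have hval : ∑ i : A, (s (d i) : ℝ) / (a : ℝ) ^ ((i : ℕ) + 1) =
        ∑ i ∈ A, (δ i : ℝ) / (a : ℝ) ^ (i + 1) := by
      rw [← Finset.sum_coe_sort A]
      refine Finset.sum_congr rfl fun i _ => ?_
      rw [hδA i]
    have hbd : ∀ i ∈ A, |δ i| ≤ U := by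
      intro i hi
      have e1 := hδA ⟨i, hi⟩
      simp only at e1
      rw [e1]
      exact hsU _ (hd _)
    have hex : ∃ i ∈ A, δ i ≠ 0 := by
      obtain ⟨i, hi⟩ := hne
      exact ⟨i, i.2, by rw [hδA i]; exact hi⟩
    have hl2 : |h| * (U : ℤ) < (p : ℤ) ^ l :=
      lt_of_le_of_lt (mul_le_mul_of_nonneg_right hhH (by positivity)) hl
    obtain ⟨n, hn, κ, hκ, hκe⟩ := comb hpa (by omega) hgap hbd hex hh hl2
    have hva := vanish hp (b := g) hpa' hv ha'0 h1 h2 h3 h4 h5 hκ (n := n + 1)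
      (hmin n hn) (hmax n hn)
    rw [← hav] at hva
    rw [← hva]
    refine Finset.sum_congr rfl fun r _ => ?_
    congr 1
    rw [hval, ← hκe]
    ring

end Pool.Agent.N440.FO
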