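import Pool.Agent.N440.FO.Coll

/-! # Characteristic functions of sums of independent digits -/

set_option autoImplicit false

open Finset MeasureTheory ProbabilityTheory Filter Topology

namespace Pool.Agent.N440.FO

theorem e_sum {ι : Type*} (s : Finset ι) (f : ι → ℝ) : e (∑ i ∈ s, f i) = ∏ i ∈ s, e (f i) := by
  classical
  induction s using Finset.induction_on with
  | empty => simp [e_zero]
  | insert i s hi ih => rw [Finset.sum_insert hi, Finset.prod_insert hi, e_add, ih]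

theorem measurable_e : Measurable e := continuous_e.measurable

variable {Ω : Type*} [MeasurableSpace Ω] {μ : Measure Ω} [IsProbabilityMeasure μ]

/-- the law of a bounded integer valued variable -/
theorem integral_digit {ξ : Ω → ℤ} (hξ : Measurable ξ) {M : ℤ} (hM : ∀ ω, |ξ ω| ≤ M) (f : ℤ → ℂ) :
    ∫ ω, f (ξ ω) ∂μ = ∑ d ∈ Finset.Icc (-M) M, (μ.real {ω | ξ ω = d} : ℂ) * f d := by
  have h1 : ∀ ω, f (ξ ω) = ∑ d ∈ Finset.Icc (-M) M,
      Set.indicator {ω | ξ ω = d} (fun _ => f d) ω := by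
    intro ω
    rw [Finset.sum_eq_single (ξ ω)]
    · simp
    · intro d _ hd
      rw [Set.indicator_of_notMem]
      exact fun h => hd h.symm
    · intro h
      exact absurd (Finset.mem_Icc.2 (abs_le.1 (hM ω))) h
  have hms : ∀ d : ℤ, MeasurableSet {ω | ξ ω = d} := fun d => hξ (measurableSet_singleton d)
  simp_rw [h1]
  rw [integral_finsetSum]
  · refine Finset.sum_congr rfl fun d _ => ?_
    rw [integral_indicator_const _ (hms d)]
    rfl
  · intro d _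
    exact (integrable_const _).indicator (hms d)

/-- the random number -/
noncomputable def X (a : ℕ) (ε : ℕ → Ω → ℤ) (y : ℝ) (ω : Ω) : ℝ :=
  y + ∑' n, (ε n ω : ℝ) / (a : ℝ) ^ (n + 1)

theorem summable_digits {a : ℕ} (ha : 2 ≤ a) {ε : ℕ → ℤ} {M : ℤ} (hM : ∀ n, |ε n| ≤ M) :
    Summable (fun n => (ε n : ℝ) / (a : ℝ) ^ (n + 1)) := by
  have ha1 : (1 : ℝ) < a := by exact_mod_cast (by omega : 1 < a)
  have ha0 : (0 : ℝ) < a := by linarith
  have hgeo : Summable (fun n : ℕ => (M : ℝ) * (1 / (a : ℝ)) ^ (n + 1)) :=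
    ((summable_nat_add_iff 1).2 (summable_geometric_of_lt_one (by positivity)
      ((div_lt_one ha0).2 ha1))).mul_left _
  refine Summable.of_norm_bounded hgeo fun n => ?_
  rw [norm_div, Real.norm_eq_abs, norm_pow, Real.norm_of_nonneg ha0.le, one_div, inv_pow,
    ← div_eq_mul_inv]
  gcongr
  exact_mod_cast hM n

/-- the partial sums -/
noncomputable def XL (a : ℕ) (ε : ℕ → Ω → ℤ) (y : ℝ) (L : ℕ) (ω : Ω) : ℝ :=
  y + ∑ n ∈ range L, (ε n ω : ℝ) / (a : ℝ) ^ (n + 1)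

theorem tendsto_XL {a : ℕ} (ha : 2 ≤ a) {ε : ℕ → Ω → ℤ} {M : ℤ} (hM : ∀ n ω, |ε n ω| ≤ M) (y : ℝ)
    (ω : Ω) : Tendsto (fun L => XL a ε y L ω) atTop (𝓝 (X a ε y ω)) := by
  unfold XL X
  exact ((summable_digits ha (fun n => hM n ω)).hasSum.tendsto_sum_nat).const_add y

theorem measurable_XL {a : ℕ} {ε : ℕ → Ω → ℤ} (hε : ∀ n, Measurable (ε n)) (y : ℝ) (L : ℕ) :
    Measurable (XL a ε y L) := by
  unfold XL
  refine measurable_const.add (Finset.measurable_sum _ fun n _ => ?_)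
  exact (measurable_from_top.comp (hε n)).div_const _

theorem measurable_X {a : ℕ} (ha : 2 ≤ a) {ε : ℕ → Ω → ℤ} (hε : ∀ n, Measurable (ε n)) {M : ℤ}
    (hM : ∀ n ω, |ε n ω| ≤ M) (y : ℝ) : Measurable (X a ε y) :=
  measurable_of_tendsto_metrizable (fun L => measurable_XL hε y L)
    (tendsto_pi_nhds.2 fun ω => tendsto_XL ha hM y ω)

/-- the factors -/
noncomputable def D (μ : Measure Ω) (a : ℕ) (ε : ℕ → Ω → ℤ) (θ : ℝ) (n : ℕ) : ℂ :=
  ∫ ω, e (θ * ((ε n ω : ℝ) / (a : ℝ) ^ (n + 1))) ∂μ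

theorem norm_D_le (a : ℕ) (ε : ℕ → Ω → ℤ) (θ : ℝ) (n : ℕ) : ‖D μ a ε θ n‖ ≤ 1 := by
  unfold D
  have := norm_integral_le_of_norm_le_const (μ := μ)
    (f := fun ω => e (θ * ((ε n ω : ℝ) / (a : ℝ) ^ (n + 1)))) (C := 1)
    (Filter.Eventually.of_forall fun ω => (norm_e _).le)
  simpa using this

theorem integral_XL {a : ℕ} {ε : ℕ → Ω → ℤ} (hε : ∀ n, Measurable (ε n))
    (hind : iIndepFun ε μ) (y θ : ℝ) (L : ℕ) :
    ∫ ω, e (θ * XL a ε y L ω) ∂μ = e (θ * y) * ∏ n ∈ range L, D μ a ε θ n := by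
  have h1 : ∀ ω, e (θ * XL a ε y L ω) = e (θ * y) *
      ∏ n : range L, (fun z : ℤ => e (θ * ((z : ℝ) / (a : ℝ) ^ ((n : ℕ) + 1)))) (ε n ω) := by
    intro ω
    unfold XL
    rw [mul_add, e_add, Finset.mul_sum, e_sum]
    congr 1
    exact (Finset.prod_coe_sort (range L)
      (fun n => e (θ * ((ε n ω : ℝ) / (a : ℝ) ^ (n + 1))))).symm
  simp_rw [h1]
  rw [integral_const_mul]
  congr 1
  have hX : iIndepFun (fun n : range L => ε n) μ := hind.precomp Subtype.val_injective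
  have h2 := hX.integral_fun_prod_comp
    (f := fun n : range L => fun z : ℤ => e (θ * ((z : ℝ) / (a : ℝ) ^ ((n : ℕ) + 1))))
    (fun n => (hε n).aemeasurable)
    (fun n => (measurable_of_countable _).aestronglyMeasurable)
  rw [h2]
  exact Finset.prod_coe_sort (range L) (fun n => D μ a ε θ n)

theorem norm_integral_X_le {a : ℕ} (ha : 2 ≤ a) {ε : ℕ → Ω → ℤ} (hε : ∀ n, Measurable (ε n))
    (hind : iIndepFun ε μ) {M : ℤ} (hM : ∀ n ω, |ε n ω| ≤ M) (y θ : ℝ) (A : Finset ℕ) :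
    ‖∫ ω, e (θ * X a ε y ω) ∂μ‖ ≤ ‖∏ n ∈ A, D μ a ε θ n‖ := by
  have h1 : Tendsto (fun L => ∫ ω, e (θ * XL a ε y L ω) ∂μ) atTop
      (𝓝 (∫ ω, e (θ * X a ε y ω) ∂μ)) := by
    refine tendsto_integral_of_dominated_convergence (fun _ => (1 : ℝ)) ?_ (integrable_const _) ?_ ?_
    · intro L
      exact (measurable_e.comp ((measurable_XL hε y L).const_mul θ)).aestronglyMeasurable
    · intro L
      exact Filter.Eventually.of_forall fun ω => (norm_e _).le
    · refine Filter.Eventually.of_forall fun ω => ?_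
      exact (continuous_e.tendsto _).comp ((tendsto_XL ha hM y ω).const_mul θ)
  refine le_of_tendsto h1.norm ?_
  obtain ⟨L₀, hL₀⟩ : ∃ L₀, A ⊆ range L₀ := by
    refine ⟨A.sup id + 1, fun i hi => ?_⟩
    rw [Finset.mem_range]
    have := Finset.le_sup (f := id) hi
    simp only [id] at this
    omega
  filter_upwards [eventually_ge_atTop L₀] with L hL
  rw [integral_XL hε hind, norm_mul, norm_e, one_mul]
  have hsub : A ⊆ range L := hL₀.trans (Finset.range_subset_range.2 hL)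
  rw [← Finset.prod_sdiff hsub, norm_mul]
  calc _ ≤ 1 * ‖∏ n ∈ A, D μ a ε θ n‖ := by
        refine mul_le_mul_of_nonneg_right ?_ (norm_nonneg _)
        rw [norm_prod]
        exact Finset.prod_le_one (fun _ _ => norm_nonneg _) (fun n _ => norm_D_le a ε θ n)
    _ = _ := one_mul _

/-- the index set of the digit vectors -/
noncomputable def vecs (M : ℤ) (A : Finset ℕ) : Finset (A → ℤ) := Fintype.piFinset fun _ => Finset.Icc (-M) M

/-- the weight of a digit vector -/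
noncomputable def wt (μ : Measure Ω) (ε : ℕ → Ω → ℤ) (A : Finset ℕ) (d : A → ℤ) : ℝ :=
  ∏ i : A, μ.real {ω | ε i ω = d i}

/-- the value of a digit vector -/
noncomputable def val (a : ℕ) (A : Finset ℕ) (d : A → ℤ) : ℝ :=
  ∑ i : A, (d i : ℝ) / (a : ℝ) ^ ((i : ℕ) + 1)

theorem prod_D {a : ℕ} {ε : ℕ → Ω → ℤ} (hε : ∀ n, Measurable (ε n))
    {M : ℤ} (hM : ∀ n ω, |ε n ω| ≤ M) (θ : ℝ) (A : Finset ℕ) :
    ∏ n ∈ A, D μ a ε θ n = ∑ d ∈ vecs M A, (wt μ ε A d : ℂ) * e (θ * val a A d) := by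
  rw [← Finset.prod_coe_sort]
  have h1 : ∀ n : A, D μ a ε θ n = ∑ d ∈ Finset.Icc (-M) M, (μ.real {ω | ε n ω = d} : ℂ) *
      e (θ * ((d : ℝ) / (a : ℝ) ^ ((n : ℕ) + 1))) := by
    intro n
    exact integral_digit (hε n) (hM n) (fun z => e (θ * ((z : ℝ) / (a : ℝ) ^ ((n : ℕ) + 1))))
  rw [Finset.prod_congr rfl fun n _ => h1 n, Finset.prod_univ_sum]
  refine Finset.sum_congr rfl fun d _ => ?_
  rw [Finset.prod_mul_distrib]
  unfold wt val
  rw [Finset.mul_sum, e_sum]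
  push_cast
  rfl

theorem sum_wt_sq {ε : ℕ → Ω → ℤ} (M : ℤ) (A : Finset ℕ) :
    ∑ d ∈ vecs M A, wt μ ε A d ^ 2 =
      ∏ n ∈ A, ∑ d ∈ Finset.Icc (-M) M, μ.real {ω | ε n ω = d} ^ 2 := by
  rw [← Finset.prod_coe_sort, Finset.prod_univ_sum]
  refine Finset.sum_congr rfl fun d _ => ?_
  unfold wt
  rw [← Finset.prod_pow]

/-- The second moment of an exponential sum along the times `t r`. -/
theorem integral_sq_le {Y : Ω → ℝ} (hY : Measurable Y) (R : ℕ) (t : ℕ → ℝ) :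
    ∫ ω, ‖∑ r ∈ range R, e (t r * Y ω)‖ ^ 2 ∂μ ≤
      ∑ r ∈ range R, ∑ r' ∈ range R, ‖∫ ω, e ((t r - t r') * Y ω) ∂μ‖ := by
  have h1 : ∀ ω, ((‖∑ r ∈ range R, e (t r * Y ω)‖ ^ 2 : ℝ) : ℂ) =
      ∑ r ∈ range R, ∑ r' ∈ range R, e ((t r - t r') * Y ω) := by
    intro ω
    rw [Complex.ofReal_pow, ← Complex.mul_conj', map_sum, Finset.sum_mul_sum]
    refine Finset.sum_congr rfl fun r _ => Finset.sum_congr rfl fun r' _ => ?_
    rw [e_sub_mul]
  have hint : ∀ s : ℝ, Integrable (fun ω => e (s * Y ω)) μ := by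
    intro s
    refine Integrable.of_bound (C := 1)
      (measurable_e.comp (hY.const_mul s)).aestronglyMeasurable ?_
    exact Filter.Eventually.of_forall fun ω => (norm_e _).le
  have h2 : ((∫ ω, ‖∑ r ∈ range R, e (t r * Y ω)‖ ^ 2 ∂μ : ℝ) : ℂ) =
      ∑ r ∈ range R, ∑ r' ∈ range R, ∫ ω, e ((t r - t r') * Y ω) ∂μ := by
    rw [← integral_complex_ofReal]
    simp_rw [h1]
    rw [integral_finsetSum _ fun r _ => integrable_finsetSum _ fun r' _ => hint _]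
    refine Finset.sum_congr rfl fun r _ => ?_
    rw [integral_finsetSum _ fun r' _ => hint _]
  have h3 : 0 ≤ ∫ ω, ‖∑ r ∈ range R, e (t r * Y ω)‖ ^ 2 ∂μ :=
    integral_nonneg fun ω => by positivity
  calc ∫ ω, ‖∑ r ∈ range R, e (t r * Y ω)‖ ^ 2 ∂μ
      = ‖((∫ ω, ‖∑ r ∈ range R, e (t r * Y ω)‖ ^ 2 ∂μ : ℝ) : ℂ)‖ := by
        rw [Complex.norm_real, Real.norm_of_nonneg h3]
    _ = ‖∑ r ∈ range R, ∑ r' ∈ range R, ∫ ω, e ((t r - t r') * Y ω) ∂μ‖ := by rw [h2]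
    _ ≤ ∑ r ∈ range R, ‖∑ r' ∈ range R, ∫ ω, e ((t r - t r') * Y ω) ∂μ‖ := norm_sum_le _ _
    _ ≤ _ := Finset.sum_le_sum fun r _ => norm_sum_le _ _

end Pool.Agent.N440.FO
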