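import Pool.Agent.N440.FO.Prob

/-! # A trigonometric polynomial bounding the characteristic functions of nondegenerate digits -/

set_option autoImplicit false

open Finset MeasureTheory ProbabilityTheory Filter Topology

namespace Pool.Agent.N440.FO

/-- the polynomial `∏_{k ≤ L} (1 - X ^ k)` -/
noncomputable def pol (L : ℕ) : Polynomial ℂ := ∏ k ∈ range L, (1 - Polynomial.X ^ (k + 1))

theorem pol_eval (L : ℕ) (z : ℂ) : (pol L).eval z = ∏ k ∈ range L, (1 - z ^ (k + 1)) := by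
  unfold pol
  rw [Polynomial.eval_prod]
  refine Finset.prod_congr rfl fun k _ => ?_
  simp

theorem pol_coeff_zero (L : ℕ) : (pol L).coeff 0 = 1 := by
  rw [Polynomial.coeff_zero_eq_eval_zero, pol_eval]
  refine Finset.prod_eq_one fun k _ => ?_
  simp

/-- the square of the absolute value of the trigonometric polynomial -/
noncomputable def W (L : ℕ) (φ : ℝ) : ℝ := ‖(pol L).eval (e φ)‖ ^ 2

theorem W_nonneg (L : ℕ) (φ : ℝ) : 0 ≤ W L φ := by unfold W; positivity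

theorem W_le_pow (L : ℕ) (φ : ℝ) : W L φ ≤ 4 ^ L := by
  unfold W
  rw [pol_eval, norm_prod, ← Finset.prod_pow]
  calc _ ≤ ∏ _k ∈ range L, (4 : ℝ) := by
        refine Finset.prod_le_prod (fun k _ => by positivity) fun k _ => ?_
        have h1 : ‖1 - e φ ^ (k + 1)‖ ≤ 2 := by
          calc _ ≤ ‖(1 : ℂ)‖ + ‖e φ ^ (k + 1)‖ := norm_sub_le _ _
            _ = 2 := by rw [norm_pow, norm_e]; norm_num
        calc ‖1 - e φ ^ (k + 1)‖ ^ 2 ≤ 2 ^ 2 := by gcongr
          _ = 4 := by norm_num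
    _ = 4 ^ L := by simp

theorem W_le_factor {L : ℕ} (φ : ℝ) {k : ℕ} (hk : k < L) :
    W L φ ≤ 4 ^ L * ‖1 - e (((k + 1 : ℕ) : ℝ) * φ)‖ ^ 2 := by
  classical
  unfold W
  rw [pol_eval, norm_prod, ← Finset.prod_pow, ← Finset.mul_prod_erase (range L) _
    (Finset.mem_range.2 hk), mul_comm, e_nsmul]
  refine mul_le_mul_of_nonneg_right ?_ (by positivity)
  calc _ ≤ ∏ _k ∈ (range L).erase k, (4 : ℝ) := by
        refine Finset.prod_le_prod (fun k _ => by positivity) fun k _ => ?_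
        have h1 : ‖1 - e φ ^ (k + 1)‖ ≤ 2 := by
          calc _ ≤ ‖(1 : ℂ)‖ + ‖e φ ^ (k + 1)‖ := norm_sub_le _ _
            _ = 2 := by rw [norm_pow, norm_e]; norm_num
        calc ‖1 - e φ ^ (k + 1)‖ ^ 2 ≤ 2 ^ 2 := by gcongr
          _ = 4 := by norm_num
    _ = 4 ^ ((range L).erase k).card := by simp
    _ ≤ 4 ^ L := by
        refine pow_le_pow_right₀ (by norm_num) ?_
        exact (Finset.card_le_card (Finset.erase_subset _ _)).trans (by simp)

theorem W_le_diff {M : ℤ} {L : ℕ} (hL : 2 * M ≤ L) (φ : ℝ) {u u' : ℤ}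
    (hu : |u| ≤ M) (hu' : |u'| ≤ M) (hne : u ≠ u') :
    W L φ ≤ 4 ^ L * ‖e (u * φ) - e (u' * φ)‖ ^ 2 := by
  wlog hlt : u' < u generalizing u u'
  · have h1 : u < u' := lt_of_le_of_ne (not_lt.1 hlt) hne
    have := this hu' hu hne.symm h1
    rwa [norm_sub_rev] at this
  obtain ⟨k, hk⟩ := Int.eq_ofNat_of_zero_le (a := u - u' - 1) (by omega)
  have hkL : k < L := by
    have h1 := (abs_le.1 hu).2
    have h2 := (abs_le.1 hu').1
    omega
  have h2 : u = u' + (k + 1) := by omega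
  have h3 : e (u * φ) - e (u' * φ) = - e (u' * φ) * (1 - e (((k + 1 : ℕ) : ℝ) * φ)) := by
    have : (u : ℝ) * φ = u' * φ + ((k + 1 : ℕ) : ℝ) * φ := by
      rw [h2]; push_cast; ring
    rw [this, e_add]
    ring
  rw [h3, norm_mul, norm_neg, norm_e, one_mul]
  exact W_le_factor φ hkL

theorem norm_sq_diff (x y : ℝ) : ‖e x - e y‖ ^ 2 = 2 - 2 * (e x * (starRingEnd ℂ) (e y)).re := by
  rw [← Complex.normSq_eq_norm_sq, Complex.normSq_sub, Complex.normSq_eq_norm_sq,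
    Complex.normSq_eq_norm_sq, norm_e, norm_e]
  norm_num

/-- The characteristic function of a nondegenerate digit. -/
theorem law_le {M : ℤ} {L : ℕ} (hL : 2 * M ≤ L) {ν : ℤ → ℝ} (h0 : ∀ u, 0 ≤ ν u)
    (h1 : ∑ u ∈ Finset.Icc (-M) M, ν u = 1) {δ : ℝ} (hδ : ∀ u, ν u ≤ 1 - δ) (φ : ℝ) :
    ‖∑ u ∈ Finset.Icc (-M) M, (ν u : ℂ) * e (u * φ)‖ ^ 2 ≤ 1 - δ / (2 * 4 ^ L) * W L φ := by
  classical
  set I := Finset.Icc (-M) M with hI
  have key : ∑ u ∈ I, ∑ u' ∈ I, ν u * ν u' * ‖e (u * φ) - e (u' * φ)‖ ^ 2 =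
      2 - 2 * ‖∑ u ∈ I, (ν u : ℂ) * e (u * φ)‖ ^ 2 := by
    have h2 : ‖∑ u ∈ I, (ν u : ℂ) * e (u * φ)‖ ^ 2 =
        ∑ u ∈ I, ∑ u' ∈ I, ν u * ν u' * (e (u * φ) * (starRingEnd ℂ) (e (u' * φ))).re := by
      have h3 : ((‖∑ u ∈ I, (ν u : ℂ) * e (u * φ)‖ ^ 2 : ℝ) : ℂ) =
          ∑ u ∈ I, ∑ u' ∈ I, ((ν u * ν u' : ℝ) : ℂ) *
            (e (u * φ) * (starRingEnd ℂ) (e (u' * φ))) := by
        rw [Complex.ofReal_pow, ← Complex.mul_conj', map_sum, Finset.sum_mul_sum]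
        refine Finset.sum_congr rfl fun d _ => Finset.sum_congr rfl fun d' _ => ?_
        rw [map_mul, Complex.conj_ofReal]
        push_cast
        ring
      have h4 := congrArg Complex.re h3
      rw [Complex.ofReal_re, Complex.re_sum] at h4
      rw [h4]
      refine Finset.sum_congr rfl fun d _ => ?_
      rw [Complex.re_sum]
      refine Finset.sum_congr rfl fun d' _ => ?_
      rw [Complex.re_ofReal_mul]
    have h5 : ∑ u ∈ I, ∑ u' ∈ I, ν u * ν u' = 1 := by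
      rw [← Finset.sum_mul_sum, h1]; norm_num
    have h6 : ∑ u ∈ I, ∑ u' ∈ I, ν u * ν u' * ‖e (u * φ) - e (u' * φ)‖ ^ 2 =
        2 * ∑ u ∈ I, ∑ u' ∈ I, ν u * ν u' -
        2 * ∑ u ∈ I, ∑ u' ∈ I, ν u * ν u' * (e (u * φ) * (starRingEnd ℂ) (e (u' * φ))).re := by
      rw [Finset.mul_sum, Finset.mul_sum, ← Finset.sum_sub_distrib]
      refine Finset.sum_congr rfl fun u _ => ?_
      rw [Finset.mul_sum, Finset.mul_sum, ← Finset.sum_sub_distrib]
      refine Finset.sum_congr rfl fun u' _ => ?_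
      rw [norm_sq_diff]
      ring
    rw [h6, h5, h2]
    ring
  have hsq : ∑ u ∈ I, ν u * ν u ≤ 1 - δ := by
    calc ∑ u ∈ I, ν u * ν u ≤ ∑ u ∈ I, (1 - δ) * ν u :=
          Finset.sum_le_sum fun u _ => mul_le_mul_of_nonneg_right (hδ u) (h0 u)
      _ = 1 - δ := by rw [← Finset.mul_sum, h1, mul_one]
  have hlow : W L φ / 4 ^ L * (1 - ∑ u ∈ I, ν u * ν u) ≤
      ∑ u ∈ I, ∑ u' ∈ I, ν u * ν u' * ‖e (u * φ) - e (u' * φ)‖ ^ 2 := by
    have h5 : ∑ u ∈ I, ∑ u' ∈ I, ν u * ν u' = 1 := by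
      rw [← Finset.sum_mul_sum, h1]; norm_num
    have h6 : ∑ u ∈ I, ν u * ν u = ∑ u ∈ I, ∑ u' ∈ I, ν u * ν u' * (if u = u' then 1 else 0) := by
      refine Finset.sum_congr rfl fun u hu => ?_
      rw [Finset.sum_eq_single u]
      · simp
      · intro u' _ hne; rw [if_neg hne.symm, mul_zero]
      · intro h; exact absurd hu h
    rw [← h5, h6, ← Finset.sum_sub_distrib, Finset.mul_sum]
    refine Finset.sum_le_sum fun u hu => ?_
    rw [← Finset.sum_sub_distrib, Finset.mul_sum]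
    refine Finset.sum_le_sum fun u' hu' => ?_
    by_cases hne : u = u'
    · rw [if_pos hne, mul_one, sub_self, mul_zero]
      exact mul_nonneg (mul_nonneg (h0 _) (h0 _)) (by positivity)
    · rw [if_neg hne, mul_zero, sub_zero, mul_comm]
      refine mul_le_mul_of_nonneg_left ?_ (mul_nonneg (h0 _) (h0 _))
      rw [div_le_iff₀ (by positivity), mul_comm]
      exact W_le_diff hL φ (abs_le.2 (Finset.mem_Icc.1 hu)) (abs_le.2 (Finset.mem_Icc.1 hu')) hne
  rw [key] at hlow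
  have hW := W_nonneg L φ
  have h7 : W L φ / 4 ^ L * δ ≤ W L φ / 4 ^ L * (1 - ∑ u ∈ I, ν u * ν u) :=
    mul_le_mul_of_nonneg_left (by linarith) (by positivity)
  have h8 : δ / (2 * 4 ^ L) * W L φ = (W L φ / 4 ^ L * δ) / 2 := by
    field_simp
  rw [h8]
  linarith

/-- Expansion of the product of the majorants. -/
theorem sum_prod {ι : Type*} [DecidableEq ι] (a : ℕ) (A : Finset ℕ) (I : Finset ι) (C : ι → ℂ)
    (s : ι → ℤ) (R : ℕ) (t : ℕ → ℝ)
    (hvan : ∀ d : A → ι, (∀ i, d i ∈ I) → (∃ i, s (d i) ≠ 0) →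
      ∑ r ∈ range R, e (t r * ∑ i : A, (s (d i) : ℝ) / (a : ℝ) ^ ((i : ℕ) + 1)) = 0) :
    ∑ r ∈ range R, ∏ n ∈ A, ∑ j ∈ I, C j * e ((s j : ℝ) * (t r / (a : ℝ) ^ (n + 1))) =
      R * (∑ j ∈ I.filter (fun j => s j = 0), C j) ^ A.card := by
  classical
  have h1 : ∀ r, ∏ n ∈ A, ∑ j ∈ I, C j * e ((s j : ℝ) * (t r / (a : ℝ) ^ (n + 1))) =
      ∑ d ∈ Fintype.piFinset (fun _ : A => I), (∏ i : A, C (d i)) *
        e (t r * ∑ i : A, (s (d i) : ℝ) / (a : ℝ) ^ ((i : ℕ) + 1)) := by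
    intro r
    rw [← Finset.prod_coe_sort, Finset.prod_univ_sum]
    refine Finset.sum_congr rfl fun d _ => ?_
    rw [Finset.prod_mul_distrib, Finset.mul_sum, e_sum]
    congr 1
    refine Finset.prod_congr rfl fun i _ => ?_
    congr 1
    ring
  simp_rw [h1]
  rw [Finset.sum_comm]
  simp_rw [← Finset.mul_sum]
  have hsub : Fintype.piFinset (fun _ : A => I.filter (fun j => s j = 0)) ⊆
      Fintype.piFinset (fun _ : A => I) := by
    intro d hd
    rw [Fintype.mem_piFinset] at hd ⊢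
    exact fun i => (Finset.mem_filter.1 (hd i)).1
  rw [← Finset.sum_subset hsub]
  · have h2 : ∀ d ∈ Fintype.piFinset (fun _ : A => I.filter (fun j => s j = 0)),
        (∏ i : A, C (d i)) * ∑ r ∈ range R,
          e (t r * ∑ i : A, (s (d i) : ℝ) / (a : ℝ) ^ ((i : ℕ) + 1)) = R * ∏ i : A, C (d i) := by
      intro d hd
      rw [Fintype.mem_piFinset] at hd
      have h3 : ∑ i : A, (s (d i) : ℝ) / (a : ℝ) ^ ((i : ℕ) + 1) = 0 := by
        refine Finset.sum_eq_zero fun i _ => ?_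
        rw [(Finset.mem_filter.1 (hd i)).2]; simp
      rw [h3]
      simp only [mul_zero, e_zero, Finset.sum_const, card_range, nsmul_eq_mul, mul_one]
      ring
    rw [Finset.sum_congr rfl h2, ← Finset.mul_sum]
    congr 1
    rw [← Finset.prod_univ_sum]
    simp
  · intro d hd hd'
    rw [Fintype.mem_piFinset] at hd
    rw [hvan d hd, mul_zero]
    by_contra hcon
    push Not at hcon
    apply hd'
    rw [Fintype.mem_piFinset]
    exact fun i => Finset.mem_filter.2 ⟨hd i, hcon i⟩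

/-- the expansion of the majorant -/
theorem psi_expand (L : ℕ) (c φ : ℝ) :
    ((1 - c * W L φ : ℝ) : ℂ) = ∑ j ∈ range ((pol L).natDegree + 1) ×ˢ range ((pol L).natDegree + 1),
      ((if j = (0, 0) then 1 else 0) - (c : ℂ) * ((pol L).coeff j.1 *
        (starRingEnd ℂ) ((pol L).coeff j.2))) * e ((((j.1 : ℤ) - (j.2 : ℤ) : ℤ) : ℝ) * φ) := by
  classical
  have h1 : ((W L φ : ℝ) : ℂ) = ∑ j ∈ range ((pol L).natDegree + 1) ×ˢ range ((pol L).natDegree + 1),
      ((pol L).coeff j.1 * (starRingEnd ℂ) ((pol L).coeff j.2)) *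
        e ((((j.1 : ℤ) - (j.2 : ℤ) : ℤ) : ℝ) * φ) := by
    unfold W
    rw [Complex.ofReal_pow, ← Complex.mul_conj', Polynomial.eval_eq_sum_range, map_sum,
      Finset.sum_mul_sum, Finset.sum_product]
    refine Finset.sum_congr rfl fun u _ => Finset.sum_congr rfl fun u' _ => ?_
    have h2 : (((u : ℤ) - (u' : ℤ) : ℤ) : ℝ) * φ = (u : ℝ) * φ + -((u' : ℝ) * φ) := by
      push_cast; ring
    rw [map_mul, map_pow, h2, e_add, e_neg, e_nsmul, e_nsmul, map_pow]
    ring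
  have h3 : ∑ j ∈ range ((pol L).natDegree + 1) ×ˢ range ((pol L).natDegree + 1),
      ((if j = (0, 0) then (1 : ℂ) else 0)) * e ((((j.1 : ℤ) - (j.2 : ℤ) : ℤ) : ℝ) * φ) = 1 := by
    rw [Finset.sum_eq_single (0, 0)]
    · simp [e_zero]
    · intro j _ hj; rw [if_neg hj, zero_mul]
    · intro h
      exact absurd (Finset.mem_product.2 ⟨Finset.mem_range.2 (Nat.succ_pos _),
        Finset.mem_range.2 (Nat.succ_pos _)⟩) h
  rw [Complex.ofReal_sub, Complex.ofReal_mul, Complex.ofReal_one]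
  simp_rw [sub_mul]
  rw [Finset.sum_sub_distrib, h3, h1, Finset.mul_sum]
  congr 1
  refine Finset.sum_congr rfl fun j _ => ?_
  ring

/-- the sum of the squares of the coefficients -/
noncomputable def SS (L : ℕ) : ℝ := ∑ u ∈ range ((pol L).natDegree + 1), ‖(pol L).coeff u‖ ^ 2

theorem one_le_SS (L : ℕ) : 1 ≤ SS L := by
  unfold SS
  have h1 : ‖(pol L).coeff 0‖ ^ 2 ≤ ∑ u ∈ range ((pol L).natDegree + 1), ‖(pol L).coeff u‖ ^ 2 :=
    Finset.single_le_sum (f := fun u => ‖(pol L).coeff u‖ ^ 2) (fun _ _ => by positivity)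
      (Finset.mem_range.2 (Nat.succ_pos _))
  rw [pol_coeff_zero] at h1
  simpa using h1

theorem diag (L : ℕ) (c : ℝ) :
    ∑ j ∈ (range ((pol L).natDegree + 1) ×ˢ range ((pol L).natDegree + 1)).filter
      (fun j => (j.1 : ℤ) - (j.2 : ℤ) = 0),
      ((if j = (0, 0) then 1 else 0) - (c : ℂ) * ((pol L).coeff j.1 *
        (starRingEnd ℂ) ((pol L).coeff j.2))) = ((1 - c * SS L : ℝ) : ℂ) := by
  classical
  have h0 : (range ((pol L).natDegree + 1) ×ˢ range ((pol L).natDegree + 1)).filter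
      (fun j => (j.1 : ℤ) - (j.2 : ℤ) = 0) =
      (range ((pol L).natDegree + 1)).image (fun u => (u, u)) := by
    ext ⟨u, u'⟩
    simp only [Finset.mem_filter, Finset.mem_product, Finset.mem_image, Prod.mk.injEq]
    constructor
    · rintro ⟨⟨h1, _⟩, h3⟩
      exact ⟨u, h1, rfl, by omega⟩
    · rintro ⟨w, h1, rfl, rfl⟩
      exact ⟨⟨h1, h1⟩, by omega⟩
  rw [h0, Finset.sum_image (by
    intro x _ y _ h
    exact (Prod.mk.inj h).1), Finset.sum_sub_distrib]
  unfold SS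
  push_cast
  rw [Finset.mul_sum]
  congr 1
  · rw [Finset.sum_eq_single 0]
    · simp
    · intro u _ hu
      rw [if_neg]
      intro h
      exact hu (Prod.mk.inj h).1
    · intro h
      exact absurd (Finset.mem_range.2 (Nat.succ_pos _)) h
  · refine Finset.sum_congr rfl fun u _ => ?_
    rw [Complex.mul_conj']

end Pool.Agent.N440.FO
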