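import Pool.Agent.N440.FO.Prob

/-! # Separated positions with a small product of collision probabilities -/

set_option autoImplicit false

open Finset MeasureTheory ProbabilityTheory Filter Topology

namespace Pool.Agent.N440.FO

/-- a divergent series diverges along some arithmetic progression of difference `l` -/
theorem exists_residue {f : ℕ → ℝ} (hf : ∀ n, 0 ≤ f n) (hns : ¬ Summable f) {l : ℕ} (hl : 0 < l) :
    ∃ i < l, ¬ Summable (fun n => f (n * l + i)) := by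
  haveI : NeZero l := ⟨hl.ne'⟩
  by_contra hcon
  push Not at hcon
  apply hns
  rw [← (Nat.divModEquiv l).symm.summable_iff]
  refine (summable_prod_of_nonneg (f := f ∘ (Nat.divModEquiv l).symm) (fun x => hf _)).2 ?_
  constructor
  · intro x; exact Summable.of_finite
  · have : ∀ x : ℕ, ∑' y : Fin l, (f ∘ (Nat.divModEquiv l).symm) (x, y) =
        ∑ y : Fin l, f (x * l + y) := by
      intro x; rw [tsum_fintype]; rfl
    simp_rw [this]
    exact summable_sum fun y _ => hcon y y.2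

variable {Ω : Type*} [MeasurableSpace Ω] {μ : Measure Ω} [IsProbabilityMeasure μ]

/-- if the law of `X` has no atoms then the digits are random enough -/
theorem not_summable {a : ℕ} (ha : 2 ≤ a) {ε : ℕ → Ω → ℤ} (hε : ∀ n, Measurable (ε n))
    {M : ℤ} (hM : ∀ n ω, |ε n ω| ≤ M) {y : ℝ} (hat : ∀ t : ℝ, μ {ω | X a ε y ω = t} = 0)
    (d : ℕ → ℤ) (hd : ∀ n, |d n| ≤ M) : ¬ Summable (fun n => μ.real {ω | ε n ω ≠ d n}) := by
  intro hs
  -- the tail
  have h1 : ∃ n₁ : ℕ, μ (⋃ n : ℕ, {ω | ε (n + n₁) ω ≠ d (n + n₁)}) < 1 := by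
    have h2 : Tendsto (fun i => ∑' n : ℕ, μ.real {ω | ε (n + i) ω ≠ d (n + i)}) atTop (𝓝 0) :=
      tendsto_sum_nat_add fun n => μ.real {ω | ε n ω ≠ d n}
    obtain ⟨n₁, hn₁⟩ := (h2.eventually (gt_mem_nhds one_pos)).exists
    refine ⟨n₁, lt_of_le_of_lt (measure_iUnion_le _) ?_⟩
    have h3 : Summable fun n : ℕ => μ.real {ω | ε (n + n₁) ω ≠ d (n + n₁)} :=
      (summable_nat_add_iff (f := fun n => μ.real {ω | ε n ω ≠ d n}) n₁).2 hs
    have h4 : ∑' n : ℕ, μ {ω | ε (n + n₁) ω ≠ d (n + n₁)} =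
        ENNReal.ofReal (∑' n : ℕ, μ.real {ω | ε (n + n₁) ω ≠ d (n + n₁)}) := by
      rw [ENNReal.ofReal_tsum_of_nonneg (fun n => measureReal_nonneg) h3]
      refine tsum_congr fun n => ?_
      rw [Measure.real, ENNReal.ofReal_toReal (measure_ne_top _ _)]
    rw [h4]
    rw [← ENNReal.ofReal_one]
    exact (ENNReal.ofReal_lt_ofReal_iff one_pos).2 hn₁
  obtain ⟨n₁, hn₁⟩ := h1
  -- the countable set of values
  set g : (Fin n₁ → ℤ) → ℝ := fun u => y + (∑ n : Fin n₁, (u n : ℝ) / (a : ℝ) ^ ((n : ℕ) + 1) +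
    ∑' n : ℕ, (d (n + n₁) : ℝ) / (a : ℝ) ^ (n + n₁ + 1)) with hg
  have hnull : μ (⋃ u : Fin n₁ → ℤ, {ω | X a ε y ω = g u}) = 0 :=
    measure_iUnion_null fun u => hat (g u)
  have hcover : (Set.univ : Set Ω) ⊆ (⋃ n : ℕ, {ω | ε (n + n₁) ω ≠ d (n + n₁)}) ∪
      ⋃ u : Fin n₁ → ℤ, {ω | X a ε y ω = g u} := by
    intro ω _
    by_cases h : ω ∈ ⋃ n : ℕ, {ω | ε (n + n₁) ω ≠ d (n + n₁)}
    · exact Or.inl h
    · right
      simp only [Set.mem_iUnion, Set.mem_ofPred_eq, not_exists, not_not] at h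
      rw [Set.mem_iUnion]
      refine ⟨fun n => ε n ω, ?_⟩
      show X a ε y ω = _
      unfold X
      rw [hg, ← (summable_digits ha (fun n => hM n ω)).sum_add_tsum_nat_add n₁]
      simp only
      rw [← Fin.sum_univ_eq_sum_range (fun n => (ε n ω : ℝ) / (a : ℝ) ^ (n + 1)) n₁]
      simp_rw [h]
  have h5 : (1 : ENNReal) ≤ μ (⋃ n : ℕ, {ω | ε (n + n₁) ω ≠ d (n + n₁)}) := by
    calc (1 : ENNReal) = μ Set.univ := measure_univ.symm
      _ ≤ _ := measure_mono hcover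
      _ ≤ _ := measure_union_le _ _
      _ = _ := by rw [hnull, add_zero]
  exact absurd hn₁ (not_lt.2 h5)

/-- the collision probability of a digit -/
noncomputable def coll (μ : Measure Ω) (ε : ℕ → Ω → ℤ) (M : ℤ) (n : ℕ) : ℝ :=
  ∑ d ∈ Finset.Icc (-M) M, μ.real {ω | ε n ω = d} ^ 2

theorem sum_law {ξ : Ω → ℤ} (hξ : Measurable ξ) {M : ℤ} (hM : ∀ ω, |ξ ω| ≤ M) :
    ∑ d ∈ Finset.Icc (-M) M, μ.real {ω | ξ ω = d} = 1 := by
  have h := integral_digit (μ := μ) hξ hM (fun _ => 1)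
  simp only [integral_const, probReal_univ, one_smul, mul_one] at h
  exact_mod_cast h.symm

theorem exists_mode {ε : ℕ → Ω → ℤ} (hε : ∀ n, Measurable (ε n)) {M : ℤ} (hM0 : 0 ≤ M)
    (hM : ∀ n ω, |ε n ω| ≤ M) (n : ℕ) :
    ∃ d : ℤ, |d| ≤ M ∧ coll μ ε M n ≤ 1 - μ.real {ω | ε n ω ≠ d} := by
  obtain ⟨d, hd, hmax⟩ := Finset.exists_max_image (Finset.Icc (-M) M)
    (fun d => μ.real {ω | ε n ω = d}) ⟨0, Finset.mem_Icc.2 ⟨by linarith, hM0⟩⟩
  refine ⟨d, abs_le.2 (Finset.mem_Icc.1 hd), ?_⟩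
  have hms : MeasurableSet {ω | ε n ω = d} := hε n (measurableSet_singleton d)
  have h1 : μ.real {ω | ε n ω ≠ d} = 1 - μ.real {ω | ε n ω = d} := by
    have : {ω | ε n ω ≠ d} = {ω | ε n ω = d}ᶜ := rfl
    rw [this, probReal_compl_eq_one_sub hms]
  rw [h1, sub_sub_cancel]
  unfold coll
  calc ∑ d' ∈ Finset.Icc (-M) M, μ.real {ω | ε n ω = d'} ^ 2
      ≤ ∑ d' ∈ Finset.Icc (-M) M, μ.real {ω | ε n ω = d} * μ.real {ω | ε n ω = d'} := by
        refine Finset.sum_le_sum fun d' hd' => ?_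
        rw [pow_two]
        exact mul_le_mul_of_nonneg_right (hmax d' hd') measureReal_nonneg
    _ = μ.real {ω | ε n ω = d} := by rw [← Finset.mul_sum, sum_law (hε n) (hM n), mul_one]

/-- The selection of the positions. -/
theorem exists_positions {a : ℕ} (ha : 2 ≤ a) {ε : ℕ → Ω → ℤ} (hε : ∀ n, Measurable (ε n))
    {M : ℤ} (hM0 : 0 ≤ M) (hM : ∀ n ω, |ε n ω| ≤ M) {y : ℝ}
    (hat : ∀ t : ℝ, μ {ω | X a ε y ω = t} = 0) {l : ℕ} (hl : 0 < l) (n₀ : ℕ) {η : ℝ} (hη : 0 < η) :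
    ∃ A : Finset ℕ, (∀ i ∈ A, ∀ j ∈ A, i < j → i + l ≤ j) ∧ (∀ i ∈ A, n₀ ≤ i) ∧
      ∏ n ∈ A, coll μ ε M n ≤ η := by
  classical
  choose d hd hcd using exists_mode (μ := μ) hε hM0 hM
  set f : ℕ → ℝ := fun n => μ.real {ω | ε n ω ≠ d n} with hf
  have hf0 : ∀ n, 0 ≤ f n := fun n => measureReal_nonneg
  obtain ⟨i, hi, hns⟩ := exists_residue hf0 (not_summable ha hε hM hat d hd) hl
  have hns2 : ¬ Summable (fun n => f ((n + n₀) * l + i)) := by
    intro h
    exact hns ((summable_nat_add_iff (f := fun n => f (n * l + i)) n₀).1 h)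
  rw [not_summable_iff_tendsto_nat_atTop_of_nonneg (fun n => hf0 _)] at hns2
  obtain ⟨L, hL⟩ := (hns2.eventually (eventually_ge_atTop (-Real.log η))).exists
  have hinj : Function.Injective fun n : ℕ => (n + n₀) * l + i := by
    intro m n h
    simp only [Nat.add_right_cancel_iff] at h
    have := Nat.eq_of_mul_eq_mul_right hl h
    omega
  refine ⟨(range L).image fun n => (n + n₀) * l + i, ?_, ?_, ?_⟩
  · intro i₁ h1 j₁ h2 hlt
    obtain ⟨m, _, rfl⟩ := Finset.mem_image.1 h1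
    obtain ⟨n, _, rfl⟩ := Finset.mem_image.1 h2
    have h3 : m < n := by
      by_contra h4
      push Not at h4
      have : (n + n₀) * l ≤ (m + n₀) * l := Nat.mul_le_mul_right l (by omega)
      omega
    have h4 : (m + 1 + n₀) * l ≤ (n + n₀) * l := Nat.mul_le_mul_right l (by omega)
    have h5 : (m + 1 + n₀) * l = (m + n₀) * l + l := by ring
    omega
  · intro i₁ h1
    obtain ⟨m, _, rfl⟩ := Finset.mem_image.1 h1
    have : (m + n₀) * 1 ≤ (m + n₀) * l := Nat.mul_le_mul_left _ hl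
    show n₀ ≤ (m + n₀) * l + i
    omega
  · rw [Finset.prod_image (fun m _ n _ h => hinj h)]
    calc ∏ n ∈ range L, coll μ ε M ((n + n₀) * l + i)
        ≤ ∏ n ∈ range L, Real.exp (-f ((n + n₀) * l + i)) := by
          refine Finset.prod_le_prod ?_ ?_
          · intro n _
            exact Finset.sum_nonneg fun _ _ => by positivity
          · intro n _
            refine (hcd _).trans ?_
            have := Real.add_one_le_exp (-f ((n + n₀) * l + i))
            rw [hf] at this ⊢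
            simp only at this ⊢
            linarith
      _ = Real.exp (-∑ n ∈ range L, f ((n + n₀) * l + i)) := by
          rw [← Real.exp_sum, Finset.sum_neg_distrib]
      _ ≤ Real.exp (Real.log η) := by
          apply Real.exp_le_exp.2
          linarith
      _ = η := Real.exp_log hη

end Pool.Agent.N440.FO
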