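import Pool.Agent.N440.FO.Gen2
import Pool.Agent.N440.FO.Moment2

/-! # Dense orbits in all multiplicatively independent bases -/

set_option autoImplicit false

open Finset MeasureTheory ProbabilityTheory Filter Topology
open Pool.Agent.H1R3.Det (Circ)

namespace Pool.Agent.N440.FO

variable {Ω : Type*} [MeasurableSpace Ω] {μ : Measure Ω} [IsProbabilityMeasure μ]

/-- An open set is visited almost surely. -/
theorem visit_of {a : ℕ} (ha : 2 ≤ a) {ε : ℕ → Ω → ℤ} (hε : ∀ n, Measurable (ε n))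
    {M : ℤ} (hM : ∀ n ω, |ε n ω| ≤ M) {y : ℝ} {b : ℕ}
    (hmom : ∀ (H : ℕ) (η : ℝ), 0 < η → ∃ R : ℕ, 0 < R ∧ ∃ s : ℕ → ℕ, ∀ h : ℤ, h ≠ 0 → |h| ≤ H →
      ∫ ω, ‖∑ r ∈ range R, e ((h * (b : ℝ) ^ (s r)) * X a ε y ω)‖ ^ 2 ∂μ ≤ (R : ℝ) ^ 2 * η)
    {U : Set Circ} (hU : IsOpen U) (hne : U.Nonempty) :
    ∀ᵐ ω ∂μ, ∃ n : ℕ, ((((b : ℝ) ^ n * X a ε y ω : ℝ)) : Circ) ∈ U := by
  classical
  obtain ⟨H, ρ, hρ, hd⟩ := dens hU hne
  rw [ae_iff]
  set Bad : Set Ω := {ω | ¬ ∃ n : ℕ, ((((b : ℝ) ^ n * X a ε y ω : ℝ)) : Circ) ∈ U} with hBad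
  have key : ∀ η : ℝ, 0 < η → μ.real Bad ≤ (2 * H + 1) * (η / ρ ^ 2) := by
    intro η hη
    obtain ⟨R, hR, s, hs⟩ := hmom H η hη
    have hR' : (0 : ℝ) < R := by exact_mod_cast hR
    set W : ℤ → Ω → ℝ := fun h ω =>
      ‖∑ r ∈ range R, e ((h * (b : ℝ) ^ (s r)) * X a ε y ω)‖ ^ 2 with hW
    set F : Finset ℤ := (Finset.Icc (-(H : ℤ)) H).filter (fun h => h ≠ 0) with hF
    have hsub : Bad ⊆ ⋃ h ∈ F, {ω | (R * ρ) ^ 2 ≤ W h ω} := by
      intro ω hω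
      by_contra hcon
      apply hω
      have hsmall : Small H ρ R (fun r => (b : ℝ) ^ (s r) * X a ε y ω) := by
        intro h hh hhH
        by_contra hlt
        rw [not_le] at hlt
        apply hcon
        rw [Set.mem_iUnion₂]
        refine ⟨h, ?_, ?_⟩
        · rw [hF, Finset.mem_filter, Finset.mem_Icc]
          exact ⟨abs_le.1 hhH, hh⟩
        · show (R * ρ) ^ 2 ≤ ‖∑ r ∈ range R, e ((h * (b : ℝ) ^ (s r)) * X a ε y ω)‖ ^ 2
          have e1 : ∑ r ∈ range R, e ((h * (b : ℝ) ^ (s r)) * X a ε y ω) =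
              ∑ r ∈ range R, e (h * ((b : ℝ) ^ (s r) * X a ε y ω)) := by
            simp_rw [mul_assoc]
          rw [e1]
          gcongr
      obtain ⟨r, _, hr⟩ := hd R _ hR hsmall
      exact ⟨s r, hr⟩
    have hWint : ∀ h, Integrable (W h) μ := by
      intro h
      refine Integrable.of_bound (C := (R : ℝ) ^ 2) ?_ ?_
      · refine Measurable.aestronglyMeasurable ?_
        refine Measurable.pow_const ?_ 2
        refine Measurable.norm ?_
        refine Finset.measurable_sum _ fun r _ => ?_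
        exact measurable_e.comp ((measurable_X ha hε hM y).const_mul _)
      · refine Filter.Eventually.of_forall fun ω => ?_
        rw [Real.norm_of_nonneg (by positivity)]
        show ‖∑ r ∈ range R, e ((h * (b : ℝ) ^ (s r)) * X a ε y ω)‖ ^ 2 ≤ _
        gcongr
        calc _ ≤ ∑ r ∈ range R, ‖e ((h * (b : ℝ) ^ (s r)) * X a ε y ω)‖ := norm_sum_le _ _
          _ = R := by simp [norm_e]
    have hmk : ∀ h ∈ F, μ.real {ω | (R * ρ) ^ 2 ≤ W h ω} ≤ η / ρ ^ 2 := by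
      intro h hh
      rw [hF, Finset.mem_filter, Finset.mem_Icc] at hh
      have h1 := mul_meas_ge_le_integral_of_nonneg (μ := μ) (f := W h)
        (Filter.Eventually.of_forall fun ω => by positivity) (hWint h) ((R * ρ) ^ 2)
      have h2 := hs h hh.2 (abs_le.2 hh.1)
      have h3 : (R * ρ) ^ 2 * μ.real {ω | (R * ρ) ^ 2 ≤ W h ω} ≤ (R : ℝ) ^ 2 * η := h1.trans h2
      rw [le_div_iff₀ (by positivity)]
      have h4 : (R : ℝ) ^ 2 * (μ.real {ω | (R * ρ) ^ 2 ≤ W h ω} * ρ ^ 2) ≤ (R : ℝ) ^ 2 * η := by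
        calc _ = (R * ρ) ^ 2 * μ.real {ω | (R * ρ) ^ 2 ≤ W h ω} := by ring
          _ ≤ _ := h3
      exact le_of_mul_le_mul_left h4 (by positivity)
    calc μ.real Bad ≤ μ.real (⋃ h ∈ F, {ω | (R * ρ) ^ 2 ≤ W h ω}) := measureReal_mono hsub (measure_ne_top _ _)
      _ ≤ ∑ h ∈ F, μ.real {ω | (R * ρ) ^ 2 ≤ W h ω} := measureReal_biUnion_finset_le _ _
      _ ≤ ∑ _h ∈ F, η / ρ ^ 2 := Finset.sum_le_sum hmk
      _ = F.card * (η / ρ ^ 2) := by simp
      _ ≤ (2 * H + 1) * (η / ρ ^ 2) := by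
          gcongr
          have h1 : F.card ≤ (Finset.Icc (-(H : ℤ)) H).card := Finset.card_filter_le _ _
          have h2 : (Finset.Icc (-(H : ℤ)) H).card = 2 * H + 1 := by
            rw [Int.card_Icc]; omega
          rw [h2] at h1
          exact_mod_cast h1
  have hz : μ.real Bad ≤ 0 := by
    refine le_of_forall_pos_le_add fun τ hτ => ?_
    rw [zero_add]
    have h1 := key (τ * ρ ^ 2 / (2 * H + 1)) (by positivity)
    refine h1.trans (le_of_eq ?_)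
    have : (2 * (H : ℝ) + 1) ≠ 0 := by positivity
    field_simp
  have hz' : μ.real Bad = 0 := le_antisymm hz measureReal_nonneg
  rwa [measureReal_eq_zero_iff] at hz'


/-- independent digits: the conditional bound with the defects of the digits -/
theorem cond_of_indep2 {ε : ℕ → Ω → ℤ} (hε : ∀ n, Measurable (ε n))
    (hind : iIndepFun ε μ) {M : ℤ} (hM : ∀ n ω, |ε n ω| ≤ M) {δ : ℝ} (hδ : 0 < δ)
    (hprog : ∀ K : ℕ, ∃ q M₀ : ℕ, 0 < q ∧ ∀ i ≤ K ^ q, ∀ u : ℤ,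
      μ.real {ω | ε (M₀ + q * i) ω = u} ≤ 1 - δ) :
    ∃ δ' : ℕ → ℝ, Cond μ ε δ' ∧ (∀ n, 0 ≤ δ' n) ∧ ¬ Summable δ' := by
  classical
  have hM0 : 0 ≤ M := by
    have : Nonempty Ω := (IsProbabilityMeasure.ne_zero μ |> fun h => by
      by_contra hcon
      rw [not_nonempty_iff] at hcon
      exact h (Measure.eq_zero_of_isEmpty μ))
    exact (abs_nonneg _).trans (hM 0 (Classical.arbitrary Ω))
  have hmode : ∀ n, ∃ d : ℤ, ∀ d', μ.real {ω | ε n ω = d'} ≤ μ.real {ω | ε n ω = d} := by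
    intro n
    obtain ⟨d, hd, hmax⟩ := Finset.exists_max_image (Finset.Icc (-M) M)
      (fun d => μ.real {ω | ε n ω = d}) ⟨0, Finset.mem_Icc.2 ⟨by linarith, hM0⟩⟩
    refine ⟨d, fun d' => ?_⟩
    by_cases hd' : d' ∈ Finset.Icc (-M) M
    · exact hmax d' hd'
    · have : {ω | ε n ω = d'} = ∅ := by
        rw [Set.eq_empty_iff_forall_notMem]
        intro ω hω
        apply hd'
        rw [← (show ε n ω = d' from hω)]
        exact Finset.mem_Icc.2 (abs_le.1 (hM n ω))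
      rw [this, measureReal_empty]
      exact measureReal_nonneg
  choose d hmax using hmode
  have hcompl : ∀ n, μ.real {ω | ε n ω ≠ d n} = 1 - μ.real {ω | ε n ω = d n} := by
    intro n
    have hms : MeasurableSet {ω | ε n ω = d n} := hε n (measurableSet_singleton _)
    have : {ω | ε n ω ≠ d n} = {ω | ε n ω = d n}ᶜ := rfl
    rw [this, probReal_compl_eq_one_sub hms]
  refine ⟨fun n => μ.real {ω | ε n ω ≠ d n}, ?_, fun n => measureReal_nonneg, ?_⟩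
  · intro n F u hn
    show μ.real (cyl ε (insert n F) u) ≤ (1 - μ.real {ω | ε n ω ≠ d n}) * μ.real (cyl ε F u)
    rw [hcompl, sub_sub_cancel]
    have hcyl : ∀ G : Finset ℕ, μ.real (cyl ε G u) = ∏ i ∈ G, μ.real {ω | ε i ω = u i} := by
      intro G
      have h2 : cyl ε G u = ⋂ i ∈ G, ε i ⁻¹' {u i} := by
        ext ω; simp [cyl]
      rw [h2, Measure.real, hind.measure_inter_preimage_eq_mul G
        (fun i _ => measurableSet_singleton (u i)), ENNReal.toReal_prod]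
      rfl
    rw [hcyl, hcyl, Finset.prod_insert hn]
    exact mul_le_mul_of_nonneg_right (hmax n (u n))
      (Finset.prod_nonneg fun _ _ => measureReal_nonneg)
  · intro hsum
    have h1 := hsum.tendsto_atTop_zero
    have h2 : ∀ᶠ n in atTop, μ.real {ω | ε n ω ≠ d n} < δ := h1.eventually_lt_const hδ
    rw [eventually_atTop] at h2
    obtain ⟨N₀, hN₀⟩ := h2
    obtain ⟨q, M₀, hq, hl⟩ := hprog (N₀ + 1)
    have h3 : N₀ + 1 ≤ (N₀ + 1) ^ q := by
      calc N₀ + 1 = (N₀ + 1) ^ 1 := (pow_one _).symm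
        _ ≤ (N₀ + 1) ^ q := Nat.pow_le_pow_right (by omega) hq
    have h4 : (N₀ + 1) ^ q ≤ q * (N₀ + 1) ^ q := Nat.le_mul_of_pos_left _ hq
    have h5 := hN₀ (M₀ + q * (N₀ + 1) ^ q) (by omega)
    rw [hcompl] at h5
    have h6 := hl _ le_rfl (d (M₀ + q * (N₀ + 1) ^ q))
    linarith

/-- Almost surely the orbit is dense for all `b` multiplicatively independent of `a`. -/
theorem dense_all {a : ℕ} (ha : 2 ≤ a) {ε : ℕ → Ω → ℤ} (hε : ∀ n, Measurable (ε n))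
    (hind : iIndepFun ε μ) {M : ℤ} (hM : ∀ n ω, |ε n ω| ≤ M) (y : ℝ) {δ : ℝ} (hδ : 0 < δ)
    (hprog : ∀ K : ℕ, ∃ q M₀ : ℕ, 0 < q ∧ ∀ i ≤ K ^ q, ∀ u : ℤ,
      μ.real {ω | ε (M₀ + q * i) ω = u} ≤ 1 - δ) :
    ∀ᵐ ω ∂μ, ∀ b : ℕ, 2 ≤ b → (∀ k l : ℕ, 0 < k → 0 < l → a ^ k ≠ b ^ l) →
      Dense (Set.range fun n : ℕ => b ^ n • ((X a ε y ω : ℝ) : Circ)) := by
  have hM0 : 0 ≤ M := by
    have : Nonempty Ω := (IsProbabilityMeasure.ne_zero μ |> fun h => by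
      by_contra hcon
      rw [not_nonempty_iff] at hcon
      exact h (Measure.eq_zero_of_isEmpty μ))
    exact (abs_nonneg _).trans (hM 0 (Classical.arbitrary Ω))
  obtain ⟨δ', hc, hδ0, hns⟩ := cond_of_indep2 hε hind hM hδ hprog
  rw [ae_all_iff]
  intro b
  by_cases hb : 2 ≤ b
  swap
  · exact Filter.Eventually.of_forall fun ω h => absurd h hb
  by_cases hab : ∀ k l : ℕ, 0 < k → 0 < l → a ^ k ≠ b ^ l
  swap
  · exact Filter.Eventually.of_forall fun ω _ h => absurd h hab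
  have hmom : ∀ (H : ℕ) (η : ℝ), 0 < η → ∃ R : ℕ, 0 < R ∧ ∃ s : ℕ → ℕ, ∀ h : ℤ, h ≠ 0 → |h| ≤ H →
      ∫ ω, ‖∑ r ∈ range R, e ((h * (b : ℝ) ^ (s r)) * X a ε y ω)‖ ^ 2 ∂μ ≤ (R : ℝ) ^ 2 * η := by
    intro H η hη
    by_cases hp : ∃ p : ℕ, p.Prime ∧ p ∣ a ∧ ¬ p ∣ b
    · obtain ⟨p, hpp, hpa, hpb⟩ := hp
      exact moment' ha hε hM0 hM (y := y) hc hδ0 hns hb hpp hpa hpb H hη
    · push Not at hp
      obtain ⟨p, α, β, g, hpp, hpa, _, hβ, hg, hpg, hbg⟩ := exists_g ha hb hab hp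
      exact moment2 ha hε hind hM0 hM y hδ hprog hpp hpa hβ hg hpg hbg H hη
  obtain ⟨B, hBc, hBe, hB⟩ := TopologicalSpace.exists_countable_basis Circ
  have h1 : ∀ᵐ ω ∂μ, ∀ U ∈ B, ∃ n : ℕ, ((((b : ℝ) ^ n * X a ε y ω : ℝ)) : Circ) ∈ U := by
    rw [ae_ball_iff hBc]
    intro U hU
    exact visit_of ha hε hM (y := y) hmom (hB.isOpen hU)
      (Set.nonempty_iff_ne_empty.2 fun h0 => hBe (h0 ▸ hU))
  filter_upwards [h1] with ω hω _ _
  rw [hB.dense_iff]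
  intro U hU _
  obtain ⟨n, hn⟩ := hω U hU
  refine ⟨_, hn, n, ?_⟩
  show b ^ n • ((X a ε y ω : ℝ) : Circ) = _
  rw [← AddCircle.coe_nsmul, nsmul_eq_mul]
  push_cast
  rfl

end Pool.Agent.N440.FO
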